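import Pool.Agent.MP_060950_al.Mg.Data

-- part MP_060950_al.KGroup
section

/-!
The concrete group K.
-/

namespace Pool.Agent.MP_060950_al

open Subgroup

/-- The underlying set of the group. -/
structure KK : Type where
  w : Fin 9 → S8
  c : V3

namespace KK

lemma ext' {a b : KK} (h1 : ∀ i, a.w i = b.w i) (h2 : a.c = b.c) : a = b := by
  cases a; cases b
  congr 1
  exact funext h1

instance : Mul KK := ⟨fun a b => ⟨fun i => a.w i + act (dot (wt i) a.c) (b.w i), a.c + b.c⟩⟩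
instance : One KK := ⟨⟨0, 0⟩⟩
instance : Inv KK := ⟨fun a => ⟨fun i => act (-dot (wt i) a.c) (a.w i), -a.c⟩⟩

lemma mul_w (a b : KK) (i : Fin 9) :
    (a * b).w i = a.w i + act (dot (wt i) a.c) (b.w i) := rfl
lemma mul_c (a b : KK) : (a * b).c = a.c + b.c := rfl
lemma one_w (i : Fin 9) : (1 : KK).w i = 0 := rfl
lemma one_c : (1 : KK).c = 0 := rfl
lemma inv_w (a : KK) (i : Fin 9) : (a⁻¹).w i = act (-dot (wt i) a.c) (a.w i) := rfl
lemma inv_c (a : KK) : (a⁻¹).c = -a.c := rfl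

instance : Group KK := Group.ofLeftAxioms
  (fun a b c => ext' (fun i => by
    simp only [mul_w, mul_c, dot_add, act_add, act_add', add_assoc]) (add_assoc _ _ _))
  (fun a => ext' (fun i => by simp only [mul_w, one_w, one_c, dot_zero, act_zero, zero_add])
    (zero_add _))
  (fun a => ext' (fun i => by simp only [mul_w, inv_w, inv_c, dot_neg, s8_add_self, one_w])
    (neg_add_cancel _))

instance : Finite KK :=
  Finite.of_injective (fun k : KK => (k.w, k.c)) (fun _ _ h =>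
    ext' (congrFun (congrArg Prod.fst h)) (congrArg Prod.snd h))

lemma pow_c (a : KK) (n : ℕ) : (a ^ n).c = n • a.c := by
  induction n with
  | zero => rw [pow_zero, zero_smul, one_c]
  | succ n ih => rw [pow_succ, mul_c, ih, succ_nsmul]

lemma conj_w (k v : KK) (hv : v.c = 0) (i : Fin 9) :
    (k * v * k⁻¹).w i = act (dot (wt i) k.c) (v.w i) := by
  simp only [mul_w, mul_c, inv_w, hv, add_zero, ← act_add, add_neg_cancel, act_zero]
  rw [add_right_comm, s8_add_self, zero_add]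

lemma conj_c (k v : KK) : (k * v * k⁻¹).c = v.c := by
  simp only [mul_c, inv_c]; abel

lemma mul_w_of (a b : KK) (ha : a.c = 0) (i : Fin 9) : (a * b).w i = a.w i + b.w i := by
  rw [mul_w, ha, dot_zero, act_zero]

lemma inv_eq_of (a : KK) (ha : a.c = 0) : a⁻¹ = a :=
  ext' (fun i => by rw [inv_w, ha, dot_zero, neg_zero, act_zero]) (by rw [inv_c, ha, neg_zero])

end KK

open KK

/-- The subgroups of W given by a support condition. -/
def Wsub (T : Finset (Fin 9)) : Subgroup KK where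
  carrier := {k | k.c = 0 ∧ ∀ i ∉ T, k.w i = 0}
  mul_mem' := fun {a b} ha hb => ⟨by rw [mul_c, ha.1, hb.1, add_zero], fun i hi => by
    rw [mul_w_of _ _ ha.1, ha.2 i hi, hb.2 i hi, add_zero]⟩
  one_mem' := ⟨rfl, fun _ _ => rfl⟩
  inv_mem' := fun {a} ha => by rwa [inv_eq_of a ha.1]

instance (T : Finset (Fin 9)) : (Wsub T).Normal :=
  ⟨fun v hv k => ⟨by rw [conj_c, hv.1], fun i hi => by
    rw [conj_w _ _ hv.1, hv.2 i hi, act_zero']⟩⟩

lemma card_Wsub (T : Finset (Fin 9)) : Nat.card (Wsub T) = 8 ^ T.card := by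
  let e : Wsub T ≃ (T → S8) :=
    { toFun := fun k i => k.1.w i
      invFun := fun f => ⟨⟨fun i => if h : i ∈ T then f ⟨i, h⟩ else 0, 0⟩, rfl,
        fun i hi => dif_neg hi⟩
      left_inv := fun k => Subtype.ext (ext' (fun i => by
        by_cases h : i ∈ T
        · exact dif_pos h
        · exact (dif_neg h).trans (k.2.2 i h).symm) k.2.1.symm)
      right_inv := fun f => funext (fun i => dif_pos i.2) }
  rw [Nat.card_congr e]
  simp

/-- The normal Sylow 2-subgroup. -/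
def WW : Subgroup KK := Wsub Finset.univ

instance : WW.Normal := by unfold WW; infer_instance

lemma mem_WW {k : KK} : k ∈ WW ↔ k.c = 0 :=
  ⟨fun h => h.1, fun h => ⟨h, fun i hi => absurd (Finset.mem_univ i) hi⟩⟩

/-- The elements of the minimal normal subgroups. -/
def sg (i : Fin 9) (s : S8) : KK := ⟨Pi.single i s, 0⟩

lemma sg_c (i : Fin 9) (s : S8) : (sg i s).c = 0 := rfl

lemma sg_w_same (i : Fin 9) (s : S8) : (sg i s).w i = s := Pi.single_eq_same _ _

lemma sg_w_ne {i j : Fin 9} (h : j ≠ i) (s : S8) : (sg i s).w j = 0 := Pi.single_eq_of_ne h _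

lemma sg_mem (i : Fin 9) (s : S8) : sg i s ∈ Wsub {i} :=
  ⟨rfl, fun _ hj => sg_w_ne (by simpa using hj) s⟩

lemma eq_sg {i : Fin 9} {k : KK} (h : k ∈ Wsub {i}) : k = sg i (k.w i) :=
  ext' (fun j => by
    by_cases e : j = i
    · rw [e, sg_w_same]
    · rw [sg_w_ne e, h.2 j (by simpa using e)]) h.1

lemma sg_zero (i : Fin 9) : sg i 0 = 1 :=
  ext' (fun j => by simp [sg, one_w]) rfl

lemma sg_inj {i : Fin 9} {s t : S8} (h : sg i s = sg i t) : s = t := by
  rw [← sg_w_same i s, h, sg_w_same]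

lemma sg_mul (i : Fin 9) (s t : S8) : sg i s * sg i t = sg i (s + t) := by
  rw [eq_sg (mul_mem (sg_mem i s) (sg_mem i t)), mul_w_of _ _ rfl, sg_w_same, sg_w_same]

lemma conj_sg (k : KK) (i : Fin 9) (s : S8) :
    k * sg i s * k⁻¹ = sg i (act (dot (wt i) k.c) s) := by
  rw [eq_sg ((inferInstance : (Wsub {i}).Normal).conj_mem _ (sg_mem i s) k), conj_w _ _ rfl,
    sg_w_same]

lemma Wsub_le {N : Subgroup KK} (T : Finset (Fin 9)) (h : ∀ i ∈ T, ∀ s, sg i s ∈ N) :
    Wsub T ≤ N := by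
  induction T using Finset.induction_on with
  | empty =>
    intro k hk
    rw [ext' (a := k) (b := 1) (fun i => hk.2 i (by simp)) hk.1]
    exact one_mem _
  | insert i T hi ih =>
    intro k hk
    have h1 := h i (Finset.mem_insert_self i T) (k.w i)
    have h2 : sg i (k.w i) * k ∈ Wsub T := ⟨by rw [mul_c, sg_c, hk.1, add_zero], fun j hj => by
      rw [mul_w_of _ _ rfl]
      by_cases e : j = i
      · rw [e, sg_w_same, s8_add_self]
      · rw [sg_w_ne e, hk.2 j (by simp [e, hj]), add_zero]⟩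
    have h3 := mul_mem (inv_mem h1) (ih (fun j hj => h j (Finset.mem_insert_of_mem hj)) h2)
    simpa using h3

lemma comm_sg_mem {N : Subgroup KK} (hN : N.Normal) {n : KK} (hn : n ∈ N) (i : Fin 9) (s : S8) :
    sg i (s + act (dot (wt i) n.c) s) ∈ N := by
  have h1 := mul_mem (hN.conj_mem n hn (sg i s)) (inv_mem hn)
  rw [← sg_mul, ← conj_sg]
  rw [inv_eq_of _ (sg_c i s)] at h1
  simpa [mul_assoc] using h1

lemma Wsub_le_of_sg {N : Subgroup KK} (hN : N.Normal) {i : Fin 9} {s : S8} (hs : s ≠ 0)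
    (h : sg i s ∈ N) : Wsub {i} ≤ N := by
  refine Wsub_le _ (fun j hj t => ?_)
  rw [Finset.mem_singleton.1 hj]
  by_cases e : t = 0
  · rw [e, sg_zero]; exact one_mem _
  · obtain ⟨a, rfl⟩ := act_trans s t hs e
    obtain ⟨b, rfl⟩ := wt_surj i a
    have := hN.conj_mem _ h ⟨0, (b, 0, 0)⟩
    rwa [conj_sg] at this

lemma add_act_ne {a : Z7} (ha : a ≠ 0) {s : S8} (hs : s ≠ 0) : s + act a s ≠ 0 := by
  intro h
  have : act a s = s := by
    rw [← zero_add (act a s), ← s8_add_self s, add_assoc, h, add_zero]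
  rcases act_fix a s this with e | e
  · exact ha e
  · exact hs e

lemma exists_wt_ne {c : V3} (hc : c ≠ 0) : ∃ i, dot (wt i) c ≠ 0 := by
  have := wt_five c hc
  obtain ⟨i, hi⟩ := Finset.card_pos.1 (lt_of_lt_of_le (by norm_num) this)
  exact ⟨i, (Finset.mem_filter.1 hi).2⟩

lemma exists_Wsub_le_aux {N : Subgroup KK} (hN : N.Normal) (T : Finset (Fin 9)) :
    ∀ n ∈ N, n ∈ Wsub T → n ≠ 1 → ∃ i, Wsub {i} ≤ N := by
  induction T using Finset.strongInduction with
  | H T ih =>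
    intro n hn hT hne
    have : ∃ i, n.w i ≠ 0 := by
      by_contra h
      push Not at h
      exact hne (ext' h hT.1)
    obtain ⟨i, hi⟩ := this
    by_cases h : ∀ j, j ≠ i → n.w j = 0
    · refine ⟨i, Wsub_le_of_sg hN hi ?_⟩
      rwa [← eq_sg ⟨hT.1, fun j hj => h j (by simpa using hj)⟩]
    · push Not at h
      obtain ⟨j, hji, hj⟩ := h
      have hjT : j ∈ T := by
        by_contra e
        exact hj (hT.2 j e)
      obtain ⟨c, h1, h2⟩ : ∃ c, dot (wt j) c = 0 ∧ dot (wt i) c ≠ 0 := by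
        rcases wt_sep i j hji.symm with e | e
        · exact ⟨_, wt_ka j, e⟩
        · exact ⟨_, wt_kb j, e⟩
      let k : KK := ⟨0, c⟩
      have hw : ∀ l, (n * (k * n * k⁻¹)).w l = n.w l + act (dot (wt l) c) (n.w l) := fun l => by
        rw [mul_w_of _ _ hT.1, conj_w _ _ hT.1]
      refine ih (T.erase j) (Finset.erase_ssubset hjT) (n * (k * n * k⁻¹))
        (mul_mem hn (hN.conj_mem n hn k)) ⟨by rw [mul_c, conj_c, hT.1, add_zero], fun l hl => ?_⟩ ?_
      · rw [hw]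
        by_cases e : l = j
        · rw [e, h1, act_zero, s8_add_self]
        · rw [hT.2 l (by simpa [e] using hl), act_zero', add_zero]
      · intro e
        have := hw i
        rw [e, one_w] at this
        exact add_act_ne h2 hi this.symm

lemma exists_Wsub_le {N : Subgroup KK} (hN : N.Normal) (hne : N ≠ ⊥) : ∃ i, Wsub {i} ≤ N := by
  obtain ⟨⟨n, hn⟩, h1⟩ := ne_bot_iff_exists_ne_one.1 hne
  have h2 : n ≠ 1 := fun e => h1 (Subtype.ext e)
  by_cases hc : n.c = 0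
  · exact exists_Wsub_le_aux hN Finset.univ n hn (mem_WW.2 hc) h2
  · obtain ⟨i, hi⟩ := exists_wt_ne hc
    exact ⟨i, Wsub_le_of_sg hN (add_act_ne hi (s := (1, 0, 0)) (by decide))
      (comm_sg_mem hN hn i _)⟩

lemma eq_Wsub_of_card {V : Subgroup KK} (hV : V.Normal) (hc : Nat.card V = 8) :
    ∃ i, V = Wsub {i} := by
  obtain ⟨i, hi⟩ := exists_Wsub_le hV (by
    rintro rfl
    simp at hc)
  exact ⟨i, (eq_of_le_of_card_ge hi (by rw [hc, card_Wsub]; simp)).symm⟩

lemma center_KK (a : KK) (h : ∀ x, x * a = a * x) : a = 1 := by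
  have hc : a.c = 0 := by
    by_contra hc
    obtain ⟨i, hi⟩ := exists_wt_ne hc
    have h1 := conj_sg a i (1, 0, 0)
    rw [← h, mul_inv_cancel_right] at h1
    rcases act_fix _ _ (sg_inj h1).symm with e | e
    · exact hi e
    · exact absurd e (by decide)
  refine ext' (fun i => ?_) hc
  obtain ⟨b, hb⟩ := wt_surj i 1
  have h1 := conj_w ⟨0, (b, 0, 0)⟩ a hc i
  rw [h, mul_inv_cancel_right, hb] at h1
  rcases act_fix _ _ h1.symm with e | e
  · exact absurd e (by decide)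
  · exact e

lemma sup_WW (N : Subgroup KK) (hN : N.Normal) (h : N ⊔ WW = ⊤) : N = ⊤ := by
  have h1 : WW ≤ N := by
    refine Wsub_le _ (fun i _ t => ?_)
    obtain ⟨b, hb⟩ := wt_surj i 1
    have h2 : (⟨0, (b, 0, 0)⟩ : KK) ∈ ((N ⊔ WW : Subgroup KK) : Set KK) := by rw [h]; trivial
    rw [Subgroup.mul_normal] at h2
    obtain ⟨n, hn, w, hw, e⟩ := h2
    have h3 : n.c = (b, 0, 0) := by
      have := congrArg KK.c e
      rwa [mul_c, mem_WW.1 hw, add_zero] at this
    obtain ⟨s, rfl⟩ := act_surj 1 (by decide) t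
    have := comm_sg_mem hN hn i s
    rwa [h3, hb] at this
  rwa [sup_eq_left.2 h1] at h

lemma big_KK (a : KK) (ha : a ∉ WW) : ∃ V : Subgroup KK, V ≤ WW ∧ Nat.card WW < Nat.card V ^ 2 ∧
    ∀ v ∈ V, ∃ w : KK, v = w⁻¹ * (a * w * a⁻¹) := by
  have hc : a.c ≠ 0 := fun e => ha (mem_WW.2 e)
  refine ⟨Wsub (Finset.univ.filter (fun i => dot (wt i) a.c ≠ 0)), fun k hk => mem_WW.2 hk.1,
    ?_, fun v hv => ?_⟩
  · rw [WW, card_Wsub, card_Wsub, ← pow_mul]
    refine Nat.pow_lt_pow_right (by norm_num) ?_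
    have := wt_five _ hc
    simp only [Finset.card_univ, Fintype.card_fin]
    omega
  · have key : ∀ i, ∃ s, s + act (dot (wt i) a.c) s = v.w i := fun i => by
      by_cases e : dot (wt i) a.c = 0
      · exact ⟨0, by rw [act_zero', add_zero, hv.2 i (by simp [e])]⟩
      · exact act_surj _ e _
    choose f hf using key
    refine ⟨⟨f, 0⟩, ext' (fun i => ?_) ?_⟩
    · rw [inv_eq_of _ rfl, mul_w_of _ _ rfl, conj_w _ _ rfl, hf]
    · rw [inv_eq_of _ rfl, mul_c, conj_c, hv.1, add_zero]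

lemma sq_eq_one {w : KK} (h : w ∈ WW) : w ^ 2 = 1 := by
  rw [pow_two]
  nth_rewrite 1 [← inv_eq_of w (mem_WW.1 h)]
  exact inv_mul_cancel w

lemma mem_WW_of_sq {w : KK} (h : w ^ 2 = 1) : w ∈ WW := by
  have h1 := congrArg KK.c h
  rw [pow_c, one_c] at h1
  have : ∀ c : V3, 2 • c = 0 → c = 0 := by decide +kernel
  exact mem_WW.2 (this _ h1)

lemma pow7_mem (k : KK) : k ^ 7 ∈ WW := by
  have : ∀ c : V3, 7 • c = 0 := by decide +kernel
  rw [mem_WW, pow_c, this]

end Pool.Agent.MP_060950_al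

end

-- part MP_060950_al.AutK
section

/-!
The automorphisms of the concrete group K.
-/

namespace Pool.Agent.MP_060950_al

open Subgroup KK

lemma aut_mem_WW (α : MulAut KK) {w : KK} (h : w ∈ WW) : α w ∈ WW :=
  mem_WW_of_sq (by rw [← map_pow, sq_eq_one h, map_one])

lemma aut_c_congr (α : MulAut KK) {a b : KK} (h : a.c = b.c) : (α a).c = (α b).c := by
  have h1 : a * b⁻¹ ∈ WW := mem_WW.2 (by rw [mul_c, inv_c, h, add_neg_cancel])
  have h2 := mem_WW.1 (aut_mem_WW α h1)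
  rwa [map_mul, map_inv, mul_c, inv_c, add_neg_eq_zero] at h2

/-- The matrix with given columns. -/
def ofCols (a b c : V3) : M3 := ((a.1, b.1, c.1), (a.2.1, b.2.1, c.2.1), (a.2.2, b.2.2, c.2.2))

lemma nsmul_eq (n : Z7) (v : V3) : n.val • v = sm n v := by
  have h : ∀ a : Z7, n.val • a = n * a := fun a => by
    rw [nsmul_eq_mul, ZMod.natCast_zmod_val]
  exact Prod.ext (h _) (Prod.ext (h _) (h _))

lemma app_ofCols (a b c v : V3) :
    app (ofCols a b c) v = v.1.val • a + v.2.1.val • b + v.2.2.val • c := by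
  simp only [nsmul_eq, app, ofCols, dot, sm, Prod.mk_add_mk, Prod.mk.injEq]
  refine ⟨?_, ?_, ?_⟩ <;> ring

/-- The matrix of an automorphism. -/
def matF (α : MulAut KK) : M3 :=
  ofCols (α ⟨0, (1, 0, 0)⟩).c (α ⟨0, (0, 1, 0)⟩).c (α ⟨0, (0, 0, 1)⟩).c

lemma app_matF (α : MulAut KK) (k : KK) : app (matF α) k.c = (α k).c := by
  have h : k.c = ((⟨0, (1, 0, 0)⟩ : KK) ^ k.c.1.val * (⟨0, (0, 1, 0)⟩ : KK) ^ k.c.2.1.val *
      (⟨0, (0, 0, 1)⟩ : KK) ^ k.c.2.2.val).c := by
    simp only [mul_c, pow_c, nsmul_eq, sm]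
    simp
  rw [aut_c_congr α h, matF, app_ofCols]
  simp only [map_mul, map_pow, mul_c, pow_c]

lemma matF_eq {α : MulAut KK} {A : M3} (h : ∀ k, (α k).c = app A k.c) : matF α = A :=
  app_ext (fun v => (app_matF α ⟨0, v⟩).trans (h ⟨0, v⟩))

/-- The representation on the quotient by W. -/
def mat : MulAut KK →* M3 where
  toFun := matF
  map_one' := matF_eq (fun k => (app_one _).symm)
  map_mul' α β := matF_eq (fun k => by rw [app_mul, app_matF, app_matF]; rfl)

lemma app_mat (α : MulAut KK) (k : KK) : app (mat α) k.c = (α k).c := app_matF α k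

lemma triv_iff {α : MulAut KK} : Triv WW α ↔ mat α = 1 := by
  constructor
  · intro h
    refine matF_eq (fun k => ?_)
    have := mem_WW.1 (h k)
    rw [mul_c, inv_c, neg_add_eq_zero] at this
    rw [app_one, this]
  · intro h k
    rw [mem_WW, mul_c, inv_c, ← app_mat, h, app_one, neg_add_cancel]

lemma det_mat_ne (α : MulAut KK) : det (mat α) ≠ 0 := by
  have h : det (mat α) * det (mat α⁻¹) = 1 := by
    rw [← det_mul, ← map_mul, mul_inv_cancel, map_one, det_one]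
  exact left_ne_zero_of_mul_eq_one h

lemma ker_rel {α : MulAut KK} {i j : Fin 9} (h : ∀ s, α (sg i s) ∈ Wsub {j}) {c : V3}
    (hc : dot (wt i) c = 0) : dot (wt j) (app (mat α) c) = 0 := by
  have h1 := conj_sg ⟨0, c⟩ i (1, 0, 0)
  rw [hc, act_zero] at h1
  have h2 := congrArg α h1
  rw [map_mul, map_mul, map_inv, eq_sg (h (1, 0, 0)), conj_sg, ← app_mat] at h2
  rcases act_fix _ _ (sg_inj h2) with e | e
  · exact e
  · exfalso
    have h3 := eq_sg (h (1, 0, 0))
    rw [e, sg_zero, ← map_one α] at h3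
    have h4 := α.injective h3
    rw [← sg_zero i] at h4
    exact absurd (sg_inj h4) (by decide)

lemma exists_map_Wsub (α : MulAut KK) (i : Fin 9) :
    ∃ j, (Wsub {i}).map α.toMonoidHom = Wsub {j} :=
  eq_Wsub_of_card (Normal.map inferInstance _ α.surjective) (by
    rw [card_map_of_injective α.injective, card_Wsub]; simp)

lemma exists_sg_to (α : MulAut KK) (i : Fin 9) : ∃ j, ∀ s, α (sg i s) ∈ Wsub {j} := by
  obtain ⟨j, hj⟩ := exists_map_Wsub α i
  exact ⟨j, fun s => hj ▸ mem_map_of_mem α.toMonoidHom (sg_mem i s)⟩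

lemma exists_sg_from (α : MulAut KK) (j : Fin 9) : ∃ i, ∀ s, α (sg i s) ∈ Wsub {j} := by
  obtain ⟨i, hi⟩ := exists_map_Wsub α⁻¹ j
  refine ⟨i, fun s => ?_⟩
  have := sg_mem i s
  rw [← hi] at this
  obtain ⟨x, hx, e⟩ := this
  rw [← e]
  simpa using hx

lemma mat_mem (α : MulAut KK) : mat α ∈ Gam := by
  refine mem_gam (det_mat_ne α) (fun j => ?_)
  obtain ⟨i, hi⟩ := exists_sg_from α j
  rcases inL_of_ker (vm (wt j) (mat α)) i (by rw [← dot_app]; exact ker_rel hi (wt_ka i))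
    (by rw [← dot_app]; exact ker_rel hi (wt_kb i)) with e | e
  · exfalso
    obtain ⟨b, hb⟩ := wt_surj j 1
    have h1 : app (mat α) (app (mat α⁻¹) (b, 0, 0)) = (b, 0, 0) := by
      rw [← app_mul, ← map_mul, mul_inv_cancel, map_one, app_one]
    rw [← h1, dot_app, e] at hb
    simp [dot] at hb
  · exact e

lemma mat_pow_nine {α : MulAut KK} (h : El 3 α) : mat α ^ 9 = 1 := by
  obtain ⟨k, hk⟩ := h
  have h1 : orderOf (mat α) ∣ 3 ^ k :=
    orderOf_dvd_of_pow_eq_one (by rw [← map_pow, hk, map_one])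
  have h2 : orderOf (mat α) ∣ 2 * 9 := orderOf_dvd_of_pow_eq_one (gam_pow _ (mat_mem α))
  exact orderOf_dvd_iff_pow_eq_one.1 (Nat.Coprime.dvd_of_dvd_mul_left
    (Nat.Coprime.coprime_dvd_left h1 (Nat.Coprime.pow_left k (by norm_num))) h2)

lemma three_pow_ne (k : ℕ) : ((3 ^ k : ℕ) : Z7) ≠ 0 := by
  rw [Nat.cast_pow]
  exact pow_ne_zero _ (by decide)

lemma eq_one_of_three {α : MulAut KK} (h : El 3 α) (hm : mat α = 1) : α = 1 := by
  obtain ⟨k, hk⟩ := h
  have hc : ∀ x, (α x).c = x.c := fun x => by rw [← app_mat, hm, app_one]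
  have h1 : ∀ i s, α (sg i s) ∈ Wsub {i} := fun i => by
    obtain ⟨j, hj⟩ := exists_sg_to α i
    have e : j = i := by
      by_contra e
      have a1 := ker_rel hj (wt_ka i)
      have a2 := ker_rel hj (wt_kb i)
      rw [hm, app_one] at a1 a2
      rcases wt_sep j i e with b | b
      · exact b a1
      · exact b a2
    rwa [e] at hj
  have h2 : ∀ i s, α (sg i s) = sg i s := fun i s => by
    by_cases hs : s = 0
    · rw [hs, sg_zero, map_one]
    have ht : (α (sg i s)).w i ≠ 0 := fun e => by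
      have h3 := eq_sg (h1 i s)
      rw [e, sg_zero, ← map_one α] at h3
      have h4 := α.injective h3
      rw [← sg_zero i] at h4
      exact hs (sg_inj h4)
    obtain ⟨a, ha⟩ := act_trans s _ hs ht
    have h5 : ∀ b, α (sg i (act b s)) = sg i (act (a + b) s) := fun b => by
      obtain ⟨b', rfl⟩ := wt_surj i b
      have := conj_sg ⟨0, (b', 0, 0)⟩ i s
      rw [← this, map_mul, map_mul, map_inv, eq_sg (h1 i s), conj_sg, hc, ← ha, ← act_add,
        add_comm]
    have h6 : ∀ n : ℕ, (α ^ n) (sg i s) = sg i (act (n * a) s) := fun n => by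
      induction n with
      | zero => simp [act_zero]
      | succ n ih =>
        rw [pow_succ', MulAut.mul_apply, ih, h5]
        congr 2
        push_cast
        ring
    have h7 := h6 (3 ^ k)
    rw [hk, MulAut.one_apply] at h7
    rcases act_fix _ _ (sg_inj h7).symm with e | e
    · have h8 := h6 1
      rw [(mul_eq_zero.1 e).resolve_left (three_pow_ne k), mul_zero, act_zero, pow_one] at h8
      exact h8
    · exact absurd e hs
  have h3 : WW ≤ α.toMonoidHom.eqLocus (MonoidHom.id KK) := Wsub_le _ (fun i _ s => h2 i s)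
  ext x
  have hw : x⁻¹ * α x ∈ WW := triv_iff.2 hm x
  have h4 : α (x⁻¹ * α x) = x⁻¹ * α x := h3 hw
  have h5 : ∀ n : ℕ, (α ^ n) x = x * (x⁻¹ * α x) ^ n := fun n => by
    induction n with
    | zero => simp
    | succ n ih =>
      rw [pow_succ', MulAut.mul_apply, ih, map_mul, map_pow, h4, pow_succ', ← mul_assoc]
      simp
  have h6 := h5 (3 ^ k)
  rw [hk, MulAut.one_apply, left_eq_mul] at h6
  have h7 := El.eq_one (a := 3) (b := 2) (by norm_num) ⟨k, h6⟩ ⟨1, sq_eq_one hw⟩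
  exact (inv_mul_eq_one.1 h7).symm

lemma fpf_of_nofix {α : MulAut KK} (h : NoFix (mat α)) : Fpf α := by
  intro N hN hu
  refine sup_WW N hN (eq_top_iff.2 (fun k _ => ?_))
  have hinj : Function.Injective (fun c : V3 => -c + app (mat α) c) := by
    intro a b hab
    have h1 : -a + app (mat α) a = -b + app (mat α) b := hab
    have h2 : app (mat α) a = app (mat α) (a - b) + app (mat α) b := by
      rw [← app_add, sub_add_cancel]
    have h3 : app (mat α) (a - b) = a - b := by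
      rw [h2] at h1
      linear_combination h1
    exact sub_eq_zero.1 (h _ h3)
  obtain ⟨c, hc⟩ := Finite.injective_iff_surjective.1 hinj k.c
  have h1 := hu ⟨0, c⟩
  have h2 : ((⟨0, c⟩ : KK)⁻¹ * α ⟨0, c⟩)⁻¹ * k ∈ WW := by
    rw [mem_WW, mul_c, inv_c, mul_c, inv_c, ← app_mat, ← hc, neg_add_cancel]
  have := mul_mem_sup h1 h2
  rwa [mul_inv_cancel_left] at this

/-- The preimage of a cyclic group of matrices. -/
def cyc (A : M3) (h : A ^ 9 = 1) : Subgroup (MulAut KK) where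
  carrier := {α | ∃ j : ℕ, mat α = A ^ j}
  mul_mem' := fun ⟨i, hi⟩ ⟨j, hj⟩ => ⟨i + j, by rw [map_mul, hi, hj, pow_add]⟩
  one_mem' := ⟨0, by rw [map_one, pow_zero]⟩
  inv_mem' := fun {α} ⟨j, hj⟩ => ⟨j * 8, by
    have h1 : mat α ^ 9 = 1 := by rw [hj, ← pow_mul, mul_comm, pow_mul, h, one_pow]
    rw [pow_mul, ← hj, ← mul_one (mat α⁻¹), ← h1, pow_succ', ← mul_assoc, ← map_mul,
      inv_mul_cancel, map_one, one_mul]⟩

lemma mem_cyc {A : M3} {h : A ^ 9 = 1} {α : MulAut KK} (hα : α ∈ cyc A h) :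
    ∃ j : Fin 9, mat α = A ^ j.val := by
  obtain ⟨j, hj⟩ := hα
  exact ⟨⟨j % 9, Nat.mod_lt _ (by norm_num)⟩, by rw [hj, pow_eq_pow_mod j h]⟩

lemma cyc_normal {A : M3} {h : A ^ 9 = 1} (hA : ∀ G ∈ Gam, ∃ m : ℕ, G * A = A ^ m * G) :
    (cyc A h).Normal := by
  constructor
  rintro α ⟨j, hj⟩ β
  obtain ⟨m, hm⟩ := hA _ (mat_mem β)
  refine ⟨m * j, ?_⟩
  have h1 : mat β * A ^ j = (A ^ m) ^ j * mat β := SemiconjBy.pow_right hm j
  rw [map_mul, map_mul, hj, h1, mul_assoc, ← map_mul, mul_inv_cancel, map_one, mul_one, pow_mul]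

/-- The preimage of the scalars. -/
def BB0 : Subgroup (MulAut KK) := cyc mZ mZ_nine

lemma bb0_normal : BB0.Normal := cyc_normal (fun G hG => ⟨1, by rw [pow_one, gam_Z G hG]⟩)

theorem hypK : Hyp KK WW BB0 where
  fin := inferInstance
  W_normal := inferInstance
  W_two _ h := sq_eq_one h
  pow7 := pow7_mem
  comm_mem a b := by
    rw [mem_WW]
    simp only [mul_c, inv_c]
    abel
  center := center_KK
  W_ne h := by
    have : (⟨0, (1, 0, 0)⟩ : KK) ∈ WW := by rw [h]; trivial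
    exact absurd (mem_WW.1 this) (by decide)
  sup_W := sup_WW
  big := big_KK
  min N hN hne := by
    obtain ⟨i, hi⟩ := exists_Wsub_le hN hne
    exact ⟨_, hi, inferInstance, by rw [card_Wsub]; simp⟩
  triv_mem α h := ⟨0, by rw [triv_iff.1 h, pow_zero]⟩
  B₀_min α hα V hV hc v hv := by
    obtain ⟨i, rfl⟩ := eq_Wsub_of_card hV hc
    obtain ⟨j, hj⟩ := exists_sg_to α i
    obtain ⟨t, ht⟩ := mem_cyc hα
    have e := scal_stab t i j (ht ▸ ker_rel hj (wt_ka i)) (ht ▸ ker_rel hj (wt_kb i))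
    rw [eq_sg hv, ← e]
    rw [← e] at hj
    exact hj _
  seven α h := by
    rw [triv_iff] at h ⊢
    rw [map_pow] at h
    exact (pow_eq_one_iff_of_coprime (by norm_num : Nat.Coprime 7 18)).1 ⟨h, gam_pow _ (mat_mem α)⟩
  three_min α h3 V hV hc h := by
    obtain ⟨i, rfl⟩ := eq_Wsub_of_card hV hc
    have hj : ∀ s, α (sg i s) ∈ Wsub {i} := fun s => h _ (sg_mem i s)
    obtain ⟨t, ht⟩ := gam_stab _ (mat_mem α) i (ker_rel hj (wt_ka i)) (ker_rel hj (wt_kb i))
      (mat_pow_nine h3)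
    exact ⟨_, ht⟩
  three_triv α h3 h := eq_one_of_three h3 (triv_iff.1 h)
  B₀_fpf α hα := by
    obtain ⟨t, ht⟩ := mem_cyc hα
    rcases mZ_fix t with e | e
    · exact Or.inl (triv_iff.2 (ht.trans e))
    · exact Or.inr (fpf_of_nofix (ht ▸ e))

lemma adm_cyc {A : M3} {h : A ^ 9 = 1} (hA : ∀ G ∈ Gam, ∃ m : Fin 9, G * A = A ^ m.val * G)
    (h3 : A ^ 3 = mZ) (hfix : ∀ j : Fin 9, A ^ j.val = 1 ∨ NoFix (A ^ j.val))
    (hpow : ∀ j : Fin 9, A ^ j.val = 1 ∨ ∃ n : Fin 4, ∃ t : Fin 3,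
      (A ^ j.val) ^ n.val = mZ ^ t.val ∧ (A ^ j.val) ^ n.val ≠ 1) : Adm BB0 (cyc A h) where
  normal := cyc_normal (fun G hG => by
    obtain ⟨m, hm⟩ := hA G hG
    exact ⟨_, hm⟩)
  le := fun α ⟨j, hj⟩ => ⟨3 * j, by rw [hj, pow_mul, h3]⟩
  fpf α hα e3 := by
    obtain ⟨t, ht⟩ := mem_cyc hα
    rcases hfix t with e | e
    · exact Or.inl (eq_one_of_three e3 (ht.trans e))
    · exact Or.inr (fpf_of_nofix (ht ▸ e))
  pow α hα e3 hne := by
    obtain ⟨t, ht⟩ := mem_cyc hα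
    rcases hpow t with e | ⟨n, s, e1, e2⟩
    · exact absurd (eq_one_of_three e3 (ht.trans e)) hne
    · refine ⟨n, ⟨s, by rw [map_pow, ht, e1]⟩, fun e => e2 ?_⟩
      rw [← ht, ← map_pow, e, map_one]

/-- Automorphisms of monomial shape. -/
def Rep (α : MulAut KK) (π : Fin 9 → Fin 9) (e : Fin 9 → ZMod 3) : Prop :=
  (∀ k i, (α k).w i = frob (e i) (k.w (π i))) ∧
    ∀ i, vm (wt i) (mat α) = sm (tw (e i)) (wt (π i))

/-- The standard automorphisms. -/
def Std (α : MulAut KK) : Prop := ∃ π e, Rep α π e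

lemma Std.one : Std 1 := ⟨id, fun _ => 0, fun k i => (frob_zero _).symm, fun i => by
  rw [map_one]
  revert i
  decide +kernel⟩

lemma Std.mul {α β : MulAut KK} (h₁ : Std α) (h₂ : Std β) : Std (α * β) := by
  obtain ⟨π, e, a1, a2⟩ := h₁
  obtain ⟨σ, f, b1, b2⟩ := h₂
  refine ⟨fun i => σ (π i), fun i => e i + f (π i), fun k i => ?_, fun i => ?_⟩
  · rw [MulAut.mul_apply, a1, b1, frob_add]
  · rw [map_mul, vm_mul, a2, vm_sm, b2, sm_sm, tw_add]

lemma Std.pow {α : MulAut KK} (h : Std α) (n : ℕ) : Std (α ^ n) := by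
  induction n with
  | zero => rw [pow_zero]; exact Std.one
  | succ n ih => rw [pow_succ]; exact ih.mul h

lemma Std.eq {α β : MulAut KK} (h₁ : Std α) (h₂ : Std β) (h : mat α = mat β) : α = β := by
  obtain ⟨π, e, a1, a2⟩ := h₁
  obtain ⟨σ, f, b1, b2⟩ := h₂
  refine MulEquiv.ext (fun k => ext' (fun i => ?_) (by rw [← app_mat, ← app_mat, h]))
  obtain ⟨e1, e2⟩ := wt_uniq (π i) (σ i) (e i) (f i) (by rw [← a2 i, ← b2 i, h])
  rw [a1, b1, e1, e2]

/-- The lift of a matrix to an endomorphism. -/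
def liftHom (A : M3) (π : Fin 9 → Fin 9) (e : Fin 9 → ZMod 3)
    (h : ∀ i, vm (wt i) A = sm (tw (e i)) (wt (π i))) : KK →* KK :=
  MonoidHom.mk' (fun k => ⟨fun i => frob (e i) (k.w (π i)), app A k.c⟩) (fun a b =>
    ext' (fun i => by simp only [mul_w, frob_add', frob_act, dot_app, h, dot_sm])
      (app_add A a.c b.c))

lemma exists_std (A : M3) (π : Fin 9 → Fin 9) (e : Fin 9 → ZMod 3)
    (h : ∀ i, vm (wt i) A = sm (tw (e i)) (wt (π i))) (hπ : Function.Surjective π)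
    (hA : ∀ c, app A c = 0 → c = 0) : ∃ α, Std α ∧ mat α = A := by
  have hinj : Function.Injective (liftHom A π e h) := by
    rw [injective_iff_map_eq_one]
    intro k hk
    refine ext' (fun j => ?_) (hA _ (congrArg KK.c hk))
    obtain ⟨i, rfl⟩ := hπ j
    exact frob_eq_zero (e i) _ (congrFun (congrArg KK.w hk) i)
  let α : MulAut KK := MulEquiv.ofBijective _ (Finite.injective_iff_bijective.1 hinj)
  have hm : mat α = A := matF_eq (fun _ => rfl)
  exact ⟨α, ⟨π, e, fun _ _ => rfl, by rw [hm]; exact h⟩, hm⟩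

/-- The logarithm of the determinant. -/
def lamK : MulAut KK →* Multiplicative (ZMod 3) :=
  MonoidHom.mk' (fun α => Multiplicative.ofAdd (lg (det (mat α)))) (fun α β => by
    rw [map_mul, det_mul, lg_mul _ _ (det_mat_ne α) (det_mat_ne β), ofAdd_add])

lemma syl_cyc {A : M3} {h : A ^ 9 = 1} (hn : (cyc A h).Normal) {x y : MulAut KK} (hx : Std x)
    (hy : Std y) (mx : mat x = A) (my : mat y = mY) (h1 : NoFix A)
    (h2 : mY * A = A ^ 4 * mY) (h3 : lg (det A) = 1) : Syl (cyc A h) x := by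
  have hx9 : x ^ 9 = 1 := (hx.pow 9).eq Std.one (by rw [map_pow, mx, h, map_one])
  refine ⟨⟨1, by rw [mx, pow_one]⟩, hx9, fpf_of_nofix (mx ▸ h1), ⟨y, ?_⟩, ?_, lamK, ?_, ?_⟩
  · rw [mul_inv_eq_iff_eq_mul]
    exact (hy.mul hx).eq ((hx.pow 4).mul hy) (by rw [map_mul, map_mul, map_pow, mx, my, h2])
  · intro α hα ⟨k, hk⟩
    obtain ⟨P, hP⟩ := (isPGroup_zpowers (show x ^ 3 ^ 2 = 1 from hx9)).exists_le_sylow
    obtain ⟨Q, hQ⟩ := (isPGroup_zpowers hk).exists_le_sylow
    obtain ⟨g, rfl⟩ := MulAction.exists_smul_eq (MulAut KK) Q P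
    have a1 : g * α * g⁻¹ ∈ (g • Q : Sylow 3 (MulAut KK)) :=
      smul_mem_pointwise_smul α (MulAut.conj g) _ (hQ (mem_zpowers α))
    obtain ⟨j, hj⟩ := hn.conj_mem α hα g
    have a2 : (x ^ j)⁻¹ * (g * α * g⁻¹) ∈ (g • Q : Sylow 3 (MulAut KK)) :=
      mul_mem (inv_mem (hP (pow_mem (mem_zpowers x) j))) a1
    obtain ⟨m, hm⟩ := (g • Q).isPGroup' ⟨_, a2⟩
    have a3 := eq_one_of_three (α := (x ^ j)⁻¹ * (g * α * g⁻¹)) ⟨m, congrArg Subtype.val hm⟩ (by
      rw [map_mul, hj, ← mx, ← map_pow, ← map_mul, inv_mul_cancel, map_one])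
    refine ⟨g⁻¹, ?_⟩
    rw [inv_inv, ← inv_mul_eq_one.1 a3]
    exact pow_mem (mem_zpowers x) j
  · show Multiplicative.ofAdd (lg (det (mat x))) = _
    rw [mx, h3]
  · intro α hα
    show Multiplicative.ofAdd (lg (det (mat α))) = 1
    rcases gam_lg _ (mat_mem α) with e | e
    · rw [e]; rfl
    · exact absurd (fpf_of_nofix e) hα

/-- The logarithm of the scalar. -/
def nuK (α : MulAut KK) : A3 := Multiplicative.ofAdd (lg (mat α).1.1)

lemma chr_nuK : Chr BB0 nuK where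
  mul α hα β hβ := by
    obtain ⟨s, hs⟩ := mem_cyc hα
    obtain ⟨t, ht⟩ := mem_cyc hβ
    simp only [nuK]
    rw [map_mul, hs, ht, mZ_lg, ofAdd_add]
  conj α hα β := by
    obtain ⟨s, hs⟩ := hα
    have h1 : mat β * mZ ^ s = mZ ^ s * mat β := SemiconjBy.pow_right (gam_Z _ (mat_mem β)) s
    simp only [nuK]
    rw [mul_assoc, map_mul, map_mul, hs, ← h1, ← mul_assoc, ← map_mul, inv_mul_cancel, map_one,
      one_mul]

theorem counterexample :
    ∃ X Y : GroupClass, IsFitting X ∧ IsFitting Y ∧ upperStar X = X ∧ upperStar Y = Y ∧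
      LockettCondition X ∧ LockettCondition Y ∧ ¬ LockettCondition (interClass X Y) := by
  obtain ⟨x, hx, mx⟩ := exists_std mX piX eX wt_X piX_surj mX_inj
  obtain ⟨y, hy, my⟩ := exists_std mY piY eY wt_Y piY_surj mY_inj
  have h₁ : Adm BB0 (cyc mX mX_nine) := adm_cyc gam_X mX_three mX_fix mX_pow
  have h₂ : Adm BB0 (cyc (mX * mY) mXY_nine) := adm_cyc gam_XY mXY_three mXY_fix mXY_pow
  refine abstract_counterexample hypK bb0_normal chr_nuK h₁ h₂
    (syl_cyc h₁.normal hx hy mx my mX_nofix mYX lg_X)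
    (syl_cyc h₂.normal (hx.mul hy) hy (by rw [map_mul, mx, my]) my mXY_nofix mYXY lg_XY) ?_
    ⟨1, by rw [map_pow, mx, mX_three, pow_one]⟩ ?_
  · rintro α ⟨a1, a2⟩
    obtain ⟨i, hi⟩ := mem_cyc a1
    obtain ⟨j, hj⟩ := mem_cyc a2
    obtain ⟨t, ht⟩ := m_inf i j (hi.symm.trans hj)
    exact ⟨_, hi.trans ht⟩
  · simp only [nuK]
    rw [map_pow, mx, mX_three]
    exact lg_Z

end Pool.Agent.MP_060950_al

end
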