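import Pool.Agent.MP_060950_al.Defs

-- part MP_060950_al.Lockett
section

/-!
Basic theory of radicals and of the Lockett star operations.
-/

namespace Pool.Agent.MP_060950_al

open Subgroup

variable {F : GroupClass}

lemma soluble_prod {G H : Type} [Group G] [Group H] (hG : solubleClass G) (hH : solubleClass H) :
    solubleClass (G × H) := by
  obtain ⟨_, _⟩ := hG
  obtain ⟨_, _⟩ := hH
  exact ⟨inferInstance, inferInstance⟩

lemma soluble_subgroup {G : Type} [Group G] (hG : solubleClass G) (N : Subgroup G) :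
    solubleClass N := by
  obtain ⟨_, _⟩ := hG
  exact ⟨inferInstance, inferInstance⟩

lemma soluble_of_injective {G H : Type} [Group G] [Group H] (hG : solubleClass G) (f : H →* G)
    (hf : Function.Injective f) : solubleClass H := by
  obtain ⟨_, _⟩ := hG
  exact ⟨Finite.of_injective f hf, Group.isSolvable_of_isSolvable_injective hf⟩

lemma inl_range_normal (G H : Type) [Group G] [Group H] : (MonoidHom.inl G H).range.Normal := by
  constructor
  rintro _ ⟨x, rfl⟩ y
  exact ⟨y.1 * x * y.1⁻¹, by ext <;> simp⟩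

lemma inr_range_normal (G H : Type) [Group G] [Group H] : (MonoidHom.inr G H).range.Normal := by
  constructor
  rintro _ ⟨x, rfl⟩ y
  exact ⟨y.2 * x * y.2⁻¹, by ext <;> simp⟩

namespace IsFitting

lemma finite (hF : IsFitting F) {G : Type} [Group G] (hG : F G) : Finite G := (hF.soluble G hG).1

lemma of_subsingleton (hF : IsFitting F) (G : Type) [Group G] [Subsingleton G] : F G := by
  have : Unique G := uniqueOfSubsingleton 1
  exact hF.iso PUnit G MulEquiv.ofUnique hF.trivial

lemma of_normal_emb (hF : IsFitting F) {N G : Type} [Group N] [Group G] (φ : N →* G)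
    (hφ : Function.Injective φ) (hn : φ.range.Normal) (hG : F G) : F N :=
  hF.iso _ _ (MonoidHom.ofInjective hφ).symm (hF.normal G _ hn hG)

lemma of_top (hF : IsFitting F) {G : Type} [Group G] (h : F (⊤ : Subgroup G)) : F G :=
  hF.iso _ _ Subgroup.topEquiv h

lemma to_top (hF : IsFitting F) {G : Type} [Group G] (h : F G) : F (⊤ : Subgroup G) :=
  hF.iso _ _ Subgroup.topEquiv.symm h

lemma map (hF : IsFitting F) {G H : Type} [Group G] [Group H] (φ : G →* H)
    (hφ : Function.Injective φ) {N : Subgroup G} (hN : F N) : F (N.map φ) :=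
  hF.iso _ _ (N.equivMapOfInjective φ hφ) hN

lemma of_le (hF : IsFitting F) {G : Type} [Group G] {N K : Subgroup G} (hle : N ≤ K)
    (hn : (N.subgroupOf K).Normal) (hK : F K) : F N :=
  hF.iso _ _ (subgroupOfEquivOfLe hle) (hF.normal K _ hn hK)

lemma of_subnormal (hF : IsFitting F) {G : Type} [Group G] {N : Subgroup G}
    (hN : N.IsSubnormal) (hG : F G) : F N := by
  induction hN with
  | top => exact hF.to_top hG
  | step H K hle _ hn ih => exact hF.of_le hle hn ih

lemma of_sup (hF : IsFitting F) {G : Type} [Group G] [Finite G] {N₁ N₂ : Subgroup G}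
    (h₁ : N₁.Normal) (h₂ : N₂.Normal) (h : N₁ ⊔ N₂ = ⊤) (k₁ : F N₁) (k₂ : F N₂) : F G := by
  have := hF.prod G N₁ N₂ h₁ h₂ k₁ k₂
  rw [h] at this
  exact hF.of_top this

lemma prod_mem (hF : IsFitting F) {G H : Type} [Group G] [Group H] (hG : F G) (hH : F H) :
    F (G × H) := by
  have := hF.finite hG
  have := hF.finite hH
  refine hF.of_sup (N₁ := (MonoidHom.inl G H).range) (N₂ := (MonoidHom.inr G H).range) ?_ ?_ ?_
    ?_ ?_
  · exact inl_range_normal G H
  · exact inr_range_normal G H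
  · rw [eq_top_iff]
    rintro ⟨g, h⟩ -
    have : (g, h) = MonoidHom.inl G H g * MonoidHom.inr G H h := by simp
    rw [this]
    exact mul_mem_sup ⟨g, rfl⟩ ⟨h, rfl⟩
  · exact hF.iso _ _ (MonoidHom.ofInjective (fun a b hab => by simpa using hab)) hG
  · exact hF.iso _ _ (MonoidHom.ofInjective (fun a b hab => by simpa using hab)) hH

end IsFitting

instance radical_normal (F : GroupClass) (G : Type) [Group G] : (radical F G).Normal :=
  Subgroup.sSup_normal _ (fun _ h => h.1)

lemma le_radical {G : Type} [Group G] {N : Subgroup G} (hN : N.Normal) (h : F N) :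
    N ≤ radical F G := le_sSup ⟨hN, h⟩

lemma radical_mem (hF : IsFitting F) (G : Type) [Group G] [Finite G] : F (radical F G) := by
  have hfin : ({N : Subgroup G | N.Normal ∧ F N}).Finite := Set.toFinite _
  have key : ∀ S : Set (Subgroup G), S.Finite → (∀ N ∈ S, N.Normal ∧ F N) →
      (sSup S).Normal ∧ F (sSup S : Subgroup G) := by
    intro S hS
    induction S, hS using Set.Finite.induction_on with
    | empty =>
      intro _
      rw [sSup_empty]
      exact ⟨inferInstance, hF.of_subsingleton _⟩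
    | @insert a s _ _ ih =>
      intro h
      rw [sSup_insert]
      have h1 := h a (Set.mem_insert _ _)
      have h2 := ih (fun N hN => h N (Set.mem_insert_of_mem _ hN))
      have := h1.1
      have := h2.1
      exact ⟨inferInstance, hF.prod G _ _ h1.1 h2.1 h1.2 h2.2⟩
  exact (key _ hfin (fun _ h => h)).2

lemma radical_eq_top_iff (hF : IsFitting F) {G : Type} [Group G] [Finite G] :
    radical F G = ⊤ ↔ F G := by
  constructor
  · intro h
    have := radical_mem hF G
    rw [h] at this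
    exact hF.of_top this
  · intro h
    exact top_le_iff.1 (le_radical inferInstance (hF.to_top h))

lemma mem_radical_of_mem (hF : IsFitting F) {G : Type} [Group G] (hG : F G) (g : G) :
    g ∈ radical F G := le_radical inferInstance (hF.to_top hG) (mem_top g)

lemma radical_mono {X Y : GroupClass} (hX : IsFitting X) (h : ∀ (H : Type) [Group H], X H → Y H)
    (G : Type) [Group G] [Finite G] : radical X G ≤ radical Y G :=
  le_radical inferInstance (h _ (radical_mem hX G))

lemma map_mem_radical_equiv (hF : IsFitting F) {G H : Type} [Group G] [Group H] [Finite G]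
    (e : G ≃* H) {g : G} (hg : g ∈ radical F G) : e g ∈ radical F H := by
  have h1 : ((radical F G).map e.toMonoidHom).Normal :=
    (radical_normal F G).map _ e.surjective
  exact le_radical h1 (hF.map e.toMonoidHom e.injective (radical_mem hF G)) ⟨g, hg, rfl⟩

/-- Radicals are compatible with normal embeddings. -/
lemma mem_radical_iff (hF : IsFitting F) {N G : Type} [Group N] [Group G] [Finite G]
    (φ : N →* G) (hφ : Function.Injective φ) (hn : φ.range.Normal) (n : N) :
    φ n ∈ radical F G ↔ n ∈ radical F N := by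
  have : Finite N := Finite.of_injective φ hφ
  constructor
  · intro h
    let R := (radical F G).comap φ
    have hR : F R := by
      let ψ : R →* radical F G := (φ.comp R.subtype).codRestrict _ (fun r => r.2)
      refine hF.of_normal_emb ψ ?_ ?_ (radical_mem hF G)
      · intro a b hab
        have : φ a = φ b := congrArg Subtype.val hab
        exact Subtype.ext (hφ this)
      · constructor
        rintro _ ⟨r, rfl⟩ g
        obtain ⟨m, hm⟩ := hn.conj_mem (φ r) ⟨r, rfl⟩ g
        refine ⟨⟨m, ?_⟩, Subtype.ext hm⟩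
        show φ m ∈ radical F G
        rw [hm]
        exact (radical_normal F G).conj_mem _ r.2 _
    exact le_radical inferInstance hR h
  · intro h
    have h1 : ((radical F N).map φ).Normal := by
      constructor
      rintro _ ⟨r, hr, rfl⟩ g
      let e0 : N ≃* φ.range := MonoidHom.ofInjective hφ
      let e : N ≃* N := (e0.trans (MulAut.conjNormal g)).trans e0.symm
      refine ⟨e r, map_mem_radical_equiv hF e hr, ?_⟩
      have : ∀ x : φ.range, φ (e0.symm x) = x := fun x => MonoidHom.apply_ofInjective_symm hφ x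
      simp only [e, MulEquiv.trans_apply, this, MulAut.conjNormal_apply]
      rfl
    exact le_radical h1 (hF.map φ hφ (radical_mem hF N)) ⟨n, h, rfl⟩

lemma inl_mem_radical_iff (hF : IsFitting F) {G H : Type} [Group G] [Group H] [Finite G]
    [Finite H] (g : G) : ((g, 1) : G × H) ∈ radical F (G × H) ↔ g ∈ radical F G :=
  mem_radical_iff hF (MonoidHom.inl G H) (fun a b hab => by simpa using hab)
    (inl_range_normal G H) g

lemma inr_mem_radical_iff (hF : IsFitting F) {G H : Type} [Group G] [Group H] [Finite G]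
    [Finite H] (h : H) : ((1, h) : G × H) ∈ radical F (G × H) ↔ h ∈ radical F H :=
  mem_radical_iff hF (MonoidHom.inr G H) (fun a b hab => by simpa using hab)
    (inr_range_normal G H) h

/-- The explicit description of the upper star. -/
def starClass (F : GroupClass) : GroupClass := fun G _ =>
  solubleClass G ∧ ∀ g : G, ((g, g⁻¹) : G × G) ∈ radical F (G × G)

/-- A normal embedding of a product, with one factor omitted in the middle. -/
def emb13 (G H J : Type) [Group G] [Group H] [Group J] : G × J →* G × H × J where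
  toFun x := (x.1, 1, x.2)
  map_one' := rfl
  map_mul' a b := by simp

def emb12 (G H J : Type) [Group G] [Group H] [Group J] : G × H →* G × H × J where
  toFun x := (x.1, x.2, 1)
  map_one' := rfl
  map_mul' a b := by simp

lemma emb13_iff (hF : IsFitting F) {G H J : Type} [Group G] [Group H] [Group J] [Finite G]
    [Finite H] [Finite J] (g : G) (j : J) :
    ((g, 1, j) : G × H × J) ∈ radical F (G × H × J) ↔ (g, j) ∈ radical F (G × J) := by
  refine mem_radical_iff hF (emb13 G H J) ?_ ?_ (g, j)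
  · intro a b hab
    simp only [emb13, MonoidHom.coe_mk, OneHom.coe_mk, Prod.mk.injEq, true_and] at hab
    exact Prod.ext hab.1 hab.2
  · constructor
    rintro _ ⟨x, rfl⟩ y
    exact ⟨(y.1 * x.1 * y.1⁻¹, y.2.2 * x.2 * y.2.2⁻¹), by ext <;> simp [emb13]⟩

lemma emb12_iff (hF : IsFitting F) {G H J : Type} [Group G] [Group H] [Group J] [Finite G]
    [Finite H] [Finite J] (g : G) (h : H) :
    ((g, h, 1) : G × H × J) ∈ radical F (G × H × J) ↔ (g, h) ∈ radical F (G × H) := by
  refine mem_radical_iff hF (emb12 G H J) ?_ ?_ (g, h)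
  · intro a b hab
    simp only [emb12, MonoidHom.coe_mk, OneHom.coe_mk, Prod.mk.injEq, and_true] at hab
    exact Prod.ext hab.1 hab.2
  · constructor
    rintro _ ⟨x, rfl⟩ y
    exact ⟨(y.1 * x.1 * y.1⁻¹, y.2.1 * x.2 * y.2.1⁻¹), by ext <;> simp [emb12]⟩

lemma starClass_of_proj (hF : IsFitting F) {G H : Type} [Group G] [Group H] [Finite H]
    (hG : solubleClass G) (h : ∀ g : G, ∃ k : H, (g, k) ∈ radical F (G × H)) :
    starClass F G := by
  have := hG.1
  refine ⟨hG, fun g => ?_⟩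
  obtain ⟨k, hk⟩ := h g
  have h1 := (emb13_iff (H := G) hF g k).2 hk
  have h2 := (inr_mem_radical_iff (G := G) hF (g, k)).2 hk
  have h3 := mul_mem h1 (inv_mem h2)
  rw [← emb12_iff (J := H) hF]
  simpa using h3

lemma prodMap_range_normal {N G M H : Type} [Group N] [Group G] [Group M] [Group H] (φ : N →* G)
    (ψ : M →* H) (hφ : φ.range.Normal) (hψ : ψ.range.Normal) : (φ.prodMap ψ).range.Normal := by
  rw [MonoidHom.range_prodMap]
  infer_instance

lemma prodMap_injective {N G M H : Type} [Group N] [Group G] [Group M] [Group H] (φ : N →* G)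
    (ψ : M →* H) (hφ : Function.Injective φ) (hψ : Function.Injective ψ) :
    Function.Injective (φ.prodMap ψ) := hφ.prodMap hψ

lemma starClass_of_normal_emb (hF : IsFitting F) {N G : Type} [Group N] [Group G] (φ : N →* G)
    (hφ : Function.Injective φ) (hn : φ.range.Normal) (hG : starClass F G) : starClass F N := by
  have := hG.1.1
  refine ⟨soluble_of_injective hG.1 φ hφ, fun n => ?_⟩
  rw [← mem_radical_iff hF (φ.prodMap φ) (prodMap_injective _ _ hφ hφ)
    (prodMap_range_normal _ _ hn hn)]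
  simpa using hG.2 (φ n)

lemma soluble_sup {G : Type} [Group G] [Finite G] {N₁ N₂ : Subgroup G} (h₁ : N₁.Normal)
    (k₁ : solubleClass N₁) (k₂ : solubleClass N₂) : solubleClass ↥(N₁ ⊔ N₂) := by
  refine ⟨inferInstance, ?_⟩
  have := k₁.2
  have := k₂.2
  let K := N₁ ⊔ N₂
  let f : N₁ →* K := Subgroup.inclusion le_sup_left
  let q : K →* G ⧸ N₁ := (QuotientGroup.mk' N₁).comp K.subtype
  have hs : Group.IsSolvable q.range := by
    let r : N₂ →* q.range := q.rangeRestrict.comp (Subgroup.inclusion le_sup_right)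
    refine Group.isSolvable_of_surjective (f := r) ?_
    rintro ⟨_, ⟨k, hk⟩, rfl⟩
    have hk' : k ∈ ((N₁ ⊔ N₂ : Subgroup G) : Set G) := hk
    rw [Subgroup.normal_mul] at hk'
    obtain ⟨a, ha, b, hb, rfl⟩ := hk'
    refine ⟨⟨b, hb⟩, Subtype.ext ?_⟩
    simp only [r, q, MonoidHom.comp_apply, MonoidHom.coe_rangeRestrict, QuotientGroup.mk'_apply,
      Subgroup.coe_subtype, Subgroup.coe_inclusion, QuotientGroup.mk_mul]
    rw [(QuotientGroup.eq_one_iff a).2 ha, one_mul]
  refine Group.isSolvable_of_ker_le_range f q.rangeRestrict ?_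
  rintro ⟨k, hk⟩ h
  have h1 : q ⟨k, hk⟩ = 1 := congrArg Subtype.val h
  have h2 : k ∈ N₁ := (QuotientGroup.eq_one_iff k).1 h1
  exact ⟨⟨k, h2⟩, rfl⟩

lemma soluble_fitting : IsFitting solubleClass where
  soluble _ _ h := h
  trivial := ⟨inferInstance, inferInstance⟩
  iso _ _ _ _ e h := soluble_of_injective h e.symm.toMonoidHom e.symm.injective
  normal _ _ N _ h := soluble_subgroup h N
  prod _ _ _ _ _ h₁ _ k₁ k₂ := soluble_sup h₁ k₁ k₂

lemma subgroupOf_range_normal {G : Type} [Group G] {N K : Subgroup G} (hN : N.Normal)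
    (hle : N ≤ K) : (Subgroup.inclusion hle).range.Normal := by
  rw [Subgroup.inclusion_range]
  infer_instance

lemma starClass_fitting (hF : IsFitting F) : IsFitting (starClass F) where
  soluble _ _ h := h.1
  trivial := ⟨⟨inferInstance, inferInstance⟩, fun g => by
    have : ((g, g⁻¹) : PUnit × PUnit) = 1 := Subsingleton.elim _ _
    rw [this]; exact one_mem _⟩
  iso _ _ _ _ e h := starClass_of_normal_emb hF e.symm.toMonoidHom e.symm.injective
    (by rw [MonoidHom.range_eq_top.2 e.symm.surjective]; infer_instance) h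
  normal _ _ N hN h := starClass_of_normal_emb hF N.subtype N.subtype_injective
    (by rwa [Subgroup.range_subtype]) h
  prod G _ _ N₁ N₂ h₁ h₂ k₁ k₂ := by
    refine starClass_of_proj (H := ↥(N₁ ⊔ N₂)) hF (soluble_sup h₁ k₁.1 k₂.1) ?_
    have key : ∀ (N : Subgroup G) (hN : N.Normal) (hle : N ≤ N₁ ⊔ N₂), starClass F N → ∀ n : N,
        ((Subgroup.inclusion hle n, (Subgroup.inclusion hle n)⁻¹) : ↥(N₁ ⊔ N₂) × ↥(N₁ ⊔ N₂)) ∈
          radical F (↥(N₁ ⊔ N₂) × ↥(N₁ ⊔ N₂)) := by
      intro N hN hle hs n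
      have := (mem_radical_iff hF ((Subgroup.inclusion hle).prodMap (Subgroup.inclusion hle))
        (prodMap_injective _ _ (inclusion_injective hle) (inclusion_injective hle))
        (prodMap_range_normal _ _ (subgroupOf_range_normal hN hle)
          (subgroupOf_range_normal hN hle)) (n, n⁻¹)).2 (hs.2 n)
      simpa using this
    rintro ⟨k, hk⟩
    have hk' : k ∈ ((N₁ ⊔ N₂ : Subgroup G) : Set G) := hk
    rw [Subgroup.normal_mul] at hk'
    obtain ⟨a, ha, b, hb, rfl⟩ := hk'
    exact ⟨_, mul_mem (key N₁ h₁ le_sup_left k₁ ⟨a, ha⟩) (key N₂ h₂ le_sup_right k₂ ⟨b, hb⟩)⟩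

lemma subset_starClass (hF : IsFitting F) (G : Type) [Group G] (hG : F G) : starClass F G :=
  ⟨hF.soluble G hG, fun _ => mem_radical_of_mem hF (hF.prod_mem hG hG) _⟩

lemma fst_mem_radical_star (hF : IsFitting F) {G H : Type} [Group G] [Group H]
    (hG : solubleClass G) (hH : solubleClass H) {x : G × H}
    (hx : x ∈ radical (starClass F) (G × H)) : x.1 ∈ radical (starClass F) G := by
  have := hG.1
  have := hH.1
  let R := radical (starClass F) (G × H)
  have hR : starClass F R := radical_mem (starClass_fitting hF) _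
  let G₁ : Subgroup G := R.map (MonoidHom.fst G H)
  have hG₁ : G₁.Normal := (radical_normal _ _).map _ Prod.fst_surjective
  let φ : R →* G₁ × H :=
    (((MonoidHom.fst G H).comp R.subtype).codRestrict G₁ (fun r => mem_map_of_mem _ r.2)).prod
      ((MonoidHom.snd G H).comp R.subtype)
  have hφ : Function.Injective φ := by
    intro a b hab
    have h1 : (a : G × H).1 = (b : G × H).1 := congrArg (fun z : G₁ × H => (z.1 : G)) hab
    have h2 : (a : G × H).2 = (b : G × H).2 := congrArg (fun z : G₁ × H => z.2) hab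
    exact Subtype.ext (Prod.ext h1 h2)
  have hφn : φ.range.Normal := by
    constructor
    rintro _ ⟨r, rfl⟩ y
    refine ⟨⟨((y.1 : G), y.2) * r * ((y.1 : G), y.2)⁻¹,
      (radical_normal _ _).conj_mem _ r.2 _⟩, ?_⟩
    ext <;> simp [φ]
  have hs : starClass F G₁ := by
    refine starClass_of_proj (H := H × G × H) hF (soluble_subgroup hG _) ?_
    rintro ⟨_, r, hr, rfl⟩
    have h1 := (mem_radical_iff hF (φ.prodMap R.subtype)
      (prodMap_injective _ _ hφ R.subtype_injective)
      (prodMap_range_normal _ _ hφn (by rw [Subgroup.range_subtype]; infer_instance))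
      (⟨r, hr⟩, ⟨r, hr⟩⁻¹)).2 (hR.2 ⟨r, hr⟩)
    exact ⟨_, map_mem_radical_equiv hF MulEquiv.prodAssoc h1⟩
  exact le_radical hG₁ hs ⟨x, hx, rfl⟩

lemma starClass_respects (hF : IsFitting F) : RespectsProducts (starClass F) := by
  intro G H _ _ hG hH
  have := hG.1
  have := hH.1
  have hS := starClass_fitting hF
  apply le_antisymm
  · intro x hx
    refine ⟨fst_mem_radical_star hF hG hH hx, ?_⟩
    exact fst_mem_radical_star hF hH hG (map_mem_radical_equiv hS MulEquiv.prodComm hx)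
  · rintro ⟨g, h⟩ ⟨hg, hh⟩
    have := mul_mem ((inl_mem_radical_iff (H := H) hS g).2 hg)
      ((inr_mem_radical_iff (G := G) hS h).2 hh)
    simpa using this

lemma class_ext {X Y : GroupClass} (h : ∀ (G : Type) [Group G], X G ↔ Y G) : X = Y := by
  funext G inst
  exact propext (h G)

lemma upperStar_eq (hF : IsFitting F) : upperStar F = starClass F := by
  apply class_ext
  intro G _
  constructor
  · intro h
    exact h _ (starClass_fitting hF) (subset_starClass hF) (starClass_respects hF)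
  · intro h L hL hFL hprod
    have := h.1.1
    rw [← radical_eq_top_iff hL, eq_top_iff]
    intro g _
    have h1 := radical_mono hF hFL (G × G) (h.2 g)
    rw [hprod G G h.1 h.1] at h1
    exact h1.1

lemma inter_fitting {X Y : GroupClass} (hX : IsFitting X) (hY : IsFitting Y) :
    IsFitting (interClass X Y) where
  soluble G _ h := hX.soluble G h.1
  trivial := ⟨hX.trivial, hY.trivial⟩
  iso G H _ _ e h := ⟨hX.iso G H e h.1, hY.iso G H e h.2⟩
  normal G _ N hN h := ⟨hX.normal G N hN h.1, hY.normal G N hN h.2⟩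
  prod G _ _ N₁ N₂ h₁ h₂ k₁ k₂ := ⟨hX.prod G N₁ N₂ h₁ h₂ k₁.1 k₂.1, hY.prod G N₁ N₂ h₁ h₂ k₁.2 k₂.2⟩

lemma mem_radical_inter {X Y : GroupClass} (hX : IsFitting X) (hY : IsFitting Y) {G : Type}
    [Group G] [Finite G] {g : G} (h₁ : g ∈ radical X G) (h₂ : g ∈ radical Y G) :
    g ∈ radical (interClass X Y) G := by
  refine le_radical (N := radical X G ⊓ radical Y G) inferInstance ⟨?_, ?_⟩ ⟨h₁, h₂⟩
  · exact hX.of_le inf_le_left inferInstance (radical_mem hX G)
  · exact hY.of_le inf_le_right inferInstance (radical_mem hY G)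

lemma starClass_mono {X Y : GroupClass} (hX : IsFitting X)
    (h : ∀ (H : Type) [Group H], X H → Y H) (G : Type) [Group G] (hG : starClass X G) :
    starClass Y G := by
  have := hG.1.1
  exact ⟨hG.1, fun g => radical_mono hX h _ (hG.2 g)⟩

lemma lowerStar_subset (hF : IsFitting F) (G : Type) [Group G] (hG : lowerStar F G) : F G :=
  hG F hF rfl

lemma lowerStar_mono {X Y : GroupClass} (hX : IsFitting X) (hY : IsFitting Y)
    (h : ∀ (H : Type) [Group H], X H → Y H) (G : Type) [Group G] (hG : lowerStar X G) :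
    lowerStar Y G := by
  intro Z hZ hZY
  rw [upperStar_eq hZ, upperStar_eq hY] at hZY
  refine (hG (interClass X Z) (inter_fitting hX hZ) ?_).2
  rw [upperStar_eq (inter_fitting hX hZ), upperStar_eq hX]
  apply class_ext
  intro H _
  constructor
  · exact starClass_mono (inter_fitting hX hZ) (fun _ _ h => h.1) H
  · intro hH
    have := hH.1.1
    have h2 : starClass Z H := by rw [hZY]; exact starClass_mono hX h H hH
    exact ⟨hH.1, fun g => mem_radical_inter hX hZ (hH.2 g) (h2.2 g)⟩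

end Pool.Agent.MP_060950_al

end

-- part MP_060950_al.Pair
section

/-!
Fitting pairs: coherent families of homomorphisms to a fixed abelian group.
-/

namespace Pool.Agent.MP_060950_al

open Subgroup

universe u

lemma isSubnormal_of_normalizerCondition {G : Type} [Group G] [Finite G]
    (h : NormalizerCondition G) (S : Subgroup G) : S.IsSubnormal := by
  induction S using WellFoundedGT.induction with
  | ind S ih =>
    by_cases hS : S = ⊤
    · rw [hS]; exact IsSubnormal.top
    · have hlt := h S (lt_top_iff_ne_top.2 hS)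
      exact IsSubnormal.step S _ hlt.le (ih _ hlt) inferInstance

lemma isSubnormal_of_pow_mem {G : Type} [Group G] [Finite G] {p : ℕ} [Fact p.Prime]
    (N : Subgroup G) [N.Normal] (hN : ∀ g : G, ∃ n : ℕ, g ^ p ^ n ∈ N) {S : Subgroup G}
    (hS : N ≤ S) : S.IsSubnormal := by
  have hp : IsPGroup p (G ⧸ N) := by
    intro x
    obtain ⟨g, rfl⟩ := QuotientGroup.mk_surjective x
    obtain ⟨n, hn⟩ := hN g
    exact ⟨n, by rw [← QuotientGroup.mk_pow, QuotientGroup.eq_one_iff]; exact hn⟩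
  have := hp.isNilpotent
  have h1 := (isSubnormal_of_normalizerCondition Group.normalizerCondition_of_isNilpotent
    (S.map (QuotientGroup.mk' N))).comap (QuotientGroup.mk' N)
  rwa [comap_map_eq_self (by rwa [QuotientGroup.ker_mk'])] at h1

/-- A Fitting pair on the class X with values in the abelian group A. -/
structure Pair (X : GroupClass) (A : Type u) [CommGroup A] where
  val : ∀ (G : Type) [Group G], G → A
  map_mul : ∀ (G : Type) [Group G], X G → ∀ a b : G, val G (a * b) = val G a * val G b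
  compat : ∀ (N G : Type) [Group N] [Group G] (φ : N →* G), X G → Function.Injective φ →
    φ.range.Normal → ∀ n, val G (φ n) = val N n

namespace Pair

variable {X : GroupClass} {A : Type u} [CommGroup A] (d : Pair X A)

/-- The homomorphism of the pair at a group of the class. -/
def hom {G : Type} [Group G] (hG : X G) : G →* A := MonoidHom.mk' (d.val G) (d.map_mul G hG)

@[simp] lemma hom_apply {G : Type} [Group G] (hG : X G) (g : G) : d.hom hG g = d.val G g := rfl

lemma map_one {G : Type} [Group G] (hG : X G) : d.val G 1 = 1 := (d.hom hG).map_one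

lemma map_inv {G : Type} [Group G] (hG : X G) (g : G) : d.val G g⁻¹ = (d.val G g)⁻¹ :=
  (d.hom hG).map_inv g

lemma map_pow {G : Type} [Group G] (hG : X G) (g : G) (n : ℕ) :
    d.val G (g ^ n) = (d.val G g) ^ n := (d.hom hG).map_pow g n

lemma map_zpow {G : Type} [Group G] (hG : X G) (g : G) (n : ℤ) :
    d.val G (g ^ n) = (d.val G g) ^ n := (d.hom hG).map_zpow g n

lemma compat_equiv {N G : Type} [Group N] [Group G] (e : N ≃* G) (hG : X G) (n : N) :
    d.val G (e n) = d.val N n :=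
  d.compat N G e.toMonoidHom hG e.injective
    (by rw [MonoidHom.range_eq_top.2 e.surjective]; infer_instance) n

lemma compat_subgroup (hX : IsFitting X) {G : Type} [Group G] (hG : X G) {H : Subgroup G}
    (hH : H.IsSubnormal) (h : H) : d.val G h = d.val H h := by
  induction hH with
  | top => exact d.compat_equiv Subgroup.topEquiv hG h
  | step H K hle hK hn ih =>
    have h1 := ih (inclusion hle h)
    have h2 := d.compat H K (inclusion hle) (hX.of_subnormal hK hG) (inclusion_injective hle)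
      (by rw [inclusion_range]; exact hn) h
    rw [← h2, ← h1]
    rfl

lemma compat_subnormal (hX : IsFitting X) {N G : Type} [Group N] [Group G] (φ : N →* G)
    (hG : X G) (hφ : Function.Injective φ) (hs : φ.range.IsSubnormal) (n : N) :
    d.val G (φ n) = d.val N n := by
  have h1 := d.compat_subgroup hX hG hs (MonoidHom.ofInjective hφ n)
  rw [d.compat_equiv (MonoidHom.ofInjective hφ) (hX.of_subnormal hs hG)] at h1
  exact h1

lemma val_prod {G H : Type} [Group G] [Group H] (hGH : X (G × H)) (g : G) (h : H) :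
    d.val (G × H) (g, h) = d.val G g * d.val H h := by
  have h1 := d.compat G (G × H) (MonoidHom.inl G H) hGH (fun a b hab => by simpa using hab)
    (inl_range_normal G H) g
  have h2 := d.compat H (G × H) (MonoidHom.inr G H) hGH (fun a b hab => by simpa using hab)
    (inr_range_normal G H) h
  rw [← h1, ← h2, ← d.map_mul _ hGH]
  simp

lemma val_comm (hX : IsFitting X) {C : Type} [CommGroup C] (hC : X C) (c : C) :
    d.val C c = 1 := by
  let e : C × C ≃* C × C :=
    { toFun := fun x => (x.1 * x.2, x.2)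
      invFun := fun x => (x.1 * x.2⁻¹, x.2)
      left_inv := fun x => by simp
      right_inv := fun x => by simp
      map_mul' := fun x y => by simp [mul_mul_mul_comm] }
  have hCC := hX.prod_mem hC hC
  have h1 := d.compat_equiv e hCC (1, c)
  have h2 : e (1, c) = (c, c) := by simp [e]
  rw [h2, d.val_prod hCC, d.val_prod hCC, d.map_one hC] at h1
  simpa using h1

lemma val_zpowers (hX : IsFitting X) {G : Type} [Group G] (hG : X G) (g : G)
    (hs : (zpowers g).IsSubnormal) : d.val G g = 1 := by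
  have h1 := d.compat_subgroup hX hG hs ⟨g, mem_zpowers g⟩
  rw [show d.val G g = d.val G ((⟨g, mem_zpowers g⟩ : zpowers g) : G) from rfl, h1]
  let : CommGroup (zpowers g) := { (inferInstance : Group (zpowers g)) with
    mul_comm := fun a b => mul_comm' a b }
  exact d.val_comm hX (C := zpowers g) (hX.of_subnormal hs hG) _

lemma val_pGroup (hX : IsFitting X) {p : ℕ} [Fact p.Prime] {P : Type} [Group P] (hP : X P)
    (hp : IsPGroup p P) (g : P) : d.val P g = 1 := by
  have := hX.finite hP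
  refine d.val_zpowers hX hP g (isSubnormal_of_pow_mem (p := p) ⊥ ?_ bot_le)
  intro x
  obtain ⟨n, hn⟩ := hp x
  exact ⟨n, by rw [hn]; exact one_mem _⟩

/-- Restriction to a smaller class. -/
def restrict {Y : GroupClass} (h : ∀ (G : Type) [Group G], Y G → X G) : Pair Y A where
  val := d.val
  map_mul G _ hG := d.map_mul G (h G hG)
  compat N G _ _ φ hG := d.compat N G φ (h G hG)

/-- The trivial pair. -/
def one (X : GroupClass) (A : Type u) [CommGroup A] : Pair X A where
  val _ _ _ := 1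
  map_mul _ _ _ _ _ := by simp
  compat _ _ _ _ _ _ _ _ _ := rfl

/-- The product of two pairs. -/
def mul (e : Pair X A) : Pair X A where
  val G _ g := d.val G g * e.val G g
  map_mul G _ hG a b := by rw [d.map_mul G hG, e.map_mul G hG, mul_mul_mul_comm]
  compat N G _ _ φ hG h1 h2 n := by rw [d.compat N G φ hG h1 h2, e.compat N G φ hG h1 h2]

/-- The quotient of two pairs. -/
def div (e : Pair X A) : Pair X A where
  val G _ g := d.val G g / e.val G g
  map_mul G _ hG a b := by rw [d.map_mul G hG, e.map_mul G hG, mul_div_mul_comm]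
  compat N G _ _ φ hG h1 h2 n := by rw [d.compat N G φ hG h1 h2, e.compat N G φ hG h1 h2]

/-- The class of groups on which the pair is trivial. -/
def kerClass : GroupClass := fun G _ => X G ∧ ∀ g : G, d.val G g = 1

lemma kerClass_fitting (hX : IsFitting X) : IsFitting d.kerClass where
  soluble G _ h := hX.soluble G h.1
  trivial := ⟨hX.trivial, fun g => by
    rw [Subsingleton.elim g 1]; exact d.map_one hX.trivial⟩
  iso G H _ _ e h := ⟨hX.iso G H e h.1, fun x => by
    rw [← d.compat_equiv e.symm h.1, h.2]⟩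
  normal G _ N hN h := ⟨hX.normal G N hN h.1, fun x => by
    rw [← d.compat_subgroup hX h.1 hN.isSubnormal, h.2]⟩
  prod G _ _ N₁ N₂ h₁ h₂ k₁ k₂ := by
    have hK := hX.prod G N₁ N₂ h₁ h₂ k₁.1 k₂.1
    refine ⟨hK, ?_⟩
    rintro ⟨k, hk⟩
    have hk' : k ∈ ((N₁ ⊔ N₂ : Subgroup G) : Set G) := hk
    rw [Subgroup.normal_mul] at hk'
    obtain ⟨a, ha, b, hb, rfl⟩ := hk'
    have e1 := d.compat N₁ _ (inclusion (le_sup_left : N₁ ≤ N₁ ⊔ N₂)) hK (inclusion_injective _)
      (subgroupOf_range_normal h₁ _) ⟨a, ha⟩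
    have e2 := d.compat N₂ _ (inclusion (le_sup_right : N₂ ≤ N₁ ⊔ N₂)) hK (inclusion_injective _)
      (subgroupOf_range_normal h₂ _) ⟨b, hb⟩
    rw [k₁.2] at e1
    rw [k₂.2] at e2
    have := d.map_mul _ hK (inclusion (le_sup_left : N₁ ≤ N₁ ⊔ N₂) ⟨a, ha⟩)
      (inclusion (le_sup_right : N₂ ≤ N₁ ⊔ N₂) ⟨b, hb⟩)
    rw [e1, e2, one_mul] at this
    exact this

lemma ker_le_radical (hX : IsFitting X) {G : Type} [Group G] (hG : X G) {g : G}
    (hg : d.val G g = 1) : g ∈ radical d.kerClass G := by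
  refine le_radical (N := (d.hom hG).ker) inferInstance ⟨hX.normal G _ inferInstance hG, ?_⟩ hg
  intro x
  rw [← d.compat_subgroup hX hG (Normal.isSubnormal inferInstance)]
  exact x.2

lemma star_kerClass (hX : IsFitting X) : upperStar d.kerClass = upperStar X := by
  have hZ := d.kerClass_fitting hX
  rw [upperStar_eq hZ, upperStar_eq hX]
  apply class_ext
  intro G _
  constructor
  · exact starClass_mono hZ (fun _ _ h => h.1) G
  · intro hG
    rw [← upperStar_eq hX] at hG
    refine hG _ (starClass_fitting hZ) ?_ (starClass_respects hZ)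
    intro H _ hH
    refine ⟨hX.soluble H hH, fun h => d.ker_le_radical hX (hX.prod_mem hH hH) ?_⟩
    rw [d.val_prod (hX.prod_mem hH hH), d.map_inv hH, mul_inv_cancel]

lemma val_eq_one_of_lowerStar (hX : IsFitting X) {G : Type} [Group G] (hG : lowerStar X G)
    (g : G) : d.val G g = 1 :=
  (hG _ (d.kerClass_fitting hX) (d.star_kerClass hX)).2 g

end Pair

/-! ### The pair attached to a member of a Lockett section -/

/-- A group of the class together with an element. -/
structure Pt (X : GroupClass) : Type 1 where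
  G : Type
  [grp : Group G]
  mem : X G
  g : G

attribute [instance] Pt.grp

section Lausch

variable {Y : GroupClass} (hY : IsFitting Y)

/-- The equivalence relation on pointed groups. -/
def ptSetoid : Setoid (Pt (starClass Y)) where
  r a b := ((a.g, b.g⁻¹) : a.G × b.G) ∈ radical Y (a.G × b.G)
  iseqv := by
    refine ⟨fun a => a.mem.2 a.g, fun {a b} h => ?_, fun {a b c} h1 h2 => ?_⟩
    · have := a.mem.1.1
      have := b.mem.1.1
      have h1 := inv_mem (map_mem_radical_equiv hY MulEquiv.prodComm h)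
      simpa using h1
    · have := a.mem.1.1
      have := b.mem.1.1
      have := c.mem.1.1
      have k1 := (emb12_iff (J := c.G) hY _ _).2 h1
      have k2 := (inr_mem_radical_iff (G := a.G) hY _).2 h2
      rw [← emb13_iff (H := b.G) hY]
      simpa using mul_mem k1 k2

/-- The target group. -/
def LauschGroup : Type 1 := Quotient (ptSetoid hY)

/-- The class of a pointed group. -/
def cls (G : Type) [Group G] (hG : starClass Y G) (g : G) : LauschGroup hY :=
  Quotient.mk (ptSetoid hY) ⟨G, hG, g⟩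

lemma cls_eq_iff {G H : Type} [Group G] [Group H] (hG : starClass Y G) (hH : starClass Y H)
    (g : G) (h : H) :
    cls hY G hG g = cls hY H hH h ↔ ((g, h⁻¹) : G × H) ∈ radical Y (G × H) :=
  Quotient.eq (r := ptSetoid hY)

lemma cls_surj (a : LauschGroup hY) :
    ∃ (G : Type) (_ : Group G) (hG : starClass Y G) (g : G), a = cls hY G hG g := by
  obtain ⟨b, rfl⟩ := Quotient.exists_rep a
  exact ⟨b.G, b.grp, b.mem, b.g, rfl⟩

lemma cls_emb {N G : Type} [Group N] [Group G] (φ : N →* G) (hG : starClass Y G)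
    (hN : starClass Y N) (hφ : Function.Injective φ) (hn : φ.range.Normal) (n : N) :
    cls hY G hG (φ n) = cls hY N hN n := by
  have := hG.1.1
  have := hN.1.1
  rw [cls_eq_iff]
  exact (mem_radical_iff hY (φ.prodMap (MonoidHom.id N))
    (prodMap_injective _ _ hφ Function.injective_id)
    (prodMap_range_normal _ _ hn (by
      rw [MonoidHom.range_eq_top.2 Function.surjective_id]; infer_instance)) (n, n⁻¹)).2 (hN.2 n)

instance : Mul (LauschGroup hY) where
  mul := Quotient.map₂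
    (fun a b => ⟨a.G × b.G, (starClass_fitting hY).prod_mem a.mem b.mem, (a.g, b.g)⟩) (by
      intro a a' ha b b' hb
      have := a.mem.1.1
      have := a'.mem.1.1
      have := b.mem.1.1
      have := b'.mem.1.1
      have k1 := (mem_radical_iff hY ((MonoidHom.inl a.G b.G).prodMap (MonoidHom.inl a'.G b'.G))
        (prodMap_injective _ _ (fun a b hab => by simpa using hab)
          (fun a b hab => by simpa using hab))
        (prodMap_range_normal _ _ (inl_range_normal _ _) (inl_range_normal _ _)) _).2 ha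
      have k2 := (mem_radical_iff hY ((MonoidHom.inr a.G b.G).prodMap (MonoidHom.inr a'.G b'.G))
        (prodMap_injective _ _ (fun a b hab => by simpa using hab)
          (fun a b hab => by simpa using hab))
        (prodMap_range_normal _ _ (inr_range_normal _ _) (inr_range_normal _ _)) _).2 hb
      have k3 := mul_mem k1 k2
      show (((a.g, b.g), (a'.g, b'.g)⁻¹) : (a.G × b.G) × (a'.G × b'.G)) ∈ radical Y _
      simpa using k3)

lemma cls_mul_def {G H : Type} [Group G] [Group H] (hG : starClass Y G) (hH : starClass Y H)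
    (g : G) (h : H) : cls hY G hG g * cls hY H hH h =
      cls hY (G × H) ((starClass_fitting hY).prod_mem hG hH) (g, h) := rfl

lemma cls_mul {G : Type} [Group G] (hG : starClass Y G) (a b : G) :
    cls hY G hG (a * b) = cls hY G hG a * cls hY G hG b := by
  have hGG := (starClass_fitting hY).prod_mem hG hG
  have h1 := (cls_eq_iff hY _ _ _ _).1 (cls_emb hY (MonoidHom.inl G G) hGG hG
    (fun a b hab => by simpa using hab) (inl_range_normal G G) a)
  have h2 := (cls_eq_iff hY _ _ _ _).1 (cls_emb hY (MonoidHom.inr G G) hGG hG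
    (fun a b hab => by simpa using hab) (inr_range_normal G G) b)
  rw [cls_mul_def, eq_comm, cls_eq_iff]
  simpa using mul_mem h2 h1

lemma cls_inl {G H : Type} [Group G] [Group H] (hG : starClass Y G) (hGH : starClass Y (G × H))
    (g : G) : cls hY (G × H) hGH (g, 1) = cls hY G hG g :=
  cls_emb hY (MonoidHom.inl G H) hGH hG (fun a b hab => by simpa using hab)
    (inl_range_normal G H) g

lemma cls_inr {G H : Type} [Group G] [Group H] (hH : starClass Y H) (hGH : starClass Y (G × H))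
    (h : H) : cls hY (G × H) hGH (1, h) = cls hY H hH h :=
  cls_emb hY (MonoidHom.inr G H) hGH hH (fun a b hab => by simpa using hab)
    (inr_range_normal G H) h

lemma cls_common (a b : LauschGroup hY) : ∃ (G : Type) (_ : Group G) (hG : starClass Y G)
    (g h : G), a = cls hY G hG g ∧ b = cls hY G hG h ∧ g * h = h * g := by
  obtain ⟨G, _, hG, g, rfl⟩ := cls_surj hY a
  obtain ⟨H, _, hH, h, rfl⟩ := cls_surj hY b
  have hGH := (starClass_fitting hY).prod_mem hG hH
  exact ⟨G × H, inferInstance, hGH, (g, 1), (1, h), (cls_inl hY hG hGH g).symm,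
    (cls_inr hY hH hGH h).symm, by simp⟩

instance : One (LauschGroup hY) := ⟨cls hY PUnit (starClass_fitting hY).trivial 1⟩

lemma cls_one {G : Type} [Group G] (hG : starClass Y G) : cls hY G hG 1 = 1 := by
  show _ = cls hY PUnit (starClass_fitting hY).trivial 1
  rw [cls_eq_iff, inv_one]
  exact one_mem _

instance : Inv (LauschGroup hY) where
  inv := Quotient.map (fun a => ⟨a.G, a.mem, a.g⁻¹⟩) (by
    intro a b h
    have h1 : ((a.g, b.g⁻¹) : a.G × b.G) ∈ radical Y (a.G × b.G) := h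
    show ((a.g⁻¹, b.g⁻¹⁻¹) : a.G × b.G) ∈ radical Y (a.G × b.G)
    exact inv_mem h1)

lemma cls_inv {G : Type} [Group G] (hG : starClass Y G) (g : G) :
    (cls hY G hG g)⁻¹ = cls hY G hG g⁻¹ := rfl

instance : Group (LauschGroup hY) := Group.ofLeftAxioms
  (fun a b c => by
    obtain ⟨G, _, hG, g, g', rfl, rfl, -⟩ := cls_common hY a b
    obtain ⟨H, _, hH, h, rfl⟩ := cls_surj hY c
    have hGH := (starClass_fitting hY).prod_mem hG hH
    rw [← cls_inl hY hG hGH g, ← cls_inl hY hG hGH g', ← cls_inr hY hH hGH h]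
    simp only [← cls_mul, mul_assoc])
  (fun a => by
    obtain ⟨G, _, hG, g, rfl⟩ := cls_surj hY a
    rw [← cls_one hY hG, ← cls_mul, one_mul])
  (fun a => by
    obtain ⟨G, _, hG, g, rfl⟩ := cls_surj hY a
    rw [cls_inv, ← cls_mul, inv_mul_cancel, cls_one])

instance : CommGroup (LauschGroup hY) where
  mul_comm a b := by
    obtain ⟨G, _, hG, g, g', rfl, rfl, h⟩ := cls_common hY a b
    rw [← cls_mul, ← cls_mul, h]

open Classical in
/-- The pair whose kernel class is Y. -/
noncomputable def lauschPair : Pair (starClass Y) (LauschGroup hY) where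
  val G _ g := if h : starClass Y G then cls hY G h g else 1
  map_mul G _ hG a b := by simp only [dif_pos hG, cls_mul]
  compat N G _ _ φ hG h1 h2 n := by
    have hN := starClass_of_normal_emb hY φ h1 h2 hG
    simp only [dif_pos hG, dif_pos hN]
    exact cls_emb hY φ hG hN h1 h2 n

lemma mem_of_lauschPair {G : Type} [Group G] (hG : starClass Y G)
    (h : ∀ g : G, (lauschPair hY).val G g = 1) : Y G := by
  have := hG.1.1
  rw [← radical_eq_top_iff hY, eq_top_iff]
  intro g _
  have h1 := h g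
  simp only [lauschPair, dif_pos hG] at h1
  rw [← cls_one hY hG, cls_eq_iff, inv_one, inl_mem_radical_iff hY] at h1
  exact h1

end Lausch

/-- A criterion for membership in the lower star of a Lockett class. -/
lemma lowerStar_of_pairs {X : GroupClass} (hX : IsFitting X) (hL : starClass X = X) {G : Type}
    [Group G] (hG : X G)
    (h : ∀ (A : Type 1) [CommGroup A] (d : Pair X A) (g : G), d.val G g = 1) :
    lowerStar X G := by
  intro Y hY hYX
  rw [upperStar_eq hY, upperStar_eq hX, hL] at hYX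
  refine mem_of_lauschPair hY (by rw [hYX]; exact hG) ?_
  intro g
  exact h _ ((lauschPair hY).restrict (fun H _ hH => by rw [hYX]; exact hH)) g

end Pool.Agent.MP_060950_al

end

-- part MP_060950_al.Berger
section

/-!
Fitting pairs on the class of all finite soluble groups, obtained from the conjugation action on
the subgroups isomorphic to a fixed group.
-/

namespace Pool.Agent.MP_060950_al

open Subgroup

universe u

/-- The automorphism acts non-trivially on every non-trivial quotient. -/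
def Fpf {U : Type} [Group U] (α : MulAut U) : Prop :=
  ∀ N : Subgroup U, N.Normal → (∀ u, u⁻¹ * α u ∈ N) → N = ⊤

lemma prod_cocycle_eq_one {N Ω : Type} {A : Type u} [Group N] [MulAction N Ω] [CommGroup A]
    (S : Finset Ω) (hS : ∀ (n : N) (x : Ω), x ∈ S → n • x ∈ S) (c : N → Ω → A)
    (hc : ∀ g h x, c (g * h) x = c g (h • x) * c h x)
    (hs : ∀ g, ∀ x ∈ S, g • x = x → c g x = 1) (g : N) : ∏ x ∈ S, c g x = 1 := by
  let r : Ω → Ω := fun x => (Quotient.mk (MulAction.orbitRel N Ω) x).out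
  have hr : ∀ x, ∃ t : N, t • r x = x := fun x => by
    have h1 : (MulAction.orbitRel N Ω).r (r x) x := Quotient.exact (Quotient.out_eq _)
    have h2 : x ∈ MulAction.orbit N (r x) := (MulAction.orbitRel N Ω).symm h1
    exact h2
  choose t ht using hr
  have hrg : ∀ x, r (g • x) = r x := fun x => by
    have : Quotient.mk (MulAction.orbitRel N Ω) (g • x) = Quotient.mk _ x :=
      Quotient.sound (MulAction.mem_orbit x g)
    simp only [r, this]
  let v : Ω → A := fun x => c (t x) (r x)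
  have key : ∀ x ∈ S, c g x * v x = v (g • x) := by
    intro x hx
    have hrS : r x ∈ S := by
      have := hS (t x)⁻¹ x hx
      rwa [← inv_smul_eq_iff.2 (ht x).symm]
    have h1 : ((t (g • x))⁻¹ * g * t x) • r x = r x := by
      rw [mul_smul, mul_smul, ht, inv_smul_eq_iff, ← hrg x, ht]
    have h2 := hc (t (g • x)) ((t (g • x))⁻¹ * g * t x) (r x)
    rw [h1, hs _ _ hrS h1, mul_one] at h2
    have h3 := hc g (t x) (r x)
    rw [ht] at h3
    have h4 : t (g • x) * ((t (g • x))⁻¹ * g * t x) = g * t x := by group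
    simp only [v]
    rw [← h3, hrg, ← h2, h4]
  have h5 : ∏ x ∈ S, v (g • x) = ∏ x ∈ S, v x := by
    refine Finset.prod_nbij' (fun x => g • x) (fun x => g⁻¹ • x) (fun x hx => hS _ _ hx)
      (fun x hx => hS _ _ hx) (fun x _ => by simp) (fun x _ => by simp) (fun x _ => rfl)
  rw [← Finset.prod_congr rfl key, Finset.prod_mul_distrib] at h5
  simpa using h5

section

variable (U : Type) [Group U]

/-- The subgroups of G isomorphic to U. -/
abbrev Copies (G : Type) [Group G] : Type := {X : Subgroup G // Nonempty (U ≃* X)}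

variable {U}

/-- A chosen isomorphism. -/
noncomputable def Copies.iso {G : Type} [Group G] (X : Copies U G) : U ≃* X.1 := X.2.some

/-- The image under an injective homomorphism. -/
def Copies.map {G H : Type} [Group G] [Group H] (f : G →* H) (hf : Function.Injective f)
    (X : Copies U G) : Copies U H :=
  ⟨X.1.map f, ⟨X.iso.trans (X.1.equivMapOfInjective f hf)⟩⟩

instance (G : Type) [Group G] : MulAction G (Copies U G) where
  smul g X := X.map (MulAut.conj g).toMonoidHom (MulAut.conj g).injective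
  one_smul X := Subtype.ext (by
    show X.1.map (MulAut.conj (1 : G)).toMonoidHom = X.1
    ext x; simp)
  mul_smul g h X := Subtype.ext (by
    show X.1.map (MulAut.conj (g * h)).toMonoidHom =
      (X.1.map (MulAut.conj h).toMonoidHom).map (MulAut.conj g).toMonoidHom
    rw [Subgroup.map_map]
    congr 1
    ext x; simp [mul_assoc])

lemma Copies.smul_val {G : Type} [Group G] (g : G) (X : Copies U G) :
    (g • X).1 = X.1.map (MulAut.conj g).toMonoidHom := rfl

/-- The automorphism of U represents f from X to Y. -/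
def Represents {G H : Type} [Group G] [Group H] (f : G → H) (X : Copies U G) (Y : Copies U H)
    (α : MulAut U) : Prop := ∀ u, (Y.iso (α u) : H) = f (X.iso u : G)

lemma Represents.unique {G H : Type} [Group G] [Group H] {f : G → H} {X : Copies U G}
    {Y : Copies U H} {α β : MulAut U} (h₁ : Represents f X Y α) (h₂ : Represents f X Y β) :
    α = β := by
  ext u
  exact Y.iso.injective (Subtype.ext ((h₁ u).trans (h₂ u).symm))

lemma exists_represents {G H : Type} [Group G] [Group H] (f : G →* H)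
    (hf : Function.Injective f) (X : Copies U G) : ∃ α, Represents f X (X.map f hf) α :=
  ⟨(X.iso.trans (X.1.equivMapOfInjective f hf)).trans (X.map f hf).iso.symm, fun u =>
    congrArg Subtype.val ((X.map f hf).iso.apply_symm_apply
      (X.1.equivMapOfInjective f hf (X.iso u)))⟩

open Classical in
/-- The representing automorphism. -/
noncomputable def coc {G H : Type} [Group G] [Group H] (f : G → H) (X : Copies U G)
    (Y : Copies U H) : MulAut U := if h : ∃ α, Represents f X Y α then h.choose else 1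

lemma coc_eq {G H : Type} [Group G] [Group H] {f : G → H} {X : Copies U G}
    {Y : Copies U H} {α : MulAut U} (h : Represents f X Y α) : coc f X Y = α := by
  have h1 : ∃ α, Represents f X Y α := ⟨α, h⟩
  rw [coc, dif_pos h1]
  exact h1.choose_spec.unique h

lemma represents_coc {G H : Type} [Group G] [Group H] (f : G →* H)
    (hf : Function.Injective f) (X : Copies U G) :
    Represents f X (X.map f hf) (coc f X (X.map f hf)) := by
  obtain ⟨α, h⟩ := exists_represents f hf X
  rw [coc_eq h]; exact h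

lemma represents_conj {G : Type} [Group G] (g : G) (X : Copies U G) :
    Represents (fun x => g * x * g⁻¹) X (g • X) (coc (fun x => g * x * g⁻¹) X (g • X)) :=
  represents_coc (MulAut.conj g).toMonoidHom (MulAut.conj g).injective X

lemma coc_conj_mul {G : Type} [Group G] (g h : G) (X : Copies U G) :
    coc (fun x => (g * h) * x * (g * h)⁻¹) X ((g * h) • X) =
      coc (fun x => g * x * g⁻¹) (h • X) (g • h • X) * coc (fun x => h * x * h⁻¹) X (h • X) := by
  apply coc_eq
  intro u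
  rw [mul_smul, MulAut.mul_apply, represents_conj g (h • X), represents_conj h X]
  group

variable {A : Type u} [CommGroup A] (lam : MulAut U →* A)

/-- The value of the pair. -/
noncomputable def bergerVal (G : Type) [Group G] (g : G) : A :=
  ∏ᶠ X : Copies U G, lam (coc (fun x => g * x * g⁻¹) X (g • X))

lemma bergerVal_mul (G : Type) [Group G] [Finite G] (g h : G) :
    bergerVal lam G (g * h) = bergerVal lam G g * bergerVal lam G h := by
  let := Fintype.ofFinite (Copies U G)
  simp only [bergerVal, finprod_eq_prod_of_fintype, coc_conj_mul, map_mul,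
    Finset.prod_mul_distrib]
  congr 1
  exact Equiv.prod_comp (MulAction.toPerm h)
    (fun X : Copies U G => lam (coc (fun x => g * x * g⁻¹) X (g • X)))

lemma bergerVal_compat (hlam : ∀ α, ¬ Fpf α → lam α = 1) (N G : Type) [Group N] [Group G]
    [Finite G] (φ : N →* G) (hφ : Function.Injective φ) (hn : φ.range.Normal) (n : N) :
    bergerVal lam G (φ n) = bergerVal lam N n := by
  classical
  have : Finite N := Finite.of_injective φ hφ
  let := Fintype.ofFinite (Copies U G)
  let := Fintype.ofFinite (Copies U N)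
  simp only [bergerVal, finprod_eq_prod_of_fintype]
  rw [← Finset.prod_filter_mul_prod_filter_not Finset.univ (fun X : Copies U G => X.1 ≤ φ.range)]
  have h2 : ∏ X ∈ Finset.univ.filter (fun X : Copies U G => ¬ X.1 ≤ φ.range),
      lam (coc (fun x => φ n * x * (φ n)⁻¹) X (φ n • X)) = 1 := by
    let : MulAction N (Copies U G) := MulAction.compHom _ φ
    refine prod_cocycle_eq_one (N := N) _ ?_
      (fun m X => lam (coc (fun x => φ m * x * (φ m)⁻¹) X (φ m • X))) ?_ ?_ n
    · intro m X hX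
      simp only [Finset.mem_filter, Finset.mem_univ, true_and] at hX ⊢
      intro h
      apply hX
      intro x hx
      have h1 : φ m * x * (φ m)⁻¹ ∈ φ.range := h ⟨x, hx, rfl⟩
      have h2 := hn.conj_mem _ h1 (φ m)⁻¹
      simpa [mul_assoc] using h2
    · intro a b X
      simp only [map_mul φ]
      rw [coc_conj_mul, map_mul]
      rfl
    · intro m X hX hfix
      simp only [Finset.mem_filter, Finset.mem_univ, true_and] at hX
      have hfix' : φ m • X = X := hfix
      apply hlam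
      intro hF
      have hrep := represents_conj (φ m) X
      rw [hfix'] at hrep hF
      have h1 := hF (φ.range.comap (X.1.subtype.comp X.iso.toMonoidHom)) inferInstance (by
        intro u
        simp only [mem_comap, MonoidHom.comp_apply, MulEquiv.coe_toMonoidHom, map_mul, map_inv,
          coe_subtype]
        rw [hrep u]
        have h2 := hn.conj_mem (φ m) ⟨m, rfl⟩ ((X.iso u : G))⁻¹
        have h3 := mul_mem h2 (inv_mem (show φ m ∈ φ.range from ⟨m, rfl⟩))
        simpa [mul_assoc] using h3)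
      apply hX
      intro x hx
      have h4 : X.iso.symm ⟨x, hx⟩ ∈ φ.range.comap (X.1.subtype.comp X.iso.toMonoidHom) := by
        rw [h1]; trivial
      simpa using h4
  rw [h2, mul_one]
  have hmap : ∀ X : Copies U N, φ n • X.map φ hφ = (n • X).map φ hφ := fun X => Subtype.ext (by
    show (X.1.map φ).map (MulAut.conj (φ n)).toMonoidHom =
      (X.1.map (MulAut.conj n).toMonoidHom).map φ
    rw [Subgroup.map_map, Subgroup.map_map]
    congr 1
    ext x; simp)
  let v : Copies U N → A := fun X => lam (coc φ X (X.map φ hφ))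
  have key : ∀ X : Copies U N,
      lam (coc (fun x => φ n * x * (φ n)⁻¹) (X.map φ hφ) (φ n • X.map φ hφ)) * v X =
        v (n • X) * lam (coc (fun x => n * x * n⁻¹) X (n • X)) := by
    intro X
    simp only [v, ← map_mul]
    congr 1
    refine Represents.unique (f := fun x => φ (n * x * n⁻¹)) (X := X) (Y := (n • X).map φ hφ)
      ?_ ?_
    · intro u
      rw [← hmap, MulAut.mul_apply, represents_conj (φ n) (X.map φ hφ), represents_coc φ hφ X]
      simp
    · intro u
      rw [MulAut.mul_apply, represents_coc φ hφ (n • X), represents_conj n X]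
  have h3 : ∏ X ∈ Finset.univ.filter (fun X : Copies U G => X.1 ≤ φ.range),
      lam (coc (fun x => φ n * x * (φ n)⁻¹) X (φ n • X)) =
      ∏ X : Copies U N,
        lam (coc (fun x => φ n * x * (φ n)⁻¹) (X.map φ hφ) (φ n • X.map φ hφ)) := by
    symm
    refine Finset.prod_nbij (fun X => X.map φ hφ) ?_ ?_ ?_ (fun _ _ => rfl)
    · intro X _
      simp only [Finset.mem_filter, Finset.mem_univ, true_and]
      exact map_le_range φ X.1
    · intro X _ Y _ hXY
      exact Subtype.ext (map_injective hφ (congrArg Subtype.val hXY))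
    · intro Y hY
      simp only [Finset.coe_filter, Finset.mem_univ, true_and, Set.mem_ofPred_eq] at hY
      have hY' : (Y.1.comap φ).map φ = Y.1 := map_comap_eq_self hY
      refine ⟨⟨Y.1.comap φ, ⟨Y.iso.trans ((MulEquiv.subgroupCongr hY'.symm).trans
        ((Y.1.comap φ).equivMapOfInjective φ hφ).symm)⟩⟩, by simp, Subtype.ext hY'⟩
  rw [h3]
  have h4 := Finset.prod_congr (s₁ := Finset.univ) rfl (fun X _ => key X)
  rw [Finset.prod_mul_distrib, Finset.prod_mul_distrib] at h4
  have h5 : ∏ X : Copies U N, v (n • X) = ∏ X : Copies U N, v X :=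
    Equiv.prod_comp (MulAction.toPerm n) v
  rw [h5, mul_comm] at h4
  exact mul_left_cancel h4

/-- The pair on the class of all finite soluble groups. -/
noncomputable def bergerPair (hlam : ∀ α, ¬ Fpf α → lam α = 1) : Pair solubleClass A where
  val := bergerVal lam
  map_mul G _ hG a b := by
    have := hG.1
    exact bergerVal_mul lam G a b
  compat N G _ _ φ hG h1 h2 n := by
    have := hG.1
    exact bergerVal_compat lam hlam N G φ h1 h2 n

lemma bergerVal_of_isEmpty {G : Type} [Group G] (h : ∀ X : Subgroup G, IsEmpty (U ≃* X))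
    (g : G) : bergerVal lam G g = 1 := by
  have : IsEmpty (Copies U G) := ⟨fun X => (h X.1).false X.iso⟩
  exact finprod_of_isEmpty _

lemma bergerVal_of_unique {G : Type} [Group G] (ι : U →* G) (hι : Function.Injective ι)
    (h : ∀ X : Subgroup G, Nonempty (U ≃* X) → X = ι.range) (g : G) (α : MulAut U)
    (hα : ∀ u, ι (α u) = g * ι u * g⁻¹) : bergerVal lam G g = lam α := by
  let X₀ : Copies U G := ⟨ι.range, ⟨MonoidHom.ofInjective hι⟩⟩
  have hu : ∀ X : Copies U G, X = X₀ := fun X => Subtype.ext (h X.1 X.2)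
  let : Unique (Copies U G) := ⟨⟨X₀⟩, hu⟩
  rw [bergerVal, finprod_unique, hu (g • default), hu default]
  let β : MulAut U := (MonoidHom.ofInjective hι).trans X₀.iso.symm
  have hβ : ∀ u, (X₀.iso (β u) : G) = ι u := fun u => by
    simp only [β, MulEquiv.trans_apply, MulEquiv.apply_symm_apply]
    rfl
  have h1 : coc (fun x => g * x * g⁻¹) X₀ X₀ = β * α * β⁻¹ := by
    apply coc_eq
    intro u
    rw [MulAut.mul_apply, MulAut.mul_apply, hβ, hα, ← hβ]
    simp
  rw [h1, map_mul, map_mul, map_inv, mul_inv_cancel_comm]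

end

end Pool.Agent.MP_060950_al

end

-- part MP_060950_al.Extend
section

/-!
On groups that are extensions of a p-group by an r-group, the values of any Fitting pair at
r-elements are values of a Fitting pair defined on all finite soluble groups.
-/

namespace Pool.Agent.MP_060950_al

open Subgroup SemidirectProduct

universe u

lemma mem_of_pow_mem_of_coprime {G : Type} [Group G] {N : Subgroup G} {x : G} {a b : ℕ}
    (hab : a.Coprime b) (ha : x ^ a ∈ N) (hb : x ^ b ∈ N) : x ∈ N := by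
  have h := Nat.gcd_eq_gcd_ab a b
  rw [hab.gcd_eq_one] at h
  have : x = (x ^ a) ^ (Nat.gcdA a b) * (x ^ b) ^ (Nat.gcdB a b) := by
    rw [← zpow_natCast, ← zpow_natCast, ← zpow_mul, ← zpow_mul, ← zpow_add, ← h]; simp
  rw [this]
  exact mul_mem (zpow_mem ha _) (zpow_mem hb _)

lemma eq_one_of_pow_of_coprime {A : Type u} [Group A] {x : A} {a b : ℕ}
    (hab : a.Coprime b) (ha : x ^ a = 1) (hb : x ^ b = 1) : x = 1 := by
  have := Nat.dvd_gcd (orderOf_dvd_of_pow_eq_one ha) (orderOf_dvd_of_pow_eq_one hb)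
  rw [hab.gcd_eq_one] at this
  exact orderOf_eq_one_iff.1 (Nat.dvd_one.1 this)

lemma isPGroup_zpowers {G : Type} [Group G] {r n : ℕ} {g : G} (h : g ^ r ^ n = 1) :
    IsPGroup r (zpowers g) := by
  rintro ⟨_, k, rfl⟩
  refine ⟨n, Subtype.ext ?_⟩
  simp only [SubgroupClass.coe_pow, OneMemClass.coe_one]
  rw [← zpow_natCast, ← zpow_mul, mul_comm, zpow_mul, zpow_natCast, h, one_zpow]

instance {U T : Type} [Group U] [Group T] [Finite U] [Finite T] (φ : T →* MulAut U) :
    Finite (U ⋊[φ] T) := Finite.of_equiv _ SemidirectProduct.equivProd.symm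

instance {U T : Type} [Group U] [Group T] (φ : T →* MulAut U) :
    (inl : U →* U ⋊[φ] T).range.Normal := by
  rw [range_inl_eq_ker_rightHom]; infer_instance

lemma pow_mem_range_inl {U T : Type} [Group U] [Group T] (φ : T →* MulAut U) (x : U ⋊[φ] T)
    {m : ℕ} (h : x.right ^ m = 1) : x ^ m ∈ (inl : U →* U ⋊[φ] T).range := by
  rw [range_inl_eq_ker_rightHom, MonoidHom.mem_ker, map_pow]
  exact h

section

variable {X : GroupClass} {A : Type u} [CommGroup A] (d : Pair X A) (hX : IsFitting X)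
  {r : ℕ} [Fact r.Prime]

include hX

lemma val_sd_aux {U T U' T' S : Type} [Group U] [Group T] [Group U'] [Group T'] [Group S]
    (φ : S →* MulAut U) (φ' : T' →* MulAut U') (e : U ≃* U') (a : S →* T') (b : S →* T)
    (hab : ∀ s, a s = 1 → b s = 1 → s = 1) (h : ∀ s u, e (φ s u) = φ' (a s) (e u))
    (hT : IsPGroup r T) (hT' : IsPGroup r T') (h1 : X (U' ⋊[φ'] T')) (h2 : X T) (s : S) :
    d.val (U ⋊[φ] S) (inr s) = d.val (U' ⋊[φ'] T') (inr (a s)) := by
  have := hX.finite h1
  have := hX.finite h2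
  let ψ : U ⋊[φ] S →* (U' ⋊[φ'] T') × T :=
    (SemidirectProduct.map e.toMonoidHom a (fun s => by ext u; exact h s u)).prod
      (b.comp rightHom)
  have hψ : Function.Injective ψ := by
    rw [injective_iff_map_eq_one]
    intro x hx
    have k1 : e x.left = 1 := congrArg (fun z : (U' ⋊[φ'] T') × T => z.1.left) hx
    have k2 : a x.right = 1 := congrArg (fun z : (U' ⋊[φ'] T') × T => z.1.right) hx
    have k3 : b x.right = 1 := congrArg (fun z : (U' ⋊[φ'] T') × T => z.2) hx
    ext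
    · simpa using k1
    · exact hab _ k2 k3
  have hs : ψ.range.IsSubnormal := by
    refine isSubnormal_of_pow_mem (p := r) ((inl : U' →* U' ⋊[φ'] T').range.prod ⊥) ?_ ?_
    · rintro ⟨x, t⟩
      obtain ⟨n, hn⟩ := hT' x.right
      obtain ⟨m, hm⟩ := hT t
      refine ⟨n + m, pow_mem_range_inl φ' x ?_, ?_⟩
      · rw [pow_add, pow_mul, hn, one_pow]
      · show t ^ r ^ (n + m) ∈ (⊥ : Subgroup T)
        rw [add_comm, pow_add, pow_mul, hm, one_pow]; exact one_mem _
    · rintro ⟨_, t⟩ ⟨⟨u, rfl⟩, ht⟩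
      have ht' : t = 1 := ht
      refine ⟨inl (e.symm u), ?_⟩
      rw [ht']
      ext <;> simp [ψ]
  have h3 := d.compat_subnormal hX ψ (hX.prod_mem h1 h2) hψ hs (inr s)
  have h4 : ψ (inr s) = (inr (a s), b s) := by ext <;> simp [ψ]
  rw [← h3, h4, d.val_prod (hX.prod_mem h1 h2), d.val_pGroup hX h2 hT, mul_one]

lemma val_sd_congr {U T U' T' : Type} [Group U] [Group T] [Group U'] [Group T']
    (φ : T →* MulAut U) (φ' : T' →* MulAut U') (e : U ≃* U') (t : T) (t' : T')
    (h : ∀ u, e (φ t u) = φ' t' (e u))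
    (hT : IsPGroup r T) (hT' : IsPGroup r T') (h1 : X (U ⋊[φ] T)) (h1' : X (U' ⋊[φ'] T'))
    (h2 : X T) (h2' : X T') :
    d.val (U ⋊[φ] T) (inr t) = d.val (U' ⋊[φ'] T') (inr t') := by
  let S : Subgroup (T × T') :=
    { carrier := {s | ∀ u, e (φ s.1 u) = φ' s.2 (e u)}
      mul_mem' := fun {x y} hx hy u => by
        simp only [Prod.fst_mul, Prod.snd_mul, map_mul, MulAut.mul_apply]
        rw [hx, hy]
      one_mem' := fun u => by simp
      inv_mem' := fun {x} hx u => by
        apply (φ' x.2).injective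
        rw [← hx]
        simp }
  let a : S →* T := (MonoidHom.fst T T').comp S.subtype
  let b : S →* T' := (MonoidHom.snd T T').comp S.subtype
  have k1 := val_sd_aux d hX (φ.comp a) φ (MulEquiv.refl U) a b
    (fun s h1 h2 => Subtype.ext (Prod.ext h1 h2)) (fun _ _ => rfl) hT' hT h1 h2' ⟨(t, t'), h⟩
  have k2 := val_sd_aux d hX (φ.comp a) φ' e b a
    (fun s h1 h2 => Subtype.ext (Prod.ext h2 h1)) (fun s u => s.2 u) hT hT' h1' h2 ⟨(t, t'), h⟩
  exact k1.symm.trans k2

omit [Fact r.Prime] in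
lemma val_eq_sd {G : Type} [Group G] (hG : X G) (N : Subgroup G) [N.Normal] (g : G)
    (hd : Disjoint N (zpowers g)) (hs : (N ⊔ zpowers g).IsSubnormal) :
    d.val G g = d.val (N ⋊[(MulAut.conjNormal : G →* MulAut N).comp (zpowers g).subtype]
      zpowers g) (inr ⟨g, mem_zpowers g⟩) := by
  let ψ : N ⋊[(MulAut.conjNormal : G →* MulAut N).comp (zpowers g).subtype] zpowers g →* G :=
    SemidirectProduct.lift N.subtype (zpowers g).subtype (fun s => by ext u; simp)
  have hψ : Function.Injective ψ := by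
    rw [injective_iff_map_eq_one]
    intro x hx
    have k1 : (x.left : G) * (x.right : G) = 1 := hx
    have k2 : (x.left : G) = (x.right : G)⁻¹ := eq_inv_of_mul_eq_one_left k1
    have k3 : (x.left : G) = 1 :=
      Subgroup.disjoint_def.1 hd x.left.2 (k2 ▸ inv_mem x.right.2)
    rw [k3, one_mul] at k1
    ext
    · exact k3
    · exact k1
  have hr : ψ.range = N ⊔ zpowers g := by
    apply le_antisymm
    · rintro _ ⟨x, rfl⟩
      exact mul_mem_sup x.left.2 x.right.2
    · refine sup_le (fun n hn => ⟨inl ⟨n, hn⟩, by simp [ψ]⟩) (fun n hn => ⟨inr ⟨n, hn⟩, by simp [ψ]⟩)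
  rw [← d.compat_subnormal hX ψ hG hψ (hr ▸ hs)]
  simp [ψ]

end

/-- Finite extensions of a p-group by an r-group. -/
def PQ (p r : ℕ) (G : Type) [Group G] : Prop :=
  Finite G ∧ ∃ P : Subgroup G, P.Normal ∧ IsPGroup p P ∧ ∀ g : G, ∃ n : ℕ, g ^ r ^ n ∈ P

lemma PQ.sd {p r : ℕ} {U T : Type} [Group U] [Group T] [Finite U] [Finite T]
    (φ : T →* MulAut U) (hU : IsPGroup p U) (hT : IsPGroup r T) : PQ p r (U ⋊[φ] T) :=
  ⟨inferInstance, (inl : U →* U ⋊[φ] T).range, inferInstance,
    hU.of_equiv (MonoidHom.ofInjective inl_injective), fun x => by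
      obtain ⟨n, hn⟩ := hT x.right
      exact ⟨n, pow_mem_range_inl φ x hn⟩⟩

lemma PQ.of_pGroup {p r : ℕ} {T : Type} [Group T] [Finite T] (hT : IsPGroup r T) : PQ p r T :=
  ⟨inferInstance, ⊥, inferInstance, IsPGroup.of_bot, fun x => by
    obtain ⟨n, hn⟩ := hT x
    exact ⟨n, by rw [hn]; exact one_mem _⟩⟩

/-- The pair vanishes at the r-elements acting on copies of V. -/
def Vanishes {X : GroupClass} {A : Type u} [CommGroup A] (f : Pair X A) (r : ℕ) (V : Type)
    [Group V] : Prop :=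
  ∀ (U T : Type) [Group U] [Group T] [Finite T] (φ : T →* MulAut U), IsPGroup r T →
    Nonempty (U ≃* V) → ∀ t, f.val (U ⋊[φ] T) (inr t) = 1

section

variable {X : GroupClass} {A : Type u} [CommGroup A] (hX : IsFitting X)
  {p r : ℕ} [Fact p.Prime] [Fact r.Prime] (hpr : p ≠ r)
  (hPQ : ∀ (G : Type) [Group G], PQ p r G → X G)

include hX hpr hPQ

lemma val_eq_one_of_not_fpf (f : Pair X A) {V T : Type} [Group V] [Finite V] [Group T] [Finite T]
    (hV : IsPGroup p V) (hT : IsPGroup r T) (φ : T →* MulAut V)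
    (ih : ∀ N : Subgroup V, N.Normal → N ≠ ⊤ → Vanishes f r N) (t : T) (ht : ¬ Fpf (φ t)) :
    f.val (V ⋊[φ] T) (inr t) = 1 := by
  simp only [Fpf, not_forall] at ht
  obtain ⟨N₀, hN₀, hN₀t, hne⟩ := ht
  let T₀ := zpowers t
  have hT₀ : IsPGroup r T₀ := hT.to_subgroup _
  let φ₀ : T₀ →* MulAut V := φ.comp T₀.subtype
  rw [val_sd_congr f hX φ φ₀ (MulEquiv.refl V) t ⟨t, mem_zpowers t⟩ (fun _ => rfl) hT hT₀
    (hPQ _ (PQ.sd φ hV hT)) (hPQ _ (PQ.sd φ₀ hV hT₀)) (hPQ _ (PQ.of_pGroup hT))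
    (hPQ _ (PQ.of_pGroup hT₀))]
  have hall : ∀ (s : T₀) (u : V), u⁻¹ * φ₀ s u ∈ N₀ := by
    let S : Subgroup T :=
      { carrier := {s | ∀ u, u⁻¹ * φ s u ∈ N₀}
        mul_mem' := fun {x y} hx hy u => by
          have := mul_mem (hy u) (hx (φ y u))
          simpa [mul_assoc] using this
        one_mem' := fun u => by simp
        inv_mem' := fun {x} hx u => by
          have := inv_mem (hx ((φ x)⁻¹ u))
          simpa using this }
    intro s u
    exact (zpowers_le.2 (show t ∈ S from hN₀t) : zpowers t ≤ S) s.2 u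
  let N : Subgroup (V ⋊[φ₀] T₀) := N₀.map inl
  have hN : N.Normal := by
    constructor
    rintro _ ⟨n, hn, rfl⟩ x
    refine ⟨x.left * φ₀ x.right n * x.left⁻¹, hN₀.conj_mem _ ?_ _, ?_⟩
    · have := mul_mem hn (hall x.right n)
      simpa using this
    · ext <;> simp
  let g : V ⋊[φ₀] T₀ := inr ⟨t, mem_zpowers t⟩
  obtain ⟨n, hn⟩ := hT₀ ⟨t, mem_zpowers t⟩
  have hg : g ^ r ^ n = 1 := by rw [← map_pow, hn, map_one]
  have hNp : IsPGroup p N := (hV.to_subgroup N₀).map _
  have hsup : (N ⊔ zpowers g).Normal := by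
    have h1 : N ⊔ zpowers g = (zpowers (QuotientGroup.mk' N g)).comap (QuotientGroup.mk' N) := by
      rw [← MonoidHom.map_zpowers (QuotientGroup.mk' N), comap_map_eq, QuotientGroup.ker_mk',
        sup_comm]
    rw [h1]
    have h2 : QuotientGroup.mk' N g ∈ center ((V ⋊[φ₀] T₀) ⧸ N) := by
      rw [mem_center_iff]
      intro y
      obtain ⟨x, rfl⟩ := QuotientGroup.mk'_surjective N y
      rw [← map_mul, ← map_mul, QuotientGroup.mk'_apply, QuotientGroup.mk'_apply,
        QuotientGroup.eq_iff_div_mem]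
      have hc : x.right * ⟨t, mem_zpowers t⟩ = ⟨t, mem_zpowers t⟩ * x.right := mul_comm' _ _
      refine ⟨x.left * (φ₀ ⟨t, mem_zpowers t⟩ x.left)⁻¹, ?_, ?_⟩
      · have := hN₀.conj_mem _ (inv_mem (hall ⟨t, mem_zpowers t⟩ x.left)) x.left
        simpa [mul_assoc] using this
      · rw [eq_div_iff_mul_eq']
        ext
        · simp [g]
        · simp [g, hc]
    have h3 : (zpowers (QuotientGroup.mk' N g)).Normal := by
      constructor
      intro a ha b
      have := mem_center_iff.1 (zpowers_le.2 h2 ha) b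
      rw [this, mul_inv_cancel_right]
      exact ha
    infer_instance
  rw [val_eq_sd f hX (hPQ _ (PQ.sd φ₀ hV hT₀)) N g
    (IsPGroup.disjoint_of_ne p r hpr _ _ hNp (isPGroup_zpowers hg)) hsup.isSubnormal]
  exact ih N₀ hN₀ hne _ _ _ (isPGroup_zpowers hg)
    ⟨(N₀.equivMapOfInjective inl inl_injective).symm⟩ _

lemma exists_lam (f : Pair X A) {V : Type} [Group V] [Finite V] (hV : IsPGroup p V)
    (ih : ∀ N : Subgroup V, N.Normal → N ≠ ⊤ → Vanishes f r N) :
    ∃ lam : MulAut V →* A, (∀ α, ¬ Fpf α → lam α = 1) ∧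
      ∀ (U T : Type) [Group U] [Group T] [Finite T] (φ : T →* MulAut U) (e : U ≃* V),
        IsPGroup r T → ∀ t, lam (MulAut.congr e (φ t)) = f.val (U ⋊[φ] T) (inr t) := by
  let S : Sylow r (MulAut V) := default
  have hS : IsPGroup r S := S.2
  have hXS : X (V ⋊[(S : Subgroup (MulAut V)).subtype] S) := hPQ _ (PQ.sd _ hV hS)
  let δ : S →* A := (f.hom hXS).comp inr
  have hδ : ∀ (U T : Type) [Group U] [Group T] [Finite T] (φ : T →* MulAut U) (e : U ≃* V),
      IsPGroup r T → ∀ (t : T) (s : S), (∀ u, e (φ t u) = (s : MulAut V) (e u)) →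
        δ s = f.val (U ⋊[φ] T) (inr t) := by
    intro U T _ _ _ φ e hT t s h
    have : Finite U := Finite.of_equiv V e.symm
    exact (val_sd_congr f hX φ _ e t s h hT hS (hPQ _ (PQ.sd φ (hV.of_equiv e.symm) hT)) hXS
      (hPQ _ (PQ.of_pGroup hT)) (hPQ _ (PQ.of_pGroup hS))).symm
  have hfus : ∀ (s : S) (k : ℕ) (β : MulAut V) (h : β⁻¹ * (s : MulAut V) ^ k * β ∈ S.1),
      δ ⟨β⁻¹ * (s : MulAut V) ^ k * β, h⟩ = δ s ^ k := by
    intro s k β h
    rw [← map_pow]
    exact hδ V S (S : Subgroup (MulAut V)).subtype β⁻¹ hS (s ^ k) _ (fun u => by simp)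
  let τ : MulAut V →* A := MonoidHom.transfer δ
  have hτ : ∀ s : S, τ s = δ s ^ (S : Subgroup (MulAut V)).index := by
    intro s
    have : Fintype (Quotient (MulAction.orbitRel (zpowers (s : MulAut V))
      (MulAut V ⧸ (S : Subgroup (MulAut V))))) := Fintype.ofFinite _
    rw [index_eq_sum_minimalPeriod _ (s : MulAut V), ← Finset.prod_pow_eq_pow_sum,
      MonoidHom.transfer_eq_prod_quotient_orbitRel_zpowers_quot]
    exact Finset.prod_congr rfl (fun q _ => hfus s _ _ _)
  have hτm : ∀ α, τ α ^ Nat.card S = 1 := by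
    intro α
    have : Fintype (Quotient (MulAction.orbitRel (zpowers α)
      (MulAut V ⧸ (S : Subgroup (MulAut V))))) := Fintype.ofFinite _
    rw [MonoidHom.transfer_eq_prod_quotient_orbitRel_zpowers_quot, ← Finset.prod_pow]
    exact Finset.prod_eq_one (fun q _ => by rw [← map_pow, pow_card_eq_one', map_one])
  obtain ⟨a, ha⟩ := IsPGroup.iff_card.1 hS
  have hcop : ((S : Subgroup (MulAut V)).index).Coprime (Nat.card S) := by
    rw [ha]
    exact (((Fact.out : r.Prime).coprime_iff_not_dvd.2 S.not_dvd_index).symm).pow_right a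
  obtain ⟨k, hk⟩ : ∃ k : ℕ, (S : Subgroup (MulAut V)).index * k ≡ 1 [MOD Nat.card S] := by
    obtain ⟨k, hk⟩ := Nat.exists_mul_mod_eq_of_coprime 1 hcop (Nat.card_pos (α := S)).ne'
    exact ⟨k, hk.2⟩
  let lam : MulAut V →* A := (powMonoidHom k).comp τ
  have hlamS : ∀ s : S, lam s = δ s := by
    intro s
    simp only [lam, MonoidHom.comp_apply, powMonoidHom_apply]
    rw [hτ, ← pow_mul, ← map_pow, pow_eq_pow_iff_modEq.2 (hk.of_dvd (orderOf_dvd_natCard s)),
      pow_one]
  have hlam : ∀ (U T : Type) [Group U] [Group T] [Finite T] (φ : T →* MulAut U) (e : U ≃* V),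
      IsPGroup r T → ∀ t, lam (MulAut.congr e (φ t)) = f.val (U ⋊[φ] T) (inr t) := by
    intro U T _ _ _ φ e hT t
    obtain ⟨n, hn⟩ := hT t
    have h1 : (MulAut.congr e (φ t)) ^ r ^ n = 1 := by
      rw [← map_pow, ← map_pow, hn, map_one, map_one]
    obtain ⟨S', hS'⟩ := (isPGroup_zpowers h1).exists_le_sylow
    obtain ⟨β, hβ⟩ := MulAction.exists_smul_eq (MulAut V) S' S
    have h2 : β * MulAut.congr e (φ t) * β⁻¹ ∈ S.1 := by
      rw [← hβ]
      exact ⟨_, hS' (mem_zpowers _), rfl⟩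
    have h3 : lam (MulAut.congr e (φ t)) = lam (β * MulAut.congr e (φ t) * β⁻¹) := by
      rw [map_mul, map_mul, map_inv, mul_inv_cancel_comm]
    rw [h3]
    exact (hlamS ⟨_, h2⟩).trans (hδ U T φ (e.trans β) hT t ⟨_, h2⟩ (fun u => by simp))
  refine ⟨lam, ?_, hlam⟩
  intro α hα
  obtain ⟨b, m, hm, hbm⟩ := Nat.exists_eq_pow_mul_and_not_dvd (orderOf_pos α).ne' r
    (Fact.out : r.Prime).ne_one
  have h1 : (α ^ m) ^ r ^ b = 1 := by rw [← pow_mul, mul_comm, ← hbm, pow_orderOf_eq_one]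
  have h2 : ¬ Fpf (α ^ m) := by
    intro hF
    apply hα
    intro N hN hNα
    refine hF N hN ?_
    clear hbm hm h1 hF
    induction m with
    | zero => intro u; simp
    | succ m ihm =>
      intro u
      have := mul_mem (hNα u) (ihm (α u))
      simpa [pow_succ, mul_assoc] using this
  have h3 := hlam V (zpowers (α ^ m)) (zpowers (α ^ m)).subtype (MulEquiv.refl V)
    (isPGroup_zpowers h1) ⟨_, mem_zpowers _⟩
  rw [val_eq_one_of_not_fpf hX hpr hPQ f hV (isPGroup_zpowers h1) _ ih _ h2] at h3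
  have h4 : lam α ^ m = 1 := by
    rw [← map_pow, ← h3]
    congr 1
  have h5 : lam α ^ Nat.card S = 1 := by
    simp only [lam, MonoidHom.comp_apply, powMonoidHom_apply]
    rw [← pow_mul, mul_comm, pow_mul, hτm, one_pow]
  refine eq_one_of_pow_of_coprime ?_ h4 h5
  rw [ha]
  exact (((Fact.out : r.Prime).coprime_iff_not_dvd.2 hm).symm).pow_right a

omit hX hPQ in
lemma le_range_inl {U T : Type} [Group U] [Group T] (φ : T →* MulAut U) (hT : IsPGroup r T)
    {Y : Subgroup (U ⋊[φ] T)} (hY : IsPGroup p Y) : Y ≤ (inl : U →* U ⋊[φ] T).range := by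
  intro y hy
  obtain ⟨n, hn⟩ := hY ⟨y, hy⟩
  obtain ⟨m, hm⟩ := hT y.right
  refine mem_of_pow_mem_of_coprime (a := p ^ n) (b := r ^ m)
    (Nat.Coprime.pow _ _ ((Nat.coprime_primes Fact.out Fact.out).2 hpr)) ?_
    (pow_mem_range_inl φ y hm)
  have : y ^ p ^ n = 1 := congrArg Subtype.val hn
  rw [this]; exact one_mem _

lemma exists_extension (d : Pair X A) {P : Type} [Group P] [Finite P] (hP : IsPGroup p P)
    (𝒰 : Finset (Subgroup P)) (h𝒰 : ∀ V ∈ 𝒰, ∀ V' ≤ V, V' ∈ 𝒰) :
    ∃ e : Pair solubleClass A, ∀ V ∈ 𝒰, Vanishes (d.div (e.restrict hX.soluble)) r V := by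
  classical
  induction hn : 𝒰.card generalizing 𝒰 with
  | zero =>
    rw [Finset.card_eq_zero] at hn
    subst hn
    exact ⟨Pair.one _ _, fun V hV => absurd hV (Finset.notMem_empty V)⟩
  | succ n ih =>
    have hne : 𝒰.Nonempty := Finset.card_pos.1 (by omega)
    obtain ⟨V, hV, hmax⟩ := 𝒰.exists_max_image (fun V => Nat.card V) hne
    obtain ⟨e, he⟩ := ih (𝒰.erase V) (by
      intro W hW W' hle
      rw [Finset.mem_erase] at hW ⊢
      refine ⟨?_, h𝒰 W hW.2 W' hle⟩
      rintro rfl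
      exact hW.1 (Subgroup.eq_of_le_of_card_ge hle (hmax W hW.2)).symm)
      (by rw [Finset.card_erase_of_mem hV, hn]; rfl)
    by_cases hiso : ∃ W ∈ 𝒰.erase V, Nonempty (V ≃* W)
    · obtain ⟨W, hW, ⟨eW⟩⟩ := hiso
      refine ⟨e, fun V' hV' => ?_⟩
      by_cases h : V' = V
      · subst h
        intro U T _ _ _ φ hT ⟨eU⟩ t
        exact he W hW U T φ hT ⟨eU.trans eW⟩ t
      · exact he V' (Finset.mem_erase.2 ⟨h, hV'⟩)
    · have hVp : IsPGroup p V := hP.to_subgroup V
      obtain ⟨lam, hlam, hlam'⟩ := exists_lam hX hpr hPQ (d.div (e.restrict hX.soluble)) hVp (by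
        intro N _ hN U T _ _ _ φ hT ⟨eU⟩ t
        refine he (N.map V.subtype) (Finset.mem_erase.2 ⟨?_, h𝒰 V hV _ (map_subtype_le N)⟩) U T φ hT
          ⟨eU.trans (N.equivMapOfInjective _ V.subtype_injective)⟩ t
        intro h
        apply hN
        apply map_injective V.subtype_injective
        rw [h, ← MonoidHom.range_eq_map, range_subtype])
      refine ⟨e.mul (bergerPair lam hlam), fun V' hV' U T _ _ _ φ hT ⟨eU⟩ t => ?_⟩
      have : Finite U := Finite.of_equiv V' eU.symm
      show d.val _ _ / (e.val _ _ * bergerVal lam _ _) = 1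
      rw [← div_div]
      by_cases h : V' = V
      · subst h
        rw [bergerVal_of_unique lam (inl.comp eU.symm.toMonoidHom)
          (inl_injective.comp eU.symm.injective) ?_ (inr t) (MulAut.congr eU (φ t)) ?_,
          hlam' U T φ eU hT t]
        · exact div_self' _
        · rintro Y ⟨eY⟩
          have hr : (inl.comp eU.symm.toMonoidHom : V' →* U ⋊[φ] T).range = inl.range := by
            rw [MonoidHom.range_comp, MonoidHom.range_eq_top.2 eU.symm.surjective,
              ← MonoidHom.range_eq_map]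
          rw [hr]
          refine Subgroup.eq_of_le_of_card_ge (le_range_inl hpr φ hT (hVp.of_equiv eY)) ?_
          rw [← Nat.card_congr eY.toEquiv, ← Nat.card_congr eU.toEquiv,
            ← Nat.card_congr (MonoidHom.ofInjective inl_injective).toEquiv]
        · intro u
          simp [inl_aut]
      · have hV'' := Finset.mem_erase.2 ⟨h, hV'⟩
        rw [bergerVal_of_isEmpty lam ?_, div_one]
        · exact he V' hV'' U T φ hT ⟨eU⟩ t
        · intro Y
          refine ⟨fun eY => hiso ⟨V', hV'', ?_⟩⟩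
          have h1 : Y = (inl : U →* U ⋊[φ] T).range := by
            refine Subgroup.eq_of_le_of_card_ge (le_range_inl hpr φ hT (hVp.of_equiv eY)) ?_
            rw [← Nat.card_congr eY.toEquiv,
              ← Nat.card_congr (MonoidHom.ofInjective inl_injective).toEquiv,
              Nat.card_congr eU.toEquiv]
            exact hmax V' hV'
          exact ⟨(eY.trans (MulEquiv.subgroupCongr h1)).trans
            ((MonoidHom.ofInjective inl_injective).symm.trans eU)⟩

theorem val_eq_one_of_PQ (d : Pair X A) {G : Type} [Group G] (hG : PQ p r G)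
    (hS : lowerStar solubleClass G) (g : G) {n : ℕ} (hg : g ^ r ^ n = 1) : d.val G g = 1 := by
  have hXG := hPQ G hG
  obtain ⟨_, P, hPn, hP, hpow⟩ := hG
  let := Fintype.ofFinite (Subgroup P)
  obtain ⟨e, he⟩ := exists_extension hX hpr hPQ d hP Finset.univ (fun _ _ _ _ => Finset.mem_univ _)
  have h1 := val_eq_sd (d.div (e.restrict hX.soluble)) hX hXG P g
    (IsPGroup.disjoint_of_ne p r hpr _ _ hP (isPGroup_zpowers hg))
    (isSubnormal_of_pow_mem P hpow le_sup_left)
  rw [he ⊤ (Finset.mem_univ _) _ _ _ (isPGroup_zpowers hg) ⟨Subgroup.topEquiv.symm⟩] at h1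
  have h2 : d.val G g / e.val G g = 1 := h1
  rwa [e.val_eq_one_of_lowerStar soluble_fitting hS, div_one] at h2

end

end Pool.Agent.MP_060950_al

end

-- part MP_060950_al.Tower
section

/-!
Groups with a Sylow tower of type 2, 7, 3.
-/

namespace Pool.Agent.MP_060950_al

open Subgroup

universe u

/-- The order of g divides a power of n. -/
def El {G : Type u} [Group G] (n : ℕ) (g : G) : Prop := ∃ k : ℕ, g ^ n ^ k = 1

namespace El

variable {G : Type u} [Group G] {n : ℕ} {g : G}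

lemma one : El n (1 : G) := ⟨0, one_pow _⟩

lemma map {H : Type*} [Group H] (f : G →* H) (h : El n g) : El n (f g) := by
  obtain ⟨k, hk⟩ := h
  exact ⟨k, by rw [← map_pow, hk, map_one]⟩

lemma of_map {H : Type*} [Group H] (f : G →* H) (hf : Function.Injective f) (h : El n (f g)) :
    El n g := by
  obtain ⟨k, hk⟩ := h
  exact ⟨k, hf (by rw [map_pow, hk, map_one])⟩

lemma inv (h : El n g) : El n g⁻¹ := by
  obtain ⟨k, hk⟩ := h
  exact ⟨k, by rw [inv_pow, hk, inv_one]⟩

lemma pow (h : El n g) (m : ℕ) : El n (g ^ m) := by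
  obtain ⟨k, hk⟩ := h
  exact ⟨k, by rw [← pow_mul, mul_comm, pow_mul, hk, one_pow]⟩

lemma conj (h : El n g) (x : G) : El n (x * g * x⁻¹) := h.map (MulAut.conj x).toMonoidHom

lemma pow_split {a b : ℕ} (h : El (a * b) g) : ∃ k, El a (g ^ b ^ k) := by
  obtain ⟨k, hk⟩ := h
  exact ⟨k, k, by rw [← pow_mul, ← mul_pow, mul_comm b a, hk]⟩

lemma mono {a b : ℕ} (hab : a ∣ b) (h : El a g) : El b g := by
  obtain ⟨k, hk⟩ := h
  obtain ⟨c, rfl⟩ := hab
  exact ⟨k, by rw [mul_pow, pow_mul, hk, one_pow]⟩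

lemma eq_one {a b : ℕ} (hab : a.Coprime b) (ha : El a g) (hb : El b g) : g = 1 := by
  obtain ⟨k, hk⟩ := ha
  obtain ⟨l, hl⟩ := hb
  exact eq_one_of_pow_of_coprime (Nat.Coprime.pow k l hab) hk hl

lemma mul_of_commute {a b : G} (ha : El n a) (hb : El n b) (h : Commute a b) : El n (a * b) := by
  obtain ⟨k, hk⟩ := ha
  obtain ⟨l, hl⟩ := hb
  refine ⟨k + l, ?_⟩
  rw [h.mul_pow, pow_add, pow_mul, hk, one_pow, one_mul, mul_comm, pow_mul, hl, one_pow]

end El

lemma El.mem_of_pow_mem {G : Type} [Group G] {N : Subgroup G} {g : G} {a b : ℕ}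
    (hab : a.Coprime b) (ha : El a g) (hb : ∃ k, g ^ b ^ k ∈ N) : g ∈ N := by
  obtain ⟨k, hk⟩ := ha
  obtain ⟨l, hl⟩ := hb
  exact mem_of_pow_mem_of_coprime (Nat.Coprime.pow k l hab) (by rw [hk]; exact one_mem _) hl

lemma pow_mem_of_mem_sup {G : Type} [Group G] {N₁ N₂ R : Subgroup G} [N₂.Normal] [R.Normal]
    {b : ℕ} (h₁ : ∀ g ∈ N₁, ∃ k, g ^ b ^ k ∈ R) (h₂ : ∀ g ∈ N₂, ∃ k, g ^ b ^ k ∈ R) {g : G}
    (hg : g ∈ N₁ ⊔ N₂) : ∃ k, g ^ b ^ k ∈ R := by
  have key : ∀ N : Subgroup G, (∀ g ∈ N, ∃ k, g ^ b ^ k ∈ R) →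
      IsPGroup b (N.map (QuotientGroup.mk' R)) := by
    rintro N hN ⟨_, x, hx, rfl⟩
    obtain ⟨k, hk⟩ := hN x hx
    refine ⟨k, Subtype.ext ?_⟩
    simp only [SubgroupClass.coe_pow, OneMemClass.coe_one]
    rw [← map_pow, QuotientGroup.mk'_apply, QuotientGroup.eq_one_iff]
    exact hk
  have hn : (N₂.map (QuotientGroup.mk' R)).Normal :=
    Normal.map inferInstance _ (QuotientGroup.mk'_surjective R)
  have h := (key N₁ h₁).to_sup_of_normal_right (key N₂ h₂)
  rw [← Subgroup.map_sup] at h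
  obtain ⟨k, hk⟩ := h ⟨_, g, hg, rfl⟩
  refine ⟨k, ?_⟩
  have h1 : (QuotientGroup.mk' R g) ^ b ^ k = 1 := congrArg Subtype.val hk
  rwa [← map_pow, QuotientGroup.mk'_apply, QuotientGroup.eq_one_iff] at h1

/-- Finite groups with a Sylow tower of type 2, 7, 3. -/
structure Tower (G : Type) [Group G] : Prop where
  fin : Finite G
  mul2 : ∀ a b : G, El 2 a → El 2 b → El 2 (a * b)
  mul14 : ∀ a b : G, El 14 a → El 14 b → El 14 (a * b)
  all : ∀ g : G, El 42 g

/-- The subgroup of the elements of N whose order divides a power of n. -/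
def elSub {G : Type} [Group G] (n : ℕ) (N : Subgroup G)
    (h : ∀ a ∈ N, ∀ b ∈ N, El n a → El n b → El n (a * b)) : Subgroup G where
  carrier := {g | g ∈ N ∧ El n g}
  mul_mem' := fun {a b} ha hb => ⟨mul_mem ha.1 hb.1, h a ha.1 b hb.1 ha.2 hb.2⟩
  one_mem' := ⟨one_mem _, El.one⟩
  inv_mem' := fun ha => ⟨inv_mem ha.1, ha.2.inv⟩

instance {G : Type} [Group G] (n : ℕ) (N : Subgroup G) [hN : N.Normal]
    (h : ∀ a ∈ N, ∀ b ∈ N, El n a → El n b → El n (a * b)) : (elSub n N h).Normal :=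
  ⟨fun _ ha x => ⟨hN.conj_mem _ ha.1 x, ha.2.conj x⟩⟩

lemma elSub_isPGroup {G : Type} [Group G] (n : ℕ) (N : Subgroup G)
    (h : ∀ a ∈ N, ∀ b ∈ N, El n a → El n b → El n (a * b)) : IsPGroup n (elSub n N h) := by
  rintro ⟨x, hx, k, hk⟩
  exact ⟨k, Subtype.ext hk⟩

lemma el_mul_of_sup {G : Type} [Group G] {N₁ N₂ : Subgroup G} [N₁.Normal] [N₂.Normal]
    (h : N₁ ⊔ N₂ = ⊤) {a b : ℕ} (hab : a.Coprime b)
    (h₁ : ∀ x ∈ N₁, ∀ y ∈ N₁, El a x → El a y → El a (x * y))
    (h₂ : ∀ x ∈ N₂, ∀ y ∈ N₂, El a x → El a y → El a (x * y))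
    (k₁ : ∀ x ∈ N₁, El (a * b) x) (k₂ : ∀ x ∈ N₂, El (a * b) x) (x y : G) (hx : El a x)
    (hy : El a y) : El a (x * y) := by
  let R := elSub a N₁ h₁ ⊔ elSub a N₂ h₂
  have hR : IsPGroup a R := (elSub_isPGroup a N₁ h₁).to_sup_of_normal_right (elSub_isPGroup a N₂ h₂)
  have key : ∀ g : G, El a g → g ∈ R := by
    intro g hg
    refine hg.mem_of_pow_mem hab (pow_mem_of_mem_sup (N₁ := N₁) (N₂ := N₂) ?_ ?_ (h ▸ mem_top g))
    · intro z hz
      obtain ⟨k, hk⟩ := (k₁ z hz).pow_split
      exact ⟨k, mem_sup_left ⟨pow_mem hz _, hk⟩⟩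
    · intro z hz
      obtain ⟨k, hk⟩ := (k₂ z hz).pow_split
      exact ⟨k, mem_sup_right ⟨pow_mem hz _, hk⟩⟩
  obtain ⟨k, hk⟩ := hR ⟨x * y, mul_mem (key x hx) (key y hy)⟩
  exact ⟨k, congrArg Subtype.val hk⟩

namespace Tower

variable {G : Type} [Group G]

lemma of_injective {N : Type} [Group N] (φ : N →* G) (hφ : Function.Injective φ) (h : Tower G) :
    Tower N where
  fin := by have := h.fin; exact Finite.of_injective φ hφ
  mul2 a b ha hb := El.of_map φ hφ (by rw [map_mul]; exact h.mul2 _ _ (ha.map φ) (hb.map φ))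
  mul14 a b ha hb := El.of_map φ hφ (by rw [map_mul]; exact h.mul14 _ _ (ha.map φ) (hb.map φ))
  all g := El.of_map φ hφ (h.all _)

lemma of_sup [Finite G] {N₁ N₂ : Subgroup G} [N₁.Normal] [N₂.Normal] (h : N₁ ⊔ N₂ = ⊤)
    (h₁ : Tower N₁) (h₂ : Tower N₂) : Tower G := by
  have k2 : ∀ N : Subgroup G, Tower N → ∀ x ∈ N, ∀ y ∈ N, El 2 x → El 2 y → El 2 (x * y) :=
    fun N hN x hx y hy ex ey => (hN.mul2 ⟨x, hx⟩ ⟨y, hy⟩ (El.of_map _ N.subtype_injective ex)
      (El.of_map _ N.subtype_injective ey)).map N.subtype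
  have k14 : ∀ N : Subgroup G, Tower N → ∀ x ∈ N, ∀ y ∈ N, El 14 x → El 14 y → El 14 (x * y) :=
    fun N hN x hx y hy ex ey => (hN.mul14 ⟨x, hx⟩ ⟨y, hy⟩ (El.of_map _ N.subtype_injective ex)
      (El.of_map _ N.subtype_injective ey)).map N.subtype
  have k42 : ∀ N : Subgroup G, Tower N → ∀ x ∈ N, El 42 x :=
    fun N hN x hx => (hN.all ⟨x, hx⟩).map N.subtype
  refine ⟨inferInstance, ?_, ?_, ?_⟩
  · exact el_mul_of_sup h (b := 21) (by norm_num) (k2 _ h₁) (k2 _ h₂) (k42 _ h₁) (k42 _ h₂)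
  · exact el_mul_of_sup h (b := 3) (by norm_num) (k14 _ h₁) (k14 _ h₂) (k42 _ h₁) (k42 _ h₂)
  · intro g
    exact pow_mem_of_mem_sup (N₁ := N₁) (N₂ := N₂) (R := ⊥) (k42 _ h₁) (k42 _ h₂) (h ▸ mem_top g)

variable (h : Tower G)

/-- The normal Sylow 2-subgroup. -/
def P : Subgroup G := elSub 2 ⊤ (fun a _ b _ => h.mul2 a b)

/-- The normal Hall subgroup for the primes 2 and 7. -/
def H : Subgroup G := elSub 14 ⊤ (fun a _ b _ => h.mul14 a b)

instance : h.P.Normal := by unfold P; infer_instance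
instance : h.H.Normal := by unfold H; infer_instance

lemma mem_P {g : G} : g ∈ h.P ↔ El 2 g := ⟨fun hg => hg.2, fun hg => ⟨mem_top g, hg⟩⟩
lemma mem_H {g : G} : g ∈ h.H ↔ El 14 g := ⟨fun hg => hg.2, fun hg => ⟨mem_top g, hg⟩⟩

lemma P_isPGroup : IsPGroup 2 h.P := elSub_isPGroup _ _ _

lemma pow_mem_H (g : G) : ∃ k, g ^ 3 ^ k ∈ h.H := by
  obtain ⟨k, hk⟩ := El.pow_split (a := 14) (b := 3) (h.all g)
  exact ⟨k, h.mem_H.2 hk⟩

lemma H_PQ : PQ 2 7 h.H := by
  have := h.fin
  refine ⟨inferInstance, h.P.subgroupOf h.H, inferInstance, h.P_isPGroup.comap_subtype, ?_⟩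
  rintro ⟨g, hg⟩
  obtain ⟨k, hk⟩ := El.pow_split (a := 2) (b := 7) (h.mem_H.1 hg)
  exact ⟨k, h.mem_P.2 hk⟩

end Tower

lemma solvable_of_pow_mem {G : Type} [Group G] [Finite G] {p : ℕ} [Fact p.Prime] (N : Subgroup G)
    [N.Normal] (hs : Group.IsSolvable N) (hN : ∀ g : G, ∃ n : ℕ, g ^ p ^ n ∈ N) :
    Group.IsSolvable G := by
  have hp : IsPGroup p (G ⧸ N) := by
    intro x
    obtain ⟨g, rfl⟩ := QuotientGroup.mk_surjective x
    obtain ⟨n, hn⟩ := hN g
    exact ⟨n, by rw [← QuotientGroup.mk_pow, QuotientGroup.eq_one_iff]; exact hn⟩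
  have := hp.isNilpotent
  exact (Group.isSolvable_iff_subgroup_quotient N).2 ⟨hs, inferInstance⟩

instance : Fact (Nat.Prime 7) := ⟨by norm_num⟩

lemma PQ.soluble {p r : ℕ} [Fact p.Prime] [Fact r.Prime] {G : Type} [Group G] (h : PQ p r G) :
    solubleClass G := by
  obtain ⟨_, P, _, hP, hpow⟩ := h
  have := hP.isNilpotent
  exact ⟨inferInstance, solvable_of_pow_mem P inferInstance hpow⟩

lemma Tower.soluble {G : Type} [Group G] (h : Tower G) : solubleClass G := by
  have := h.fin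
  exact ⟨inferInstance, solvable_of_pow_mem h.H h.H_PQ.soluble.2 h.pow_mem_H⟩

lemma PQ.el14 {G : Type} [Group G] (h : PQ 2 7 G) (g : G) : El 14 g := by
  obtain ⟨_, P, _, hP, hpow⟩ := h
  obtain ⟨n, hn⟩ := hpow g
  obtain ⟨m, hm⟩ := hP ⟨_, hn⟩
  have h1 : (g ^ 7 ^ n) ^ 2 ^ m = 1 := congrArg Subtype.val hm
  refine ⟨n + m, ?_⟩
  have : 14 ^ (n + m) = 7 ^ n * 2 ^ m * (7 ^ m * 2 ^ n) := by
    rw [show (14 : ℕ) = 7 * 2 from rfl, mul_pow, pow_add, pow_add]; ring
  rw [this, pow_mul, pow_mul g, h1, one_pow]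

lemma PQ.tower {G : Type} [Group G] (h : PQ 2 7 G) : Tower G := by
  refine ⟨h.1, ?_, fun a b _ _ => h.el14 _, fun g => (h.el14 g).mono (by norm_num)⟩
  obtain ⟨_, P, _, hP, hpow⟩ := h
  intro a b ha hb
  obtain ⟨k, hk⟩ := hP ⟨a * b, mul_mem (ha.mem_of_pow_mem (by norm_num) (hpow a))
    (hb.mem_of_pow_mem (by norm_num) (hpow b))⟩
  exact ⟨k, congrArg Subtype.val hk⟩

/-- The subgroup generated by the 3-elements of N. -/
def Lrel {G : Type} [Group G] (N : Subgroup G) : Subgroup G := closure {g | g ∈ N ∧ El 3 g}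

section

variable {G : Type} [Group G]

lemma Lrel_le (N : Subgroup G) : Lrel N ≤ N := (closure_le _).2 (fun _ h => h.1)

lemma mem_Lrel {N : Subgroup G} {g : G} (hg : g ∈ N) (h : El 3 g) : g ∈ Lrel N :=
  subset_closure ⟨hg, h⟩

lemma Lrel_le_iff {N S : Subgroup G} : Lrel N ≤ S ↔ ∀ g ∈ N, El 3 g → g ∈ S :=
  ⟨fun h _ hg h3 => h (mem_Lrel hg h3), fun h => (closure_le _).2 (fun g hg => h g hg.1 hg.2)⟩

lemma Lrel_mono {N S : Subgroup G} (h : N ≤ S) : Lrel N ≤ Lrel S :=
  Lrel_le_iff.2 (fun _ hg h3 => mem_Lrel (h hg) h3)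

instance (N : Subgroup G) [hN : N.Normal] : (Lrel N).Normal := by
  constructor
  intro a ha x
  have : Lrel N ≤ (Lrel N).comap (MulAut.conj x).toMonoidHom :=
    Lrel_le_iff.2 (fun g hg h3 => mem_Lrel (hN.conj_mem g hg x) (h3.conj x))
  exact this ha

lemma map_Lrel {H : Type} [Group H] (φ : H →* G) (hφ : Function.Injective φ) (N : Subgroup H) :
    (Lrel N).map φ = Lrel (N.map φ) := by
  apply le_antisymm
  · rw [map_le_iff_le_comap, Lrel_le_iff]
    exact fun g hg h3 => mem_Lrel (mem_map_of_mem φ hg) (h3.map φ)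
  · rw [Lrel_le_iff]
    rintro _ ⟨g, hg, rfl⟩ h3
    exact mem_map_of_mem φ (mem_Lrel hg (h3.of_map φ hφ))

lemma Lrel_sup (h : Tower G) (N₁ N₂ : Subgroup G) [N₁.Normal] [N₂.Normal] :
    Lrel (N₁ ⊔ N₂) = Lrel N₁ ⊔ Lrel N₂ := by
  apply le_antisymm
  · rw [Lrel_le_iff]
    intro g hg h3
    refine h3.mem_of_pow_mem (b := 14) (by norm_num) (pow_mem_of_mem_sup ?_ ?_ hg)
    · intro z hz
      obtain ⟨k, hk⟩ := El.pow_split (a := 3) (b := 14) (h.all z)
      exact ⟨k, mem_sup_left (mem_Lrel (pow_mem hz _) hk)⟩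
    · intro z hz
      obtain ⟨k, hk⟩ := El.pow_split (a := 3) (b := 14) (h.all z)
      exact ⟨k, mem_sup_right (mem_Lrel (pow_mem hz _) hk)⟩
  · exact sup_le (Lrel_mono le_sup_left) (Lrel_mono le_sup_right)

end

/-- A convenient way to verify the axioms of a Fitting class. -/
lemma IsFitting.mk' {F : GroupClass} (h1 : ∀ (G : Type) [Group G], F G → solubleClass G)
    (h2 : F PUnit)
    (h3 : ∀ (N G : Type) [Group N] [Group G] (φ : N →* G), Function.Injective φ →
      φ.range.Normal → F G → F N)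
    (h4 : ∀ (G : Type) [Group G] [Finite G] (N₁ N₂ : Subgroup G), N₁.Normal → N₂.Normal →
      N₁ ⊔ N₂ = ⊤ → F N₁ → F N₂ → F G) : IsFitting F := by
  have hiso : ∀ (G H : Type) [Group G] [Group H], (G ≃* H) → F G → F H := fun G H _ _ e h =>
    h3 H G e.symm.toMonoidHom e.symm.injective
      (by rw [MonoidHom.range_eq_top.2 e.symm.surjective]; infer_instance) h
  refine ⟨h1, h2, hiso, fun G _ N hN h => h3 N G N.subtype N.subtype_injective
    (by rwa [range_subtype]) h, ?_⟩
  intro G _ _ N₁ N₂ _ _ k₁ k₂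
  refine h4 _ (N₁.subgroupOf (N₁ ⊔ N₂)) (N₂.subgroupOf (N₁ ⊔ N₂)) inferInstance inferInstance ?_
    (hiso _ _ (subgroupOfEquivOfLe le_sup_left).symm k₁)
    (hiso _ _ (subgroupOfEquivOfLe le_sup_right).symm k₂)
  rw [← subgroupOf_sup le_sup_left le_sup_right, subgroupOf_self]

end Pool.Agent.MP_060950_al

end

-- part MP_060950_al.Fam
section

/-!
Families of pairwise commuting subgroups with trivial centre.
-/

namespace Pool.Agent.MP_060950_al

open Subgroup

variable {G : Type} [Group G]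

/-- The element centralises the subgroup. -/
def Cent (X : Subgroup G) (g : G) : Prop := ∀ x ∈ X, x * g = g * x

lemma cent_iff {X : Subgroup G} {g : G} : Cent X g ↔ g ∈ centralizer (X : Set G) := Iff.rfl

lemma Cent.mul {X : Subgroup G} {a b : G} (ha : Cent X a) (hb : Cent X b) : Cent X (a * b) :=
  cent_iff.2 (mul_mem (cent_iff.1 ha) (cent_iff.1 hb))

lemma Cent.inv {X : Subgroup G} {a : G} (ha : Cent X a) : Cent X a⁻¹ :=
  cent_iff.2 (inv_mem (cent_iff.1 ha))

lemma Cent.pow {X : Subgroup G} {a : G} (ha : Cent X a) (n : ℕ) : Cent X (a ^ n) :=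
  cent_iff.2 (pow_mem (cent_iff.1 ha) n)

lemma Cent.one (X : Subgroup G) : Cent X 1 := fun x _ => by simp

/-- A family of pairwise commuting subgroups with trivial centre. -/
structure Fam (𝒦 : Set (Subgroup G)) : Prop where
  center : ∀ X ∈ 𝒦, ∀ a ∈ X, Cent X a → a = 1
  comm : ∀ X ∈ 𝒦, ∀ Y ∈ 𝒦, X ≠ Y → ∀ y ∈ Y, Cent X y

lemma el_of_mul {X : Subgroup G} (hX : ∀ a ∈ X, Cent X a → a = 1) {a b : G} (ha : a ∈ X)
    (hb : Cent X b) {n : ℕ} (h : El n (a * b)) : El n a := by
  obtain ⟨k, hk⟩ := h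
  refine ⟨k, hX _ (pow_mem ha _) ?_⟩
  have hc : Commute a b := hb a ha
  rw [hc.mul_pow] at hk
  rw [eq_inv_of_mul_eq_one_left hk]
  exact (hb.pow _).inv

namespace Fam

variable {𝒦 : Set (Subgroup G)} (h : Fam 𝒦)

include h

lemma mono {S : Set (Subgroup G)} (hS : S ⊆ 𝒦) : Fam S :=
  ⟨fun X hX => h.center X (hS hX), fun X hX Y hY => h.comm X (hS hX) Y (hS hY)⟩

lemma cent_rest {X : Subgroup G} (hX : X ∈ 𝒦) {b : G} (hb : b ∈ sSup (𝒦 \ {X})) : Cent X b := by
  have : sSup (𝒦 \ {X}) ≤ centralizer (X : Set G) :=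
    sSup_le (fun Y hY y hy => h.comm X hX Y hY.1 (fun e => hY.2 e.symm) y hy)
  exact this hb

lemma decomp {X : Subgroup G} (hX : X ∈ 𝒦) {m : G} (hm : m ∈ sSup 𝒦) :
    ∃ a ∈ X, ∃ b ∈ sSup (𝒦 \ {X}), m = a * b := by
  have h1 : sSup 𝒦 = X ⊔ sSup (𝒦 \ {X}) := by
    rw [← sSup_insert, Set.insert_sdiff_singleton, Set.insert_eq_of_mem hX]
  have h2 : sSup (𝒦 \ {X}) ≤ normalizer (X : Set G) :=
    le_trans (fun b hb => cent_iff.1 (h.cent_rest hX hb)) (centralizer_le_normalizer _)
  have h3 : m ∈ ((X ⊔ sSup (𝒦 \ {X}) : Subgroup G) : Set G) := by rw [← h1]; exact hm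
  rw [coe_mul_of_right_le_normalizer_left _ _ h2] at h3
  obtain ⟨a, ha, b, hb, rfl⟩ := h3
  exact ⟨a, ha, b, hb, rfl⟩

lemma decomp' {X : Subgroup G} (hX : X ∈ 𝒦) {m : G} (hm : m ∈ sSup 𝒦) :
    ∃ a ∈ X, ∃ b, Cent X b ∧ m = a * b := by
  obtain ⟨a, ha, b, hb, rfl⟩ := h.decomp hX hm
  exact ⟨a, ha, b, h.cent_rest hX hb, rfl⟩

lemma conj_mem {X : Subgroup G} (hX : X ∈ 𝒦) {m : G} (hm : m ∈ sSup 𝒦) {x : G} (hx : x ∈ X) :
    m * x * m⁻¹ ∈ X := by
  obtain ⟨a, ha, b, hb, rfl⟩ := h.decomp' hX hm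
  have : a * b * x * (a * b)⁻¹ = a * x * a⁻¹ := by
    rw [mul_assoc a b x, ← hb x hx]; group
  rw [this]
  exact mul_mem (mul_mem ha hx) (inv_mem ha)

lemma mem_rest {X : Subgroup G} (hX : X ∈ 𝒦) {m : G} (hm : m ∈ sSup 𝒦) (hc : Cent X m) :
    m ∈ sSup (𝒦 \ {X}) := by
  obtain ⟨a, ha, b, hb, rfl⟩ := h.decomp hX hm
  have h1 : Cent X a := by
    have := hc.mul (h.cent_rest hX hb).inv
    simpa using this
  rw [h.center X hX a ha h1, one_mul]
  exact hb

lemma mem_sSup_of_cent [Finite G] {S : Set (Subgroup G)} {m : G} (hm : m ∈ sSup 𝒦)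
    (hc : ∀ X ∈ 𝒦, X ∉ S → Cent X m) : m ∈ sSup S := by
  have key : ∀ D : Set (Subgroup G), D.Finite → (∀ X ∈ D, X ∈ 𝒦 ∧ Cent X m) →
      m ∈ sSup (𝒦 \ D) := by
    intro D hD
    induction D, hD using Set.Finite.induction_on with
    | empty => intro _; simpa using hm
    | @insert X D hXD _ ih =>
      intro hc
      have h1 := ih (fun Y hY => hc Y (Set.mem_insert_of_mem _ hY))
      have h2 := hc X (Set.mem_insert _ _)
      have h3 := (h.mono (S := 𝒦 \ D) Set.sdiff_subset).mem_rest ⟨h2.1, hXD⟩ h1 h2.2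
      rwa [Set.sdiff_sdiff, Set.union_singleton] at h3
  have h1 := key (𝒦 \ S) (Set.toFinite _) (fun X hX => ⟨hX.1, hc X hX.1 hX.2⟩)
  refine (sSup_le_sSup ?_ : sSup (𝒦 \ (𝒦 \ S)) ≤ sSup S) h1
  intro X hX
  by_contra hn
  exact hX.2 ⟨hX.1, hn⟩

lemma eq_one_of_cent [Finite G] {m : G} (hm : m ∈ sSup 𝒦) (hc : ∀ X ∈ 𝒦, Cent X m) : m = 1 := by
  have := h.mem_sSup_of_cent (S := ∅) hm (fun X hX _ => hc X hX)
  simpa using this

lemma eq_of_mem {X Y : Subgroup G} (hX : X ∈ 𝒦) (hY : Y ∈ 𝒦) {a : G} (haX : a ∈ X) (haY : a ∈ Y)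
    (ha : a ≠ 1) : X = Y := by
  by_contra hne
  exact ha (h.center X hX a haX (h.comm X hX Y hY hne a haY))

lemma comm_mod (R : Subgroup G) [R.Normal]
    (hR : ∀ X ∈ 𝒦, ∀ a ∈ X, ∀ b ∈ X, a⁻¹ * b⁻¹ * a * b ∈ R) {x y : G} (hx : x ∈ sSup 𝒦)
    (hy : y ∈ sSup 𝒦) : x⁻¹ * y⁻¹ * x * y ∈ R := by
  have conv : ∀ a b : G, a⁻¹ * b⁻¹ * a * b ∈ R ↔
      QuotientGroup.mk' R b * QuotientGroup.mk' R a =
        QuotientGroup.mk' R a * QuotientGroup.mk' R b := by
    intro a b
    rw [← map_mul, ← map_mul, QuotientGroup.mk'_apply, QuotientGroup.mk'_apply, QuotientGroup.eq]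
    simp [mul_assoc]
  have step : ∀ b : G, (∀ X ∈ 𝒦, ∀ a ∈ X, QuotientGroup.mk' R b * QuotientGroup.mk' R a =
      QuotientGroup.mk' R a * QuotientGroup.mk' R b) → ∀ a ∈ sSup 𝒦,
      QuotientGroup.mk' R b * QuotientGroup.mk' R a =
        QuotientGroup.mk' R a * QuotientGroup.mk' R b := by
    intro b hb a ha
    have : sSup 𝒦 ≤ (centralizer {QuotientGroup.mk' R b}).comap (QuotientGroup.mk' R) :=
      sSup_le (fun X hX a ha => mem_centralizer_singleton_iff.2 (hb X hX a ha).symm)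
    exact (mem_centralizer_singleton_iff.1 (this ha)).symm
  rw [conv]
  refine step y (fun Y hY b hb => (step b (fun X hX a ha => ?_) y hy).symm) x hx
  by_cases e : X = Y
  · subst e
    exact (conv a b).1 (hR X hX a ha b hb)
  · rw [← map_mul, ← map_mul, h.comm X hX Y hY e b hb a ha]

lemma pow_mod (R : Subgroup G) [R.Normal]
    (hR : ∀ X ∈ 𝒦, ∀ a ∈ X, ∀ b ∈ X, a⁻¹ * b⁻¹ * a * b ∈ R) (n : ℕ)
    (hn : ∀ X ∈ 𝒦, ∀ a ∈ X, a ^ n ∈ R) {x : G} (hx : x ∈ sSup 𝒦) : x ^ n ∈ R := by
  let S : Subgroup G :=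
    { carrier := {x | x ∈ sSup 𝒦 ∧ x ^ n ∈ R}
      mul_mem' := fun {a b} ha hb => ⟨mul_mem ha.1 hb.1, by
        have h1 := h.comm_mod R hR ha.1 hb.1
        have h2 : Commute (QuotientGroup.mk' R a) (QuotientGroup.mk' R b) := by
          rw [commute_iff_eq, ← map_mul, ← map_mul, eq_comm, QuotientGroup.mk'_apply,
            QuotientGroup.mk'_apply, QuotientGroup.eq]
          simpa [mul_assoc] using h1
        rw [← QuotientGroup.eq_one_iff, ← QuotientGroup.mk'_apply, map_pow, map_mul, h2.mul_pow,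
          ← map_pow, ← map_pow, QuotientGroup.mk'_apply, QuotientGroup.mk'_apply,
          (QuotientGroup.eq_one_iff _).2 ha.2, (QuotientGroup.eq_one_iff _).2 hb.2, one_mul]⟩
      one_mem' := ⟨one_mem _, by rw [one_pow]; exact one_mem _⟩
      inv_mem' := fun ha => ⟨inv_mem ha.1, by rw [inv_pow]; exact inv_mem ha.2⟩ }
  have : sSup 𝒦 ≤ S := sSup_le (fun X hX a ha => ⟨le_sSup hX ha, hn X hX a ha⟩)
  exact (this hx).2

end Fam

end Pool.Agent.MP_060950_al

end

-- part MP_060950_al.Comps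
section

/-!
Products of copies of a fixed rigid group K.
-/

namespace Pool.Agent.MP_060950_al

open Subgroup

/-- The automorphism acts trivially modulo W. -/
def Triv {K : Type} [Group K] (W : Subgroup K) (α : MulAut K) : Prop := ∀ k, k⁻¹ * α k ∈ W

/-- The properties of the group K that the construction uses. -/
structure Hyp (K : Type) [Group K] (W : Subgroup K) (B₀ : Subgroup (MulAut K)) : Prop where
  fin : Finite K
  W_normal : W.Normal
  W_two : ∀ w ∈ W, w ^ 2 = 1
  pow7 : ∀ k : K, k ^ 7 ∈ W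
  comm_mem : ∀ a b : K, a⁻¹ * b⁻¹ * a * b ∈ W
  center : ∀ a : K, (∀ x, x * a = a * x) → a = 1
  W_ne : W ≠ ⊤
  sup_W : ∀ N : Subgroup K, N.Normal → N ⊔ W = ⊤ → N = ⊤
  big : ∀ a : K, a ∉ W → ∃ V : Subgroup K, V ≤ W ∧ Nat.card W < Nat.card V ^ 2 ∧
    ∀ v ∈ V, ∃ w : K, v = w⁻¹ * (a * w * a⁻¹)
  min : ∀ N : Subgroup K, N.Normal → N ≠ ⊥ → ∃ V ≤ N, V.Normal ∧ Nat.card V = 8
  triv_mem : ∀ α, Triv W α → α ∈ B₀
  B₀_min : ∀ α ∈ B₀, ∀ V : Subgroup K, V.Normal → Nat.card V = 8 → ∀ v ∈ V, α v ∈ V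
  seven : ∀ α, Triv W (α ^ 7) → Triv W α
  three_min : ∀ α, El 3 α → ∀ V : Subgroup K, V.Normal → Nat.card V = 8 →
    (∀ v ∈ V, α v ∈ V) → α ∈ B₀
  three_triv : ∀ α, El 3 α → Triv W α → α = 1
  B₀_fpf : ∀ α ∈ B₀, Triv W α ∨ Fpf α

/-- Admissible groups of automorphisms. -/
structure Adm {K : Type} [Group K] (B₀ B : Subgroup (MulAut K)) : Prop where
  normal : B.Normal
  le : B₀ ≤ B
  fpf : ∀ α ∈ B, El 3 α → α = 1 ∨ Fpf α
  pow : ∀ α ∈ B, El 3 α → α ≠ 1 → ∃ n : ℕ, α ^ n ∈ B₀ ∧ α ^ n ≠ 1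

/-- Conjugation by g induces α on the image of ι. -/
def Acts {K G : Type} [Group K] [Group G] (ι : K →* G) (g : G) (α : MulAut K) : Prop :=
  ∀ k, ι (α k) = g * ι k * g⁻¹

section Acts

variable {K G : Type} [Group K] [Group G] {ι : K →* G}

lemma Acts.one : Acts ι 1 1 := fun k => by simp

lemma Acts.mul {g h : G} {α β : MulAut K} (h₁ : Acts ι g α) (h₂ : Acts ι h β) :
    Acts ι (g * h) (α * β) := fun k => by
  rw [MulAut.mul_apply, h₁, h₂]; group

lemma Acts.inv {g : G} {α : MulAut K} (h₁ : Acts ι g α) : Acts ι g⁻¹ α⁻¹ := fun k => by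
  have := h₁ (α⁻¹ k)
  rw [MulAut.apply_inv_self] at this
  rw [this]; group

lemma Acts.pow {g : G} {α : MulAut K} (h₁ : Acts ι g α) (n : ℕ) : Acts ι (g ^ n) (α ^ n) := by
  induction n with
  | zero => simpa using Acts.one
  | succ n ih => rw [pow_succ, pow_succ]; exact ih.mul h₁

lemma Acts.unique (hι : Function.Injective ι) {g : G} {α β : MulAut K} (h₁ : Acts ι g α)
    (h₂ : Acts ι g β) : α = β := by
  ext k
  exact hι ((h₁ k).trans (h₂ k).symm)

lemma Acts.el (hι : Function.Injective ι) {g : G} {α : MulAut K} (h₁ : Acts ι g α) {n : ℕ}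
    (hg : El n g) : El n α := by
  obtain ⟨k, hk⟩ := hg
  have := h₁.pow (n ^ k)
  rw [hk] at this
  exact ⟨k, this.unique hι Acts.one⟩

lemma acts_one_iff {g : G} : Acts ι g 1 ↔ Cent ι.range g := by
  constructor
  · rintro h _ ⟨k, rfl⟩
    have := h k
    rw [MulAut.one_apply] at this
    conv_lhs => rw [this]
    group
  · intro h k
    rw [← h _ ⟨k, rfl⟩]; simp

lemma Acts.conj_mem {g : G} {α : MulAut K} (h : Acts ι g α) {x : G} (hx : x ∈ ι.range) :
    g * x * g⁻¹ ∈ ι.range := by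
  obtain ⟨k, rfl⟩ := hx
  exact ⟨α k, h k⟩

lemma acts_conj (ι : K →* G) (k : K) : Acts ι (ι k) (MulAut.conj k) := fun x => by simp

lemma exists_acts [Finite K] (hι : Function.Injective ι) {g : G}
    (hg : ∀ x ∈ ι.range, g * x * g⁻¹ ∈ ι.range) : ∃ α, Acts ι g α := by
  choose f hf using fun k => hg (ι k) ⟨k, rfl⟩
  let F : K →* K := MonoidHom.mk' f (fun a b => hι (by
    rw [map_mul, hf, hf, hf, map_mul]; group))
  have hF : Function.Injective F := by
    intro a b hab
    have h1 : ι (f a) = ι (f b) := congrArg ι hab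
    rw [hf, hf] at h1
    exact hι (by simpa using h1)
  exact ⟨MulEquiv.ofBijective F (Finite.injective_iff_bijective.1 hF), hf⟩

lemma exists_reparam {ι' : K →* G} (hι : Function.Injective ι) (hι' : Function.Injective ι')
    (h : ι'.range = ι.range) : ∃ β : MulAut K, ∀ k, ι (β k) = ι' k :=
  ⟨((MonoidHom.ofInjective hι').trans (MulEquiv.subgroupCongr h)).trans
    (MonoidHom.ofInjective hι).symm, fun _ => MonoidHom.apply_ofInjective_symm hι _⟩

lemma Acts.reparam {ι' : K →* G} {β : MulAut K} (hβ : ∀ k, ι (β k) = ι' k) {g : G}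
    {α : MulAut K} (h : Acts ι g α) : Acts ι' g (β⁻¹ * α * β) := fun k => by
  rw [← hβ, ← hβ, ← h]; simp

end Acts

/-- A decomposition of the 3-prime part of L into copies of K on which L acts through B. -/
structure Comps {K : Type} [Group K] (B : Subgroup (MulAut K)) {G : Type} [Group G]
    (L : Subgroup G) (𝒦 : Set (Subgroup G)) : Prop where
  emb : ∀ X ∈ 𝒦, ∃ ι : K →* G, Function.Injective ι ∧ ι.range = X ∧
    ∀ g ∈ L, ∃ α ∈ B, Acts ι g α
  le : ∀ X ∈ 𝒦, X ≤ L
  comm : ∀ X ∈ 𝒦, ∀ Y ∈ 𝒦, X ≠ Y → ∀ y ∈ Y, Cent X y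
  gen : ∀ g ∈ L, El 14 g → g ∈ sSup 𝒦

section

variable {K : Type} [Group K] {W : Subgroup K} {B₀ : Subgroup (MulAut K)} (hK : Hyp K W B₀)

include hK

lemma Hyp.mem_W {k : K} (h : El 2 k) : k ∈ W :=
  h.mem_of_pow_mem (b := 7) (by norm_num) ⟨1, by rw [pow_one]; exact hK.pow7 k⟩

lemma Hyp.el2 {w : K} (h : w ∈ W) : El 2 w := ⟨1, by rw [pow_one]; exact hK.W_two w h⟩

lemma Hyp.el14 (k : K) : El 14 k :=
  ⟨1, by rw [pow_one, show 14 = 7 * 2 from rfl, pow_mul]; exact hK.W_two _ (hK.pow7 k)⟩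

lemma Hyp.not_all_el2 : ¬ ∀ k : K, El 2 k := fun h =>
  hK.W_ne (eq_top_iff.2 (fun k _ => hK.mem_W (h k)))

lemma Hyp.not_comm : ¬ ∀ a x : K, x * a = a * x := fun h =>
  hK.not_all_el2 (fun k => by rw [hK.center k (h k)]; exact El.one)

lemma Hyp.conj_triv (k : K) : Triv W (MulAut.conj k) := fun x => by
  have := hK.comm_mem x k⁻¹
  simpa [mul_assoc] using this

lemma Hyp.center_range {G : Type} [Group G] (ι : K →* G) (hι : Function.Injective ι) :
    ∀ a ∈ ι.range, Cent ι.range a → a = 1 := by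
  rintro _ ⟨k, rfl⟩ h
  rw [hK.center k (fun x => hι (by rw [map_mul, map_mul]; exact h _ ⟨x, rfl⟩)), map_one]

lemma Hyp.fpf_of_B₀ {α : MulAut K} (h : α ∈ B₀) (h3 : El 3 α) (hne : α ≠ 1) : Fpf α :=
  (hK.B₀_fpf α h).resolve_left (fun ht => hne (hK.three_triv α h3 ht))

variable {G : Type} [Group G]

/-- A family of pairwise commuting copies of K. -/
structure KFam (K : Type) [Group K] {G : Type} [Group G] (𝒦 : Set (Subgroup G)) : Prop where
  emb : ∀ X ∈ 𝒦, ∃ ι : K →* G, Function.Injective ι ∧ ι.range = X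
  comm : ∀ X ∈ 𝒦, ∀ Y ∈ 𝒦, X ≠ Y → ∀ y ∈ Y, Cent X y

lemma KFam.fam {𝒦 : Set (Subgroup G)} (h : KFam K 𝒦) : Fam 𝒦 :=
  ⟨fun X hX => by
    obtain ⟨ι, hι, rfl⟩ := h.emb X hX
    exact hK.center_range ι hι, h.comm⟩

omit hK in
lemma Comps.kfam {B : Subgroup (MulAut K)} {L : Subgroup G} {𝒦 : Set (Subgroup G)}
    (h : Comps B L 𝒦) : KFam K 𝒦 :=
  ⟨fun X hX => by
    obtain ⟨ι, h1, h2, -⟩ := h.emb X hX
    exact ⟨ι, h1, h2⟩, h.comm⟩

lemma card_mul_le {ι₁ ι₂ ι : K →* G} (h₁ : Function.Injective ι₁) (h₂ : Function.Injective ι₂)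
    (hι : Function.Injective ι) (hc : ∀ y ∈ ι₂.range, Cent ι₁.range y) {V₁ V₂ : Subgroup K}
    (hV₁ : V₁ ≤ W) (hV₂ : V₂ ≤ W) (k₁ : ∀ v ∈ V₁, ι₁ v ∈ ι.range) (k₂ : ∀ v ∈ V₂, ι₂ v ∈ ι.range) :
    Nat.card V₁ * Nat.card V₂ ≤ Nat.card W := by
  have := hK.fin
  have key : ∀ x : V₁ × V₂, ∃ w : W, ι w = ι₁ x.1 * ι₂ x.2 := by
    rintro ⟨a, b⟩
    obtain ⟨k, hk⟩ := mul_mem (k₁ a a.2) (k₂ b b.2)
    refine ⟨⟨k, hK.mem_W (El.of_map ι hι ?_)⟩, hk⟩
    rw [hk]
    exact ((hK.el2 (hV₁ a.2)).map ι₁).mul_of_commute ((hK.el2 (hV₂ b.2)).map ι₂)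
      (hc _ ⟨b, rfl⟩ _ ⟨a, rfl⟩)
  choose f hf using key
  rw [← Nat.card_prod]
  refine Nat.card_le_card_of_injective f ?_
  rintro ⟨a, b⟩ ⟨a', b'⟩ hab
  have e1 : ι₁ a * ι₂ b = ι₁ a' * ι₂ b' := by
    have := hf (a, b)
    rw [hab, hf] at this
    exact this.symm
  have e2 : ι₁ ((a' : K)⁻¹ * a) = ι₂ (b' * (b : K)⁻¹) := by
    rw [map_mul, map_mul, map_inv, map_inv, inv_mul_eq_iff_eq_mul, ← mul_assoc, ← e1]; simp
  have e3 : ι₁ ((a' : K)⁻¹ * a) = 1 :=
    hK.center_range ι₁ h₁ _ ⟨_, rfl⟩ (by rw [e2]; exact hc _ ⟨_, rfl⟩)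
  have e4 : (a' : K)⁻¹ * a = 1 := h₁ (by rw [e3, map_one])
  have e5 : b' * (b : K)⁻¹ = 1 := h₂ (by rw [← e2, e3, map_one])
  exact Prod.ext (Subtype.ext (inv_mul_eq_one.1 e4).symm) (Subtype.ext (mul_inv_eq_one.1 e5).symm)

/-- A normal copy of K in a product of copies of K is one of the factors. -/
lemma KFam.mem_of_normal [Finite G] {𝒦 : Set (Subgroup G)} (h : KFam K 𝒦) (ι : K →* G)
    (hι : Function.Injective ι) (hle : ι.range ≤ sSup 𝒦)
    (hn : ∀ m ∈ sSup 𝒦, ∀ x ∈ ι.range, m * x * m⁻¹ ∈ ι.range) : ι.range ∈ 𝒦 := by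
  have hF := h.fam hK
  have := hK.W_normal
  let S : Set (Subgroup G) := {X | X ∈ 𝒦 ∧ ∃ u ∈ ι.range, ¬ Cent X (u ^ 2)}
  have hbig : ∀ X ∈ S, ∃ ι₁ : K →* G, Function.Injective ι₁ ∧ ι₁.range = X ∧
      ∃ V : Subgroup K, V ≤ W ∧ Nat.card W < Nat.card V ^ 2 ∧ ∀ v ∈ V, ι₁ v ∈ ι.range := by
    rintro X ⟨hX, u, hu, hu2⟩
    obtain ⟨ι₁, h₁, rfl⟩ := h.emb X hX
    obtain ⟨_, ⟨a, rfl⟩, b, hb, rfl⟩ := hF.decomp' hX (hle hu)
    have ha : a ∉ W := by
      intro ha
      apply hu2
      have hc : Commute (ι₁ a) b := hb _ ⟨a, rfl⟩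
      rw [hc.mul_pow, ← map_pow, hK.W_two a ha, map_one, one_mul]
      exact hb.pow 2
    obtain ⟨V, hV, hcard, hv⟩ := hK.big a ha
    refine ⟨ι₁, h₁, rfl, V, hV, hcard, fun v hvV => ?_⟩
    obtain ⟨w, rfl⟩ := hv v hvV
    have h2 := mul_mem (hn _ (le_sSup hX ⟨w⁻¹, rfl⟩) _ hu) (inv_mem hu)
    have h3 : ι₁ w * b = b * ι₁ w := hb _ ⟨w, rfl⟩
    have h4 : ι₁ w⁻¹ * (ι₁ a * b) * (ι₁ w⁻¹)⁻¹ * (ι₁ a * b)⁻¹ = ι₁ (w⁻¹ * (a * w * a⁻¹)) := by
      simp only [map_mul, map_inv, inv_inv, mul_inv_rev]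
      rw [mul_assoc (ι₁ w)⁻¹, mul_assoc (ι₁ a), ← h3]; group
    rwa [h4] at h2
  have hsub : S.Subsingleton := by
    intro X hX Y hY
    by_contra hne
    obtain ⟨ι₁, h₁, rfl, V₁, hV₁, c₁, k₁⟩ := hbig X hX
    obtain ⟨ι₂, h₂, rfl, V₂, hV₂, c₂, k₂⟩ := hbig Y hY
    have h3 := card_mul_le hK h₁ h₂ hι (h.comm _ hX.1 _ hY.1 hne) hV₁ hV₂ k₁ k₂
    have h4 : Nat.card W * Nat.card W < Nat.card V₁ ^ 2 * Nat.card V₂ ^ 2 :=
      Nat.mul_lt_mul'' c₁ c₂
    have h5 := Nat.mul_le_mul h3 h3
    nlinarith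
  have hsq : ∀ k : K, ι (k ^ 2) ∈ sSup S := by
    intro k
    refine hF.mem_sSup_of_cent (hle ⟨_, rfl⟩) (fun X hX hXS => ?_)
    by_contra hc
    exact hXS ⟨hX, ι k, ⟨k, rfl⟩, by rwa [← map_pow]⟩
  have htop : (sSup S).comap ι = ⊤ := by
    apply hK.sup_W
    · constructor
      intro a ha x
      have h1 : sSup S ≤ (sSup S).comap (MulAut.conj (ι x)).toMonoidHom :=
        sSup_le (fun X hX y hy => le_sSup hX (hF.conj_mem hX.1 (hle ⟨x, rfl⟩) hy))
      have h2 := h1 ha
      simpa using h2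
    · rw [eq_top_iff]
      intro k _
      have : k = (k ^ 4) ^ 2 * (k ^ 7)⁻¹ := by group
      rw [this]
      exact mul_mem_sup (hsq _) (inv_mem (hK.pow7 k))
  have hle' : ι.range ≤ sSup S := by
    rintro _ ⟨k, rfl⟩
    have : k ∈ (sSup S).comap ι := by rw [htop]; trivial
    exact this
  rcases hsub.eq_empty_or_singleton with hS | ⟨X, hS⟩
  · exfalso
    rw [hS, sSup_empty] at hle'
    apply hK.not_all_el2
    intro k
    have : k = 1 := hι (by rw [map_one]; exact hle' ⟨k, rfl⟩)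
    rw [this]; exact El.one
  · have hX : X ∈ S := by rw [hS]; rfl
    rw [hS, sSup_singleton] at hle'
    obtain ⟨ι₁, h₁, rfl⟩ := h.emb X hX.1
    have : ι.range = ι₁.range := by
      refine eq_of_le_of_card_ge hle' ?_
      rw [← Nat.card_congr (MonoidHom.ofInjective h₁).toEquiv,
        ← Nat.card_congr (MonoidHom.ofInjective hι).toEquiv]
    rw [this]; exact hX.1

/-- Conjugation permutes the factors of a normal product. -/
lemma KFam.conj_mem [Finite G] {𝒦 : Set (Subgroup G)} (h : KFam K 𝒦) (hn : (sSup 𝒦).Normal)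
    {X : Subgroup G} (hX : X ∈ 𝒦) (g : G) : X.map (MulAut.conj g).toMonoidHom ∈ 𝒦 := by
  obtain ⟨ι, hι, rfl⟩ := h.emb X hX
  rw [← MonoidHom.range_comp]
  refine h.mem_of_normal hK _ ((MulAut.conj g).injective.comp hι) ?_ ?_
  · rintro _ ⟨k, rfl⟩
    exact hn.conj_mem _ (le_sSup hX ⟨k, rfl⟩) g
  · rintro m hm _ ⟨k, rfl⟩
    obtain ⟨k', hk'⟩ := (h.fam hK).conj_mem hX (hn.conj_mem m hm g⁻¹) ⟨k, rfl⟩
    refine ⟨k', ?_⟩
    simp only [MonoidHom.comp_apply, MulEquiv.coe_toMonoidHom, MulAut.conj_apply, hk']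
    group

lemma KFam.el14 (hT : Tower G) {𝒦 : Set (Subgroup G)} (h : KFam K 𝒦) {m : G}
    (hm : m ∈ sSup 𝒦) : El 14 m := by
  have : sSup 𝒦 ≤ hT.H := sSup_le (fun X hX => by
    obtain ⟨ι, -, rfl⟩ := h.emb X hX
    rintro _ ⟨k, rfl⟩
    exact hT.mem_H.2 ((hK.el14 k).map ι))
  exact hT.mem_H.1 (this hm)

lemma KFam.comm_el2 (hT : Tower G) {𝒦 : Set (Subgroup G)} (h : KFam K 𝒦) {x y : G}
    (hx : x ∈ sSup 𝒦) (hy : y ∈ sSup 𝒦) : El 2 (x⁻¹ * y⁻¹ * x * y) := by
  refine hT.mem_P.1 ((h.fam hK).comm_mod hT.P (fun X hX => ?_) hx hy)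
  obtain ⟨ι, -, rfl⟩ := h.emb X hX
  rintro _ ⟨a, rfl⟩ _ ⟨b, rfl⟩
  have := (hK.el2 (hK.comm_mem a b)).map ι
  simp only [map_mul, map_inv] at this
  exact hT.mem_P.2 this

lemma KFam.pow_el2 (hT : Tower G) {𝒦 : Set (Subgroup G)} (h : KFam K 𝒦) {x : G}
    (hx : x ∈ sSup 𝒦) : El 2 (x ^ 7) := by
  refine hT.mem_P.1 ((h.fam hK).pow_mod hT.P (fun X hX => ?_) 7 (fun X hX => ?_) hx)
  · obtain ⟨ι, -, rfl⟩ := h.emb X hX
    rintro _ ⟨a, rfl⟩ _ ⟨b, rfl⟩
    have := (hK.el2 (hK.comm_mem a b)).map ι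
    simp only [map_mul, map_inv] at this
    exact hT.mem_P.2 this
  · obtain ⟨ι, -, rfl⟩ := h.emb X hX
    rintro _ ⟨a, rfl⟩
    have := (hK.el2 (hK.pow7 a)).map ι
    rw [map_pow] at this
    exact hT.mem_P.2 this

variable {B : Subgroup (MulAut K)} (hB : Adm B₀ B)

omit hK in
include hB in
lemma Comps.acts {L : Subgroup G} {𝒦 : Set (Subgroup G)} (h : Comps B L 𝒦) {ι : K →* G}
    (hι : Function.Injective ι) (hX : ι.range ∈ 𝒦) {g : G} (hg : g ∈ L) :
    ∃ α ∈ B, Acts ι g α := by
  obtain ⟨ι', h1, h2, h3⟩ := h.emb _ hX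
  obtain ⟨β, hβ⟩ := exists_reparam h1 hι h2.symm
  obtain ⟨α, hα, ha⟩ := h3 g hg
  exact ⟨_, by simpa using hB.normal.conj_mem α hα β⁻¹, ha.reparam hβ⟩

lemma Comps.mem_sSup_iff (hT : Tower G) {L : Subgroup G} {𝒦 : Set (Subgroup G)}
    (h : Comps B L 𝒦) {m : G} : m ∈ sSup 𝒦 ↔ m ∈ L ∧ El 14 m :=
  ⟨fun hm => ⟨(sSup_le h.le : sSup 𝒦 ≤ L) hm, h.kfam.el14 hK hT hm⟩, fun hm => h.gen m hm.1 hm.2⟩

lemma Comps.normal (hT : Tower G) {L : Subgroup G} [hL : L.Normal] {𝒦 : Set (Subgroup G)}
    (h : Comps B L 𝒦) : (sSup 𝒦).Normal :=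
  ⟨fun m hm g => by
    rw [h.mem_sSup_iff hK hT] at hm ⊢
    exact ⟨hL.conj_mem m hm.1 g, hm.2.conj g⟩⟩

include hB in
lemma Comps.exists_scalar {N : Subgroup G} {𝒦 : Set (Subgroup G)} (h : Comps B (Lrel N) 𝒦)
    {ι : K →* G} (hι : Function.Injective ι) (hX : ι.range ∈ 𝒦) :
    ∃ g ∈ Lrel N, El 3 g ∧ ∃ α ∈ B₀, α ≠ 1 ∧ Acts ι g α := by
  by_contra hcon
  push Not at hcon
  have h1 : Lrel N ≤ centralizer (ι.range : Set G) := by
    rw [Lrel_le_iff]
    intro g hg h3
    obtain ⟨α, hα, ha⟩ := h.acts hB hι hX (mem_Lrel hg h3)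
    by_cases e : α = 1
    · subst e
      exact acts_one_iff.1 ha
    · obtain ⟨n, hn, hne⟩ := hB.pow α hα (ha.el hι h3) e
      exact absurd (ha.pow n) (hcon _ (pow_mem (mem_Lrel hg h3) n) (h3.pow n) _ hn hne)
  apply hK.not_comm
  intro a x
  apply hι
  rw [map_mul, map_mul]
  exact h1 (h.le _ hX ⟨a, rfl⟩) _ ⟨x, rfl⟩

end

end Pool.Agent.MP_060950_al

end
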