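import Pool.Agent.MP_060950_al.Mg.Fail

/-!
Finite data for the concrete group.
-/

namespace Pool.Agent.MP_060950_al

/-- The field with seven elements. -/
abbrev Z7 : Type := ZMod 7

/-- The additive group of the field with eight elements. -/
abbrev S8 : Type := ZMod 2 × ZMod 2 × ZMod 2

/-- Multiplication by a generator. -/
def mulT (s : S8) : S8 := (s.2.2, s.1 + s.2.2, s.2.1)

/-- The Frobenius map. -/
def frob1 (s : S8) : S8 := (s.1, s.2.2, s.2.1 + s.2.2)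

/-- The action of the cyclic group of order 7. -/
def act (a : Z7) (s : S8) : S8 := mulT^[a.val] s

/-- Powers of Frobenius. -/
def frob (e : ZMod 3) (s : S8) : S8 := frob1^[e.val] s

/-- Powers of two. -/
def tw (e : ZMod 3) : Z7 := 2 ^ e.val

lemma act_zero : ∀ s, act 0 s = s := by decide +kernel
lemma act_add : ∀ a b s, act (a + b) s = act a (act b s) := by decide +kernel
lemma act_add' : ∀ a s t, act a (s + t) = act a s + act a t := by decide +kernel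
lemma act_zero' : ∀ a, act a 0 = 0 := by decide +kernel
lemma s8_add_self : ∀ s : S8, s + s = 0 := by decide +kernel
lemma act_fix : ∀ a s, act a s = s → a = 0 ∨ s = 0 := by decide +kernel
lemma act_trans : ∀ s t, s ≠ 0 → t ≠ 0 → ∃ a, act a s = t := by decide +kernel
lemma act_surj : ∀ a, a ≠ 0 → ∀ t, ∃ s, s + act a s = t := by decide +kernel
lemma frob_add : ∀ e f s, frob (e + f) s = frob e (frob f s) := by decide +kernel
lemma frob_add' : ∀ e s t, frob e (s + t) = frob e s + frob e t := by decide +kernel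
lemma frob_act : ∀ e a s, frob e (act a s) = act (tw e * a) (frob e s) := by decide +kernel
lemma frob_eq_zero : ∀ e s, frob e s = 0 → s = 0 := by decide +kernel
lemma frob_zero : ∀ s, frob 0 s = s := by decide +kernel
lemma tw_add : ∀ e f, tw (e + f) = tw e * tw f := by decide +kernel

/-- Vectors. -/
abbrev V3 : Type := Z7 × Z7 × Z7

/-- The pairing. -/
def dot (u v : V3) : Z7 := u.1 * v.1 + u.2.1 * v.2.1 + u.2.2 * v.2.2

/-- Scalar multiples. -/
def sm (a : Z7) (v : V3) : V3 := (a * v.1, a * v.2.1, a * v.2.2)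

/-- Matrices, given by their rows. -/
def M3 : Type := V3 × V3 × V3

instance : DecidableEq M3 := inferInstanceAs (DecidableEq (V3 × V3 × V3))

/-- A matrix applied to a column vector. -/
def app (A : M3) (v : V3) : V3 := (dot A.1 v, dot A.2.1 v, dot A.2.2 v)

/-- A row vector times a matrix. -/
def vm (u : V3) (A : M3) : V3 :=
  (u.1 * A.1.1 + u.2.1 * A.2.1.1 + u.2.2 * A.2.2.1,
   u.1 * A.1.2.1 + u.2.1 * A.2.1.2.1 + u.2.2 * A.2.2.2.1,
   u.1 * A.1.2.2 + u.2.1 * A.2.1.2.2 + u.2.2 * A.2.2.2.2)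

/-- The determinant. -/
def det (A : M3) : Z7 :=
  A.1.1 * (A.2.1.2.1 * A.2.2.2.2 - A.2.1.2.2 * A.2.2.2.1) -
  A.1.2.1 * (A.2.1.1 * A.2.2.2.2 - A.2.1.2.2 * A.2.2.1) +
  A.1.2.2 * (A.2.1.1 * A.2.2.2.1 - A.2.1.2.1 * A.2.2.1)

/-- The product of matrices. -/
def mm (A B : M3) : M3 := (vm A.1 B, vm A.2.1 B, vm A.2.2 B)

lemma dot_app (u : V3) (A : M3) (v : V3) : dot u (app A v) = dot (vm u A) v := by
  simp only [dot, app, vm]; ring

lemma dot_add (u v w : V3) : dot u (v + w) = dot u v + dot u w := by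
  simp only [dot, Prod.fst_add, Prod.snd_add]; ring

lemma dot_zero (u : V3) : dot u 0 = 0 := by simp [dot]

lemma dot_neg (u v : V3) : dot u (-v) = -dot u v := by
  simp only [dot, Prod.fst_neg, Prod.snd_neg]; ring

lemma dot_sm (a : Z7) (u v : V3) : dot (sm a u) v = a * dot u v := by
  simp only [dot, sm]; ring

lemma app_add (A : M3) (v w : V3) : app A (v + w) = app A v + app A w := by
  simp only [app, dot_add, Prod.mk_add_mk]

lemma app_mm (A B : M3) (v : V3) : app (mm A B) v = app A (app B v) := by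
  simp only [mm, ← dot_app, app]

lemma dot_ext {u u' : V3} (h : ∀ v, dot u v = dot u' v) : u = u' := by
  have h1 := h (1, 0, 0)
  have h2 := h (0, 1, 0)
  have h3 := h (0, 0, 1)
  simp only [dot, mul_one, mul_zero, add_zero, zero_add] at h1 h2 h3
  exact Prod.ext h1 (Prod.ext h2 h3)

lemma app_ext {A B : M3} (h : ∀ v, app A v = app B v) : A = B :=
  Prod.ext (dot_ext (fun v => congrArg (fun x => x.1) (h v)))
    (Prod.ext (dot_ext (fun v => congrArg (fun x => x.2.1) (h v)))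
      (dot_ext (fun v => congrArg (fun x => x.2.2) (h v))))

/-- The identity matrix. -/
def mI : M3 := ((1, 0, 0), (0, 1, 0), (0, 0, 1))

lemma app_mI (v : V3) : app mI v = v := by simp [app, mI, dot]

instance : Monoid M3 where
  mul := mm
  one := mI
  mul_assoc A B C := app_ext (fun v => by
    show app (mm (mm A B) C) v = app (mm A (mm B C)) v
    simp only [app_mm])
  one_mul A := app_ext (fun v => by
    show app (mm mI A) v = _
    rw [app_mm, app_mI])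
  mul_one A := app_ext (fun v => by
    show app (mm A mI) v = _
    rw [app_mm, app_mI])

lemma app_mul (A B : M3) (v : V3) : app (A * B) v = app A (app B v) := app_mm A B v

lemma app_one (v : V3) : app 1 v = v := app_mI v

lemma det_mul (A B : M3) : det (A * B) = det A * det B := by
  show det (mm A B) = _
  simp only [det, mm, vm]; ring

lemma det_one : det 1 = 1 := by decide +kernel

lemma vm_mul (u : V3) (A B : M3) : vm u (A * B) = vm (vm u A) B :=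
  dot_ext (fun v => by rw [← dot_app, ← dot_app, ← dot_app, app_mul])

lemma vm_sm (a : Z7) (u : V3) (A : M3) : vm (sm a u) A = sm a (vm u A) :=
  dot_ext (fun v => by rw [← dot_app, dot_sm, dot_sm, dot_app])

lemma sm_sm (a b : Z7) (u : V3) : sm a (sm b u) = sm (a * b) u := by
  simp only [sm, mul_assoc]

/-- The nine weights. -/
def wt : Fin 9 → V3 :=
  ![(1, 1, 5), (1, 2, 6), (1, 3, 1), (3, 2, 1), (1, 4, 3), (1, 5, 2), (3, 1, 2), (1, 6, 4), (3, 4, 4)]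

/-- First kernel vectors. -/
def ka : Fin 9 → V3 :=
  ![(6, 1, 0), (5, 1, 0), (4, 1, 0), (4, 1, 0), (3, 1, 0), (2, 1, 0), (2, 1, 0), (1, 1, 0), (1, 1, 0)]

/-- Second kernel vectors. -/
def kb : Fin 9 → V3 :=
  ![(2, 0, 1), (1, 0, 1), (6, 0, 1), (2, 0, 1), (4, 0, 1), (5, 0, 1), (4, 0, 1), (3, 0, 1), (1, 0, 1)]

/-- The matrix of order nine. -/
def mX : M3 := ((0, 0, 2), (1, 0, 0), (0, 1, 0))

/-- The matrix of order three. -/
def mY : M3 := ((1, 0, 0), (0, 2, 0), (0, 0, 4))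

/-- The scalar matrix. -/
def mZ : M3 := ((2, 0, 0), (0, 2, 0), (0, 0, 2))

/-- The permutation of the weights by mX. -/
def piX : Fin 9 → Fin 9 := ![5, 2, 6, 4, 7, 8, 1, 3, 0]

/-- The twists for mX. -/
def eX : Fin 9 → ZMod 3 := ![0, 1, 0, 1, 2, 2, 0, 1, 2]

/-- The permutation of the weights by mY. -/
def piY : Fin 9 → Fin 9 := ![1, 4, 7, 8, 0, 2, 3, 5, 6]

/-- The twists for mY. -/
def eY : Fin 9 → ZMod 3 := fun _ => 0

/-- The nonzero multiples of the weights. -/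
def L54 : List V3 :=
  [(1, 1, 5), (1, 2, 6), (1, 3, 1), (1, 3, 5), (1, 4, 3), (1, 5, 2), (1, 5, 3), (1, 6, 4),
    (1, 6, 6), (2, 1, 6), (2, 2, 3), (2, 3, 4), (2, 3, 6), (2, 4, 5), (2, 5, 1), (2, 5, 5),
    (2, 6, 2), (2, 6, 3), (3, 1, 2), (3, 1, 6), (3, 2, 1), (3, 2, 3), (3, 3, 1), (3, 4, 4),
    (3, 4, 5), (3, 5, 2), (3, 6, 4), (4, 1, 3), (4, 2, 5), (4, 3, 2), (4, 3, 3), (4, 4, 6),
    (4, 5, 4), (4, 5, 6), (4, 6, 1), (4, 6, 5), (5, 1, 4), (5, 1, 5), (5, 2, 2), (5, 2, 6),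
    (5, 3, 2), (5, 4, 1), (5, 4, 3), (5, 5, 4), (5, 6, 1), (6, 1, 1), (6, 1, 3), (6, 2, 4),
    (6, 2, 5), (6, 3, 4), (6, 4, 2), (6, 4, 6), (6, 5, 1), (6, 6, 2)]

/-- Fast membership test. -/
def inL (v : V3) : Bool :=
  Nat.testBit
    562705517808361837844287780865256657565522033983904981520484028978510124743031687910261043111636500480
    (v.1.val * 49 + v.2.1.val * 7 + v.2.2.val)

/-- The stabiliser of the nine points. -/
def Gam : List M3 :=
  [((0, 0, 1), (1, 0, 0), (0, 2, 0)), ((0, 0, 1), (2, 0, 0), (0, 1, 0)),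
    ((0, 0, 1), (4, 0, 0), (0, 4, 0)), ((0, 0, 2), (1, 0, 0), (0, 1, 0)),
    ((0, 0, 2), (2, 0, 0), (0, 4, 0)), ((0, 0, 2), (4, 0, 0), (0, 2, 0)),
    ((0, 0, 3), (3, 0, 0), (0, 6, 0)), ((0, 0, 3), (5, 0, 0), (0, 5, 0)),
    ((0, 0, 3), (6, 0, 0), (0, 3, 0)), ((0, 0, 4), (1, 0, 0), (0, 4, 0)),
    ((0, 0, 4), (2, 0, 0), (0, 2, 0)), ((0, 0, 4), (4, 0, 0), (0, 1, 0)),
    ((0, 0, 5), (3, 0, 0), (0, 5, 0)), ((0, 0, 5), (5, 0, 0), (0, 3, 0)),
    ((0, 0, 5), (6, 0, 0), (0, 6, 0)), ((0, 0, 6), (3, 0, 0), (0, 3, 0)),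
    ((0, 0, 6), (5, 0, 0), (0, 6, 0)), ((0, 0, 6), (6, 0, 0), (0, 5, 0)),
    ((0, 1, 0), (0, 0, 1), (4, 0, 0)), ((0, 1, 0), (0, 0, 2), (2, 0, 0)),
    ((0, 1, 0), (0, 0, 4), (1, 0, 0)), ((0, 2, 0), (0, 0, 1), (2, 0, 0)),
    ((0, 2, 0), (0, 0, 2), (1, 0, 0)), ((0, 2, 0), (0, 0, 4), (4, 0, 0)),
    ((0, 3, 0), (0, 0, 3), (5, 0, 0)), ((0, 3, 0), (0, 0, 5), (3, 0, 0)),
    ((0, 3, 0), (0, 0, 6), (6, 0, 0)), ((0, 4, 0), (0, 0, 1), (1, 0, 0)),
    ((0, 4, 0), (0, 0, 2), (4, 0, 0)), ((0, 4, 0), (0, 0, 4), (2, 0, 0)),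
    ((0, 5, 0), (0, 0, 3), (3, 0, 0)), ((0, 5, 0), (0, 0, 5), (6, 0, 0)),
    ((0, 5, 0), (0, 0, 6), (5, 0, 0)), ((0, 6, 0), (0, 0, 3), (6, 0, 0)),
    ((0, 6, 0), (0, 0, 5), (5, 0, 0)), ((0, 6, 0), (0, 0, 6), (3, 0, 0)),
    ((1, 0, 0), (0, 1, 0), (0, 0, 1)), ((1, 0, 0), (0, 2, 0), (0, 0, 4)),
    ((1, 0, 0), (0, 4, 0), (0, 0, 2)), ((2, 0, 0), (0, 1, 0), (0, 0, 4)),
    ((2, 0, 0), (0, 2, 0), (0, 0, 2)), ((2, 0, 0), (0, 4, 0), (0, 0, 1)),
    ((3, 0, 0), (0, 3, 0), (0, 0, 3)), ((3, 0, 0), (0, 5, 0), (0, 0, 6)),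
    ((3, 0, 0), (0, 6, 0), (0, 0, 5)), ((4, 0, 0), (0, 1, 0), (0, 0, 2)),
    ((4, 0, 0), (0, 2, 0), (0, 0, 1)), ((4, 0, 0), (0, 4, 0), (0, 0, 4)),
    ((5, 0, 0), (0, 3, 0), (0, 0, 6)), ((5, 0, 0), (0, 5, 0), (0, 0, 5)),
    ((5, 0, 0), (0, 6, 0), (0, 0, 3)), ((6, 0, 0), (0, 3, 0), (0, 0, 5)),
    ((6, 0, 0), (0, 5, 0), (0, 0, 3)), ((6, 0, 0), (0, 6, 0), (0, 0, 6))]

/-- The basis of weights. -/
def mB : M3 := ((1, 1, 5), (1, 2, 6), (1, 3, 1))

/-- Its inverse. -/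
def mBi : M3 := ((5, 0, 3), (5, 3, 6), (1, 5, 1))

lemma mBi_mul : mBi * mB = 1 := by decide +kernel

lemma wt_eq : ∀ i, wt i = vm (vm (wt i) mBi) mB := by decide +kernel

lemma inL_mem : ∀ v, inL v = true → v ∈ L54 := by decide +kernel

lemma inL_of_ker : ∀ v : V3, ∀ j, dot v (ka j) = 0 → dot v (kb j) = 0 → v = 0 ∨ inL v = true := by
  decide +kernel

/-- The test for a triple of rows. -/
def test3 (v0 v1 v2 : V3) : Bool :=
  !(inL (vm (0, 6, 2) (v0, v1, v2))) || !(inL (vm (5, 4, 1) (v0, v1, v2))) ||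
    !(inL (vm (1, 6, 3) (v0, v1, v2))) || !(inL (vm (4, 3, 1) (v0, v1, v2))) ||
    !(inL (vm (4, 4, 2) (v0, v1, v2))) || decide (det (v0, v1, v2) = 0) ||
    decide (mm mBi (v0, v1, v2) ∈ Gam)

lemma enum_aux : (L54.all fun v0 => L54.all fun v1 =>
    !(inL (vm (4, 4, 0) (v0, v1, 0))) || L54.all fun v2 => test3 v0 v1 v2) = true := by
  decide +kernel

lemma enum : ∀ v0 ∈ L54, ∀ v1 ∈ L54, inL (vm (4, 4, 0) (v0, v1, 0)) = true → ∀ v2 ∈ L54,
    inL (vm (0, 6, 2) (v0, v1, v2)) = true → inL (vm (5, 4, 1) (v0, v1, v2)) = true →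
    inL (vm (1, 6, 3) (v0, v1, v2)) = true → inL (vm (4, 3, 1) (v0, v1, v2)) = true →
    inL (vm (4, 4, 2) (v0, v1, v2)) = true → det (v0, v1, v2) ≠ 0 →
    mm mBi (v0, v1, v2) ∈ Gam := by
  intro v0 h0 v1 h1 k0 v2 h2 k1 k2 k3 k4 k5 k6
  have h := List.all_eq_true.1 (List.all_eq_true.1 enum_aux v0 h0) v1 h1
  rw [k0] at h
  have h' := List.all_eq_true.1 h v2 h2
  simpa [test3, k1, k2, k3, k4, k5, k6] using h'

lemma wt_ka : ∀ j, dot (wt j) (ka j) = 0 := by decide +kernel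
lemma wt_kb : ∀ j, dot (wt j) (kb j) = 0 := by decide +kernel
lemma wt_sep : ∀ i j, i ≠ j → dot (wt i) (ka j) ≠ 0 ∨ dot (wt i) (kb j) ≠ 0 := by decide +kernel
lemma wt_surj : ∀ i a, ∃ b : Z7, dot (wt i) (b, 0, 0) = a := by decide +kernel
lemma wt_five : ∀ c : V3, c ≠ 0 → 5 ≤ (Finset.univ.filter (fun i => dot (wt i) c ≠ 0)).card := by
  decide +kernel
lemma wt_uniq : ∀ i j e f, sm (tw e) (wt i) = sm (tw f) (wt j) → i = j ∧ e = f := by
  decide +kernel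
lemma wt_X : ∀ i, vm (wt i) mX = sm (tw (eX i)) (wt (piX i)) := by decide +kernel
lemma wt_Y : ∀ i, vm (wt i) mY = sm (tw (eY i)) (wt (piY i)) := by decide +kernel
lemma piX_surj : Function.Surjective piX := by decide +kernel
lemma piY_surj : Function.Surjective piY := by decide +kernel

/-- No nonzero fixed vectors. -/
def NoFix (A : M3) : Prop := ∀ c : V3, app A c = c → c = 0

instance (A : M3) : Decidable (NoFix A) := inferInstanceAs (Decidable (∀ _ : V3, _ → _))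

/-- The logarithm of the fourth power. -/
def lg (a : Z7) : ZMod 3 := if a = 1 ∨ a = 6 then 0 else if a = 2 ∨ a = 5 then 1 else 2

lemma lg_mul : ∀ a b, a ≠ 0 → b ≠ 0 → lg (a * b) = lg a + lg b := by decide +kernel

lemma gam_pow : ∀ A ∈ Gam, A ^ 18 = 1 := by decide +kernel
lemma gam_lg : ∀ A ∈ Gam, lg (det A) = 0 ∨ NoFix A := by decide +kernel
lemma gam_Z : ∀ A ∈ Gam, A * mZ = mZ * A := by decide +kernel
lemma gam_X : ∀ A ∈ Gam, ∃ m : Fin 9, A * mX = mX ^ m.val * A := by decide +kernel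
lemma gam_XY : ∀ A ∈ Gam, ∃ m : Fin 9, A * (mX * mY) = (mX * mY) ^ m.val * A := by
  decide +kernel
lemma gam_stab : ∀ A ∈ Gam, ∀ i, dot (wt i) (app A (ka i)) = 0 → dot (wt i) (app A (kb i)) = 0 →
    A ^ 9 = 1 → ∃ t : Fin 3, A = mZ ^ t.val := by decide +kernel
lemma scal_stab : ∀ t : Fin 9, ∀ i j, dot (wt j) (app (mZ ^ t.val) (ka i)) = 0 →
    dot (wt j) (app (mZ ^ t.val) (kb i)) = 0 → j = i := by decide +kernel
lemma mZ_nine : mZ ^ 9 = 1 := by decide +kernel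
lemma mX_nine : mX ^ 9 = 1 := by decide +kernel
lemma mXY_nine : (mX * mY) ^ 9 = 1 := by decide +kernel
lemma mX_three : mX ^ 3 = mZ := by decide +kernel
lemma mXY_three : (mX * mY) ^ 3 = mZ := by decide +kernel
lemma mYX : mY * mX = mX ^ 4 * mY := by decide +kernel
lemma mYXY : mY * (mX * mY) = (mX * mY) ^ 4 * mY := by decide +kernel
lemma mZ_fix : ∀ j : Fin 9, mZ ^ j.val = 1 ∨ NoFix (mZ ^ j.val) := by decide +kernel
lemma mX_fix : ∀ j : Fin 9, mX ^ j.val = 1 ∨ NoFix (mX ^ j.val) := by decide +kernel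
lemma mXY_fix : ∀ j : Fin 9, (mX * mY) ^ j.val = 1 ∨ NoFix ((mX * mY) ^ j.val) := by
  decide +kernel
lemma mX_pow : ∀ j : Fin 9, mX ^ j.val = 1 ∨ ∃ n : Fin 4, ∃ t : Fin 3,
    (mX ^ j.val) ^ n.val = mZ ^ t.val ∧ (mX ^ j.val) ^ n.val ≠ 1 := by decide +kernel
lemma mXY_pow : ∀ j : Fin 9, (mX * mY) ^ j.val = 1 ∨ ∃ n : Fin 4, ∃ t : Fin 3,
    ((mX * mY) ^ j.val) ^ n.val = mZ ^ t.val ∧ ((mX * mY) ^ j.val) ^ n.val ≠ 1 := by
  decide +kernel
lemma m_inf : ∀ i j : Fin 9, mX ^ i.val = (mX * mY) ^ j.val → ∃ t : Fin 3,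
    mX ^ i.val = mZ ^ t.val := by decide +kernel
lemma mZ_lg : ∀ s t : Fin 9, lg (mZ ^ s.val * mZ ^ t.val).1.1 =
    lg (mZ ^ s.val).1.1 + lg (mZ ^ t.val).1.1 := by decide +kernel
lemma mX_nofix : NoFix mX := by decide +kernel
lemma mXY_nofix : NoFix (mX * mY) := by decide +kernel
lemma mX_inj : ∀ c, app mX c = 0 → c = 0 := by decide +kernel
lemma mY_inj : ∀ c, app mY c = 0 → c = 0 := by decide +kernel
lemma lg_X : lg (det mX) = 1 := by decide +kernel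
lemma lg_XY : lg (det (mX * mY)) = 1 := by decide +kernel
lemma lg_Z : lg mZ.1.1 ≠ 0 := by decide +kernel

/-- The classification of the matrices permuting the weights. -/
lemma mem_gam {A : M3} (hd : det A ≠ 0) (h : ∀ i, inL (vm (wt i) A) = true) : A ∈ Gam := by
  have e : ∀ i, vm (wt i) A = vm (vm (wt i) mBi) (mB * A) := fun i => by
    rw [vm_mul, ← wt_eq]
  have h5 := h 5
  have h4 := h 4
  have h3 := h 3
  have h6 := h 6
  have h7 := h 7
  have h8 := h 8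
  rw [e] at h3 h4 h5 h6 h7 h8
  have k : mm mBi (mB * A) = A := by
    show mBi * (mB * A) = A
    rw [← mul_assoc, mBi_mul, one_mul]
  rw [← k]
  refine enum _ (inL_mem _ (h 0)) _ (inL_mem _ (h 1)) ?_ _ (inL_mem _ (h 2)) h4 h3 h6 h7 h8 ?_
  · rw [← h5]
    congr 1
    have : vm (wt 5) mBi = (4, 4, 0) := by decide +kernel
    rw [this]
    simp only [vm, zero_mul, add_zero]
    rfl
  · show det (mB * A) ≠ 0
    rw [det_mul]
    exact mul_ne_zero (by decide +kernel) hd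

end Pool.Agent.MP_060950_al
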