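import Pool.Agent.MP_060950_al.Mg.Comps

-- part MP_060950_al.Dichotomy
section

/-!
The key dichotomy for two normal subgroups with a decomposition into copies of K.
-/

namespace Pool.Agent.MP_060950_al

open Subgroup

variable {K : Type} [Group K] {W : Subgroup K} {B₀ : Subgroup (MulAut K)} (hK : Hyp K W B₀)
  {G : Type} [Group G] (hT : Tower G)

lemma mem_map_conj {X : Subgroup G} (g : G) {x : G} (hx : x ∈ X) :
    g * x * g⁻¹ ∈ X.map (MulAut.conj g).toMonoidHom := ⟨x, hx, rfl⟩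

lemma mem_normalizer_of_map_conj {X : Subgroup G} {g : G}
    (h : X.map (MulAut.conj g).toMonoidHom = X) : g ∈ normalizer (X : Set G) := by
  rw [mem_normalizer_iff]
  intro x
  constructor
  · intro hx
    rw [← h]; exact mem_map_conj g hx
  · intro hx
    rw [← h] at hx
    obtain ⟨y, hy, e⟩ := hx
    have : y = x := (MulAut.conj g).injective e
    rwa [← this]

include hK hT

lemma KFam.normalizes_of_el2 {𝒦 : Set (Subgroup G)} (h : KFam K 𝒦) (hn : (sSup 𝒦).Normal)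
    {X : Subgroup G} (hX : X ∈ 𝒦) {u : G} (hu : El 2 u) : u ∈ normalizer (X : Set G) := by
  have := hT.fin
  apply mem_normalizer_of_map_conj
  by_contra hne
  have hY := h.conj_mem hK hn hX u
  obtain ⟨ι, hι, rfl⟩ := h.emb X hX
  apply hK.not_all_el2
  intro k
  have h1 : El 2 ((ι k)⁻¹ * (u * ι k * u⁻¹)) := by
    have h2 := mul_mem ((inferInstance : hT.P.Normal).conj_mem _ (hT.mem_P.2 hu) (ι k)⁻¹)
      (inv_mem (hT.mem_P.2 hu))
    rw [← hT.mem_P]
    simpa [mul_assoc] using h2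
  have h3 := el_of_mul (hK.center_range ι hι) (inv_mem ⟨k, rfl⟩)
    (h.comm _ hX _ hY (Ne.symm hne) _ (mem_map_conj u ⟨k, rfl⟩)) h1
  have h4 := h3.inv
  rw [inv_inv] at h4
  exact h4.of_map ι hι

lemma KFam.normalizes {𝒦₁ 𝒦₂ : Set (Subgroup G)} (h₁ : KFam K 𝒦₁) (h₂ : KFam K 𝒦₂)
    (hn₁ : (sSup 𝒦₁).Normal) (hn₂ : (sSup 𝒦₂).Normal) {X : Subgroup G} (hX : X ∈ 𝒦₁) {u : G}
    (hu : u ∈ sSup 𝒦₂) : u ∈ normalizer (X : Set G) := by
  have := hT.fin
  by_contra hnot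
  have hY := h₁.conj_mem hK hn₁ hX u
  have hZ := h₁.conj_mem hK hn₁ hX (u ^ 2)
  have hYX : X ≠ X.map (MulAut.conj u).toMonoidHom :=
    fun e => hnot (mem_normalizer_of_map_conj e.symm)
  have hZX : X ≠ X.map (MulAut.conj (u ^ 2)).toMonoidHom := fun e =>
    hnot (mem_of_pow_mem_of_coprime (a := 2) (b := 7) (by norm_num)
      (mem_normalizer_of_map_conj e.symm)
      (h₁.normalizes_of_el2 hK hT hn₁ hX (h₂.pow_el2 hK hT hu)))
  obtain ⟨ι, hι, rfl⟩ := h₁.emb X hX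
  apply hK.not_all_el2
  intro k
  have hv : (ι k)⁻¹ * (u * ι k * u⁻¹) ∈ sSup 𝒦₂ := by
    have h2 := mul_mem (hn₂.conj_mem _ hu (ι k)⁻¹) (inv_mem hu)
    simpa [mul_assoc] using h2
  have h1 := h₂.comm_el2 hK hT hv (inv_mem hu)
  have hy : Cent ι.range (u * ι k * u⁻¹) :=
    h₁.comm _ hX _ hY hYX _ (mem_map_conj u ⟨k, rfl⟩)
  have hz : Cent ι.range (u ^ 2 * ι k * (u ^ 2)⁻¹) :=
    h₁.comm _ hX _ hZ hZX _ (mem_map_conj (u ^ 2) ⟨k, rfl⟩)
  have h3 : ((ι k)⁻¹ * (u * ι k * u⁻¹))⁻¹ * u⁻¹⁻¹ * ((ι k)⁻¹ * (u * ι k * u⁻¹)) * u⁻¹ =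
      ι k * ((u * ι k * u⁻¹)⁻¹ * ((u * ι k * u⁻¹)⁻¹ * (u ^ 2 * ι k * (u ^ 2)⁻¹))) := by
    rw [← mul_assoc (ι k), hy.inv _ ⟨k, rfl⟩, pow_two]
    group
  rw [h3] at h1
  exact (el_of_mul (hK.center_range ι hι) ⟨k, rfl⟩ (hy.inv.mul (hy.inv.mul hz)) h1).of_map ι hι

lemma Acts.triv_of_el2 {ι : K →* G} (hι : Function.Injective ι) {u : G} {α : MulAut K}
    (h : Acts ι u α) (hu : El 2 u) : Triv W α := by
  intro k
  apply hK.mem_W
  apply El.of_map ι hι
  rw [map_mul, map_inv, h, ← hT.mem_P]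
  have h2 := mul_mem ((inferInstance : hT.P.Normal).conj_mem _ (hT.mem_P.2 hu) (ι k)⁻¹)
    (inv_mem (hT.mem_P.2 hu))
  simpa [mul_assoc] using h2

lemma KFam.acts_triv {𝒦₁ 𝒦₂ : Set (Subgroup G)} (h₁ : KFam K 𝒦₁) (h₂ : KFam K 𝒦₂)
    (hn₁ : (sSup 𝒦₁).Normal) (hn₂ : (sSup 𝒦₂).Normal) {ι : K →* G} (hι : Function.Injective ι)
    (hX : ι.range ∈ 𝒦₁) {u : G} (hu : u ∈ sSup 𝒦₂) : ∃ α, Triv W α ∧ Acts ι u α := by
  have := hK.fin
  have h1 := h₁.normalizes hK hT h₂ hn₁ hn₂ hX hu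
  obtain ⟨α, hα⟩ := exists_acts hι (fun x hx => (mem_normalizer_iff.1 h1 x).1 hx)
  exact ⟨α, hK.seven α ((hα.pow 7).triv_of_el2 hK hT hι (h₂.pow_el2 hK hT hu)), hα⟩

variable {B₁ B₂ : Subgroup (MulAut K)} (hB₂ : Adm B₀ B₂)

include hB₂ in
theorem dichotomy {L₁ N₂ : Subgroup G} [L₁.Normal] [N₂.Normal] {𝒦₁ 𝒦₂ : Set (Subgroup G)}
    (h₁ : Comps B₁ L₁ 𝒦₁) (h₂ : Comps B₂ (Lrel N₂) 𝒦₂) {X : Subgroup G} (hX : X ∈ 𝒦₁) :
    (∀ g ∈ Lrel N₂, Cent X g) ∨ X ∈ 𝒦₂ := by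
  have := hT.fin
  have := hK.fin
  have hn₁ := h₁.normal hK hT
  have hn₂ := h₂.normal hK hT
  have hF₁ := h₁.kfam.fam hK
  have hF₂ := h₂.kfam.fam hK
  have hL₂ : (Lrel N₂).Normal := inferInstance
  obtain ⟨ι, hι, rfl⟩ := h₁.kfam.emb X hX
  by_cases hD : (sSup 𝒦₂).comap ι = ⊥
  · left
    rintro u hu _ ⟨k, rfl⟩
    have hv₁ : (ι k)⁻¹ * (u * ι k * u⁻¹) ∈ sSup 𝒦₁ :=
      mul_mem (inv_mem (le_sSup hX ⟨k, rfl⟩)) (hn₁.conj_mem _ (le_sSup hX ⟨k, rfl⟩) u)
    have hv₂ : (ι k)⁻¹ * (u * ι k * u⁻¹) ∈ sSup 𝒦₂ := by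
      refine h₂.gen _ ?_ (h₁.kfam.el14 hK hT hv₁)
      have h2 := mul_mem (hL₂.conj_mem _ hu (ι k)⁻¹) (inv_mem hu)
      simpa [mul_assoc] using h2
    have hc : Cent ι.range ((ι k)⁻¹ * (u * ι k * u⁻¹)) := by
      intro x hx
      set v := (ι k)⁻¹ * (u * ι k * u⁻¹) with hv
      obtain ⟨j, hj⟩ := mul_mem hx (hF₁.conj_mem hX hv₁ (inv_mem hx))
      have h3 : j ∈ (sSup 𝒦₂).comap ι := by
        rw [mem_comap, hj]
        have h4 := mul_mem (hn₂.conj_mem _ hv₂ x) (inv_mem hv₂)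
        simpa [mul_assoc] using h4
      rw [hD, mem_bot] at h3
      rw [h3, map_one] at hj
      have : x * v = x * (v * x⁻¹ * v⁻¹) * (v * x) := by group
      rw [this, ← hj, one_mul]
    have hY := h₁.kfam.conj_mem hK hn₁ hX u
    have hv : (ι k)⁻¹ * (u * ι k * u⁻¹) = 1 := by
      by_cases e : ι.range = ι.range.map (MulAut.conj u).toMonoidHom
      · refine hF₁.center _ hX _ (mul_mem (inv_mem ⟨k, rfl⟩) ?_) hc
        rw [e]; exact mem_map_conj u ⟨k, rfl⟩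
      · have h5 := hc.mul (hF₁.comm _ hX _ hY e _ (mem_map_conj u ⟨k, rfl⟩)).inv
        rw [mul_inv_cancel_right] at h5
        have h6 := hF₁.center _ hX _ (inv_mem ⟨k, rfl⟩) h5
        rw [inv_eq_one] at h6
        rw [h6]; simp
    have : ι k * u = ι k * ((ι k)⁻¹ * (u * ι k * u⁻¹)) * u := by rw [hv, mul_one]
    rw [this]; group
  · right
    obtain ⟨V, hVle, hVn, hV8⟩ := hK.min _ inferInstance hD
    have hV₀n : ∀ u ∈ sSup 𝒦₂, ∀ v ∈ V.map ι, u * v * u⁻¹ ∈ V.map ι := by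
      rintro u hu _ ⟨v, hv, rfl⟩
      obtain ⟨α, ht, ha⟩ := h₁.kfam.acts_triv hK hT h₂.kfam hn₁ hn₂ hι hX hu
      exact ⟨α v, hK.B₀_min α (hK.triv_mem α ht) V hVn hV8 v hv, ha v⟩
    have hV₀card : Nat.card (V.map ι) = 8 := by
      rw [← hV8]; exact (Nat.card_congr (V.equivMapOfInjective ι hι).toEquiv).symm
    obtain ⟨v, hv, hv1⟩ : ∃ v ∈ V, v ≠ 1 := by
      by_contra hcon
      push Not at hcon
      have : V = ⊥ := (Subgroup.eq_bot_iff_forall V).2 hcon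
      rw [this] at hV8
      simp at hV8
    have hιv : ι v ≠ 1 := fun e => hv1 (hι (by rw [e, map_one]))
    obtain ⟨Y, hY, hYc⟩ : ∃ Y ∈ 𝒦₂, ¬ Cent Y (ι v) := by
      by_contra hcon
      push Not at hcon
      exact hιv (hF₂.eq_one_of_cent (hVle hv) hcon)
    obtain ⟨ι', hι', rfl⟩ := h₂.kfam.emb Y hY
    have hN' : ((V.map ι).comap ι').Normal := ⟨fun a ha x => by
      rw [mem_comap, map_mul, map_mul, map_inv]
      exact hV₀n _ (le_sSup hY ⟨x, rfl⟩) _ ha⟩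
    have hN'ne : (V.map ι).comap ι' ≠ ⊥ := by
      intro e
      apply hYc
      intro y hy
      obtain ⟨j, hj⟩ := mul_mem hy (hF₂.conj_mem hY (hVle hv) (inv_mem hy))
      have h3 : j ∈ (V.map ι).comap ι' := by
        rw [mem_comap, hj]
        have h4 := mul_mem (hV₀n _ (le_sSup hY hy) _ (mem_map_of_mem ι hv))
          (inv_mem (mem_map_of_mem ι hv))
        simpa [mul_assoc] using h4
      rw [e, mem_bot] at h3
      rw [h3, map_one] at hj
      have : y * ι v = y * (ι v * y⁻¹ * (ι v)⁻¹) * (ι v * y) := by group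
      rw [this, ← hj, one_mul]
    obtain ⟨V', hV'le, hV'n, hV'8⟩ := hK.min _ hN' hN'ne
    have hVV : V'.map ι' = V.map ι := by
      refine eq_of_le_of_card_ge (map_le_iff_le_comap.2 hV'le) ?_
      rw [hV₀card, ← hV'8]
      exact (Nat.card_congr (V'.equivMapOfInjective ι' hι').toEquiv).le
    obtain ⟨g, hg, hg3, β, hβ, hβ1, hgβ⟩ := h₂.exists_scalar hK hB₂ hι' hY
    have hgV : ∀ x ∈ V.map ι, g * x * g⁻¹ ∈ V.map ι := by
      rw [← hVV]
      rintro _ ⟨w, hw, rfl⟩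
      exact ⟨β w, hK.B₀_min β hβ V' hV'n hV'8 w hw, hgβ w⟩
    have hgX : ι.range.map (MulAut.conj g).toMonoidHom = ι.range := by
      refine hF₁.eq_of_mem (h₁.kfam.conj_mem hK hn₁ hX g) hX (mem_map_conj g ⟨v, rfl⟩)
        (map_le_range ι V (hgV _ (mem_map_of_mem ι hv))) ?_
      intro e
      apply hιv
      simpa using e
    obtain ⟨α, hα⟩ := exists_acts hι (g := g) (fun x hx => by
      rw [← hgX]; exact mem_map_conj g hx)
    have hα₀ : α ∈ B₀ := hK.three_min α (hα.el hι hg3) V hVn hV8 (fun w hw => by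
      obtain ⟨w', hw', e⟩ := hgV _ (mem_map_of_mem ι hw)
      rw [← hα] at e
      rwa [← hι e])
    have hα1 : α ≠ 1 := by
      intro e
      subst e
      have hc := acts_one_iff.1 hα
      have hfix : ∀ w ∈ V', β w = w := by
        intro w hw
        apply hι'
        rw [hgβ, ← hc _ (map_le_range ι V (hVV ▸ mem_map_of_mem ι' hw))]
        simp
      have hF := hK.fpf_of_B₀ hβ (hgβ.el hι' hg3) hβ1 (centralizer (V' : Set K)) inferInstance
        (fun k w hw => by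
          have e1 := hfix _ (hV'n.conj_mem w hw k)
          rw [map_mul, map_mul, map_inv, hfix w hw] at e1
          have e2 : w * (k⁻¹ * β k) = k⁻¹ * (k * w * k⁻¹) * β k := by group
          rw [e2, ← e1]; group)
      have : V' = ⊥ := (Subgroup.eq_bot_iff_forall V').2 (fun w hw => hK.center w (fun x => by
        have : x ∈ centralizer (V' : Set K) := by rw [hF]; trivial
        exact (this w hw).symm))
      rw [this] at hV'8
      simp at hV'8
    have hXL := hK.fpf_of_B₀ hα₀ (hα.el hι hg3) hα1 ((Lrel N₂).comap ι) inferInstance (fun k => by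
      rw [mem_comap, map_mul, map_inv, hα]
      have h2 := mul_mem (hL₂.conj_mem _ hg (ι k)⁻¹) (inv_mem hg)
      simpa [mul_assoc] using h2)
    refine h₂.kfam.mem_of_normal hK ι hι ?_ ?_
    · rintro _ ⟨k, rfl⟩
      refine h₂.gen _ ?_ ((hK.el14 k).map ι)
      have : k ∈ (Lrel N₂).comap ι := by rw [hXL]; trivial
      exact this
    · intro m hm x hx
      exact (mem_normalizer_iff.1 (h₁.kfam.normalizes hK hT h₂.kfam hn₁ hn₂ hX hm) x).1 hx

end Pool.Agent.MP_060950_al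

end

-- part MP_060950_al.Class
section

/-!
The Fitting classes attached to an admissible group of automorphisms of K.
-/

namespace Pool.Agent.MP_060950_al

open Subgroup

/-- The class attached to B. -/
def XClass {K : Type} [Group K] (B : Subgroup (MulAut K)) : GroupClass := fun G _ =>
  Tower G ∧ ∃ 𝒦 : Set (Subgroup G), Comps B (Lrel (⊤ : Subgroup G)) 𝒦

lemma map_mem_sSup_image {N G : Type} [Group N] [Group G] (φ : N →* G) {𝒦 : Set (Subgroup N)}
    {m : N} (hm : m ∈ sSup 𝒦) : φ m ∈ sSup (Subgroup.map φ '' 𝒦) := by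
  have : sSup 𝒦 ≤ (sSup (Subgroup.map φ '' 𝒦)).comap φ :=
    sSup_le (fun X hX x hx => (le_sSup (Set.mem_image_of_mem _ hX) :
      X.map φ ≤ sSup (Subgroup.map φ '' 𝒦)) (mem_map_of_mem φ hx))
  exact this hm

section

variable {K : Type} [Group K] {B : Subgroup (MulAut K)} {N G : Type} [Group N] [Group G]

lemma Comps.map (φ : N →* G) (hφ : Function.Injective φ) {L : Subgroup N} {𝒦 : Set (Subgroup N)}
    (h : Comps B L 𝒦) : Comps B (L.map φ) (Subgroup.map φ '' 𝒦) where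
  emb := by
    rintro _ ⟨X, hX, rfl⟩
    obtain ⟨ι, hι, rfl, ha⟩ := h.emb X hX
    refine ⟨φ.comp ι, hφ.comp hι, MonoidHom.range_comp _ _, ?_⟩
    rintro _ ⟨g, hg, rfl⟩
    obtain ⟨α, hα, e⟩ := ha g hg
    exact ⟨α, hα, fun k => by simp [e k]⟩
  le := by
    rintro _ ⟨X, hX, rfl⟩
    exact map_mono (h.le X hX)
  comm := by
    rintro _ ⟨X, hX, rfl⟩ _ ⟨Y, hY, rfl⟩ hne _ ⟨y, hy, rfl⟩ _ ⟨x, hx, rfl⟩
    rw [← map_mul, ← map_mul, h.comm X hX Y hY (fun e => hne (by rw [e])) y hy x hx]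
  gen := by
    rintro _ ⟨g, hg, rfl⟩ h14
    exact map_mem_sSup_image φ (h.gen g hg (h14.of_map φ hφ))

lemma Comps.comap (φ : N →* G) (hφ : Function.Injective φ) {L : Subgroup G} (hL : L ≤ φ.range)
    {𝒦 : Set (Subgroup G)} (h : Comps B L 𝒦) :
    Comps B (L.comap φ) (Subgroup.comap φ '' 𝒦) where
  emb := by
    rintro _ ⟨X, hX, rfl⟩
    have hle := (h.le X hX).trans hL
    obtain ⟨ι, hι, rfl, ha⟩ := h.emb X hX
    let ι' : K →* N := (MonoidHom.ofInjective hφ).symm.toMonoidHom.comp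
      (ι.codRestrict φ.range (fun k => hle ⟨k, rfl⟩))
    have hι' : ∀ k, φ (ι' k) = ι k := fun k => MonoidHom.apply_ofInjective_symm hφ _
    refine ⟨ι', fun a b hab => hι (by rw [← hι', ← hι', hab]), ?_, ?_⟩
    · ext x
      constructor
      · rintro ⟨k, rfl⟩
        exact ⟨k, (hι' k).symm⟩
      · rintro ⟨k, hk⟩
        exact ⟨k, hφ (by rw [hι', hk])⟩
    · intro g hg
      obtain ⟨α, hα, e⟩ := ha _ hg
      exact ⟨α, hα, fun k => hφ (by simp [hι', e k])⟩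
  le := by
    rintro _ ⟨X, hX, rfl⟩
    exact comap_mono (h.le X hX)
  comm := by
    rintro _ ⟨X, hX, rfl⟩ _ ⟨Y, hY, rfl⟩ hne y hy x hx
    apply hφ
    rw [map_mul, map_mul, h.comm X hX Y hY (fun e => hne (by rw [e])) _ hy _ hx]
  gen := by
    intro g hg h14
    have h1 := h.gen _ hg (h14.map φ)
    have h2 : sSup 𝒦 ≤ (sSup (Subgroup.comap φ '' 𝒦)).map φ := sSup_le (fun X hX x hx => by
      obtain ⟨n, rfl⟩ := hL (h.le X hX hx)
      exact mem_map_of_mem φ ((le_sSup (Set.mem_image_of_mem _ hX) :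
        X.comap φ ≤ sSup (Subgroup.comap φ '' 𝒦)) hx))
    obtain ⟨n, hn, e⟩ := h2 h1
    rwa [← hφ e]

/-- The elements acting on the image of ι through B. -/
def actSub (B : Subgroup (MulAut K)) (ι : K →* G) : Subgroup G where
  carrier := {g | ∃ α ∈ B, Acts ι g α}
  mul_mem' := fun ⟨α, hα, e⟩ ⟨β, hβ, e'⟩ => ⟨α * β, mul_mem hα hβ, e.mul e'⟩
  one_mem' := ⟨1, one_mem _, Acts.one⟩
  inv_mem' := fun ⟨α, hα, e⟩ => ⟨α⁻¹, inv_mem hα, e.inv⟩

end

section

variable {K : Type} [Group K] {W : Subgroup K} {B₀ B : Subgroup (MulAut K)} (hK : Hyp K W B₀)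
  (hB : Adm B₀ B)

include hK hB

omit hK in
lemma Comps.le_of_not_cent {G : Type} [Group G] {L N : Subgroup G} [N.Normal] (hle : Lrel N ≤ L)
    {𝒦 : Set (Subgroup G)} (h : Comps B L 𝒦) {X : Subgroup G} (hX : X ∈ 𝒦)
    (hc : ¬ ∀ g ∈ Lrel N, Cent X g) : X ≤ Lrel N := by
  have hL : (Lrel N).Normal := inferInstance
  obtain ⟨ι, hι, rfl, ha⟩ := h.emb X hX
  by_contra hcon
  apply hc
  refine (Lrel_le_iff.2 (fun g hg h3 => ?_) : Lrel N ≤ centralizer (ι.range : Set G))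
  obtain ⟨α, hα, e⟩ := ha g (hle (mem_Lrel hg h3))
  rcases hB.fpf α hα (e.el hι h3) with h1 | h1
  · subst h1
    exact acts_one_iff.1 e
  · exfalso
    apply hcon
    have := h1 ((Lrel N).comap ι) inferInstance (fun k => by
      rw [mem_comap, map_mul, map_inv, e]
      have h2 := mul_mem (hL.conj_mem _ (mem_Lrel hg h3) (ι k)⁻¹) (inv_mem (mem_Lrel hg h3))
      simpa [mul_assoc] using h2)
    rintro _ ⟨k, rfl⟩
    have h3 : k ∈ (Lrel N).comap ι := by rw [this]; trivial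
    exact h3

lemma Comps.restrict {G : Type} [Group G] [Finite G] {L N : Subgroup G} [N.Normal]
    (hle : Lrel N ≤ L) {𝒦 : Set (Subgroup G)} (h : Comps B L 𝒦) :
    Comps B (Lrel N) {X | X ∈ 𝒦 ∧ ¬ ∀ g ∈ Lrel N, Cent X g} where
  emb X hX := by
    obtain ⟨ι, hι, e, ha⟩ := h.emb X hX.1
    exact ⟨ι, hι, e, fun g hg => ha g (hle hg)⟩
  le X hX := h.le_of_not_cent hB hle hX.1 hX.2
  comm X hX Y hY := h.comm X hX.1 Y hY.1
  gen g hg h14 := by
    refine (h.kfam.fam hK).mem_sSup_of_cent (h.gen g (hle hg) h14) (fun X hX hXS => ?_)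
    by_contra hc
    exact hXS ⟨hX, fun hall => hc (hall g hg)⟩

lemma Comps.union {G : Type} [Group G] (hT : Tower G) {N₁ N₂ : Subgroup G} [N₁.Normal]
    [N₂.Normal] {𝒦₁ 𝒦₂ : Set (Subgroup G)} (h₁ : Comps B (Lrel N₁) 𝒦₁)
    (h₂ : Comps B (Lrel N₂) 𝒦₂) : Comps B (Lrel N₁ ⊔ Lrel N₂) (𝒦₁ ∪ 𝒦₂) where
  emb := by
    have key : ∀ {N₁ N₂ : Subgroup G} [N₁.Normal] [N₂.Normal] {𝒦₁ 𝒦₂ : Set (Subgroup G)},
        Comps B (Lrel N₁) 𝒦₁ → Comps B (Lrel N₂) 𝒦₂ → ∀ X ∈ 𝒦₁,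
        ∃ ι : K →* G, Function.Injective ι ∧ ι.range = X ∧ Lrel N₁ ≤ actSub B ι ∧
          Lrel N₂ ≤ actSub B ι := by
      intro N₁ N₂ _ _ 𝒦₁ 𝒦₂ h₁ h₂ X hX
      have hd := dichotomy hK hT hB h₁ h₂ hX
      obtain ⟨ι, hι, rfl, ha⟩ := h₁.emb X hX
      refine ⟨ι, hι, rfl, ha, fun g hg => ?_⟩
      rcases hd with hd | hd
      · exact ⟨1, one_mem _, acts_one_iff.2 (hd g hg)⟩
      · exact h₂.acts hB hι hd hg
    rintro X (hX | hX)
    · obtain ⟨ι, hι, e, a1, a2⟩ := key h₁ h₂ X hX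
      exact ⟨ι, hι, e, (sup_le a1 a2 : _ ≤ actSub B ι)⟩
    · obtain ⟨ι, hι, e, a1, a2⟩ := key h₂ h₁ X hX
      exact ⟨ι, hι, e, (sup_le a2 a1 : _ ≤ actSub B ι)⟩
  le := by
    rintro X (hX | hX)
    · exact (h₁.le X hX).trans le_sup_left
    · exact (h₂.le X hX).trans le_sup_right
  comm := by
    rintro X (hX | hX) Y (hY | hY) hne y hy
    · exact h₁.comm X hX Y hY hne y hy
    · rcases dichotomy hK hT hB h₁ h₂ hX with hd | hd
      · exact hd y (h₂.le Y hY hy)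
      · exact h₂.comm X hd Y hY hne y hy
    · rcases dichotomy hK hT hB h₂ h₁ hX with hd | hd
      · exact hd y (h₁.le Y hY hy)
      · exact h₁.comm X hd Y hY hne y hy
    · exact h₂.comm X hX Y hY hne y hy
  gen g hg h14 := by
    have := h₁.normal hK hT
    have := h₂.normal hK hT
    rw [sSup_union]
    refine h14.mem_of_pow_mem (b := 3) (by norm_num) (pow_mem_of_mem_sup ?_ ?_ hg)
    · intro z hz
      obtain ⟨k, hk⟩ := hT.pow_mem_H z
      exact ⟨k, mem_sup_left (h₁.gen _ (pow_mem hz _) (hT.mem_H.1 hk))⟩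
    · intro z hz
      obtain ⟨k, hk⟩ := hT.pow_mem_H z
      exact ⟨k, mem_sup_right (h₂.gen _ (pow_mem hz _) (hT.mem_H.1 hk))⟩

omit hK hB in
lemma XClass.of_trivial {G : Type} [Group G] (hT : Tower G)
    (h : ∀ g ∈ Lrel (⊤ : Subgroup G), El 14 g → g = 1) : XClass B G :=
  ⟨hT, ∅, fun _ h => h.elim, fun _ h => h.elim, fun _ h => h.elim, fun g hg h14 => by
    rw [h g hg h14]; exact one_mem _⟩

omit hK hB in
lemma XClass.of_PQ {G : Type} [Group G] (h : PQ 2 7 G) : XClass B G := by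
  refine XClass.of_trivial h.tower (fun g hg _ => ?_)
  have : Lrel (⊤ : Subgroup G) ≤ ⊥ := Lrel_le_iff.2 (fun x _ h3 =>
    mem_bot.2 (El.eq_one (by norm_num) h3 (h.el14 x)))
  exact mem_bot.1 (this hg)

omit hK hB in
lemma XClass.of_three {G : Type} [Group G] [Finite G] (h : IsPGroup 3 G) : XClass B G := by
  refine XClass.of_trivial ⟨inferInstance, fun a b ha hb => ?_, fun a b ha hb => ?_,
    fun g => El.mono (by norm_num) (h g)⟩ (fun g _ h14 => El.eq_one (by norm_num) (h g) h14)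
  · rw [El.eq_one (by norm_num) (h a) ha, one_mul]; exact hb
  · rw [El.eq_one (by norm_num) (h a) ha, one_mul]; exact hb

omit hK hB in
lemma XClass.comps_range {N G : Type} [Group N] [Group G] (φ : N →* G)
    (hφ : Function.Injective φ) (h : XClass B N) : ∃ 𝒦, Comps B (Lrel φ.range) 𝒦 := by
  obtain ⟨-, 𝒦, h⟩ := h
  have := h.map φ hφ
  rw [map_Lrel φ hφ, ← MonoidHom.range_eq_map] at this
  exact ⟨_, this⟩

theorem xclass_fitting : IsFitting (XClass B) := by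
  refine IsFitting.mk' (fun G _ h => h.1.soluble)
    (XClass.of_three (IsPGroup.of_subsingleton _ _)) ?_ ?_
  · rintro N G _ _ φ hφ hn ⟨hT, 𝒦, h⟩
    have := hT.fin
    have h1 := (h.restrict hK hB (N := φ.range) (Lrel_mono le_top)).comap φ hφ (Lrel_le _)
    rw [MonoidHom.range_eq_map, ← map_Lrel φ hφ, comap_map_eq_self_of_injective hφ] at h1
    exact ⟨hT.of_injective φ hφ, _, h1⟩
  · intro G _ _ N₁ N₂ _ _ h k₁ k₂
    have hT := Tower.of_sup h k₁.1 k₂.1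
    obtain ⟨𝒦₁, h₁⟩ := k₁.comps_range N₁.subtype N₁.subtype_injective
    obtain ⟨𝒦₂, h₂⟩ := k₂.comps_range N₂.subtype N₂.subtype_injective
    rw [range_subtype] at h₁ h₂
    have h3 := h₁.union hK hB hT h₂
    rw [← Lrel_sup hT, h] at h3
    exact ⟨hT, _, h3⟩

end

section Lockett

variable {K : Type} [Group K] {W : Subgroup K} {B₀ B : Subgroup (MulAut K)} (hK : Hyp K W B₀)

lemma card_mul_le_of_disjoint [Finite K] {V₁ V₂ : Subgroup K} (h₁ : V₁ ≤ W) (h₂ : V₂ ≤ W)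
    (hd : ∀ a ∈ V₁, a ∈ V₂ → a = 1) : Nat.card V₁ * Nat.card V₂ ≤ Nat.card W := by
  rw [← Nat.card_prod]
  refine Nat.card_le_card_of_injective
    (fun x : V₁ × V₂ => (⟨x.1 * x.2, mul_mem (h₁ x.1.2) (h₂ x.2.2)⟩ : W)) ?_
  rintro ⟨a, b⟩ ⟨a', b'⟩ hab
  have e1 : (a : K) * b = a' * b' := congrArg Subtype.val hab
  have e2 : (a' : K)⁻¹ * a = b' * (b : K)⁻¹ := by
    rw [inv_mul_eq_iff_eq_mul, ← mul_assoc, ← e1]; simp
  have e3 := hd _ (mul_mem (inv_mem a'.2) a.2) (by rw [e2]; exact mul_mem b'.2 (inv_mem b.2))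
  have e4 : b' * (b : K)⁻¹ = 1 := by rw [← e2, e3]
  exact Prod.ext (Subtype.ext (inv_mul_eq_one.1 e3).symm) (Subtype.ext (mul_inv_eq_one.1 e4).symm)

include hK

lemma KFam.le_of_small {G : Type} [Group G] [Finite G] {𝒦 : Set (Subgroup G)} (h : KFam K 𝒦)
    {A C : Subgroup G} (hA : A ≤ sSup 𝒦) (hC : C ≤ sSup 𝒦) (hAC : ∀ c ∈ C, Cent A c)
    (hgen : ∀ m ∈ sSup 𝒦, ∃ a ∈ A, ∃ c ∈ C, m = a * c) {ι : K →* G}
    (hι : Function.Injective ι) (hX : ι.range ∈ 𝒦)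
    (hs : ∀ k b, Cent ι.range b → ι k * b ∈ C → k ∈ W) : ι.range ≤ A := by
  have hF := h.fam hK
  have hCn : ∀ m ∈ sSup 𝒦, ∀ c ∈ C, m * c * m⁻¹ ∈ C := by
    intro m hm c hc
    obtain ⟨a, ha, c', hc', rfl⟩ := hgen m hm
    have h1 := mul_mem (mul_mem hc' hc) (inv_mem hc')
    have h2 := hAC _ h1 a ha
    have : a * c' * c * (a * c')⁻¹ = a * (c' * c * c'⁻¹) * a⁻¹ := by group
    rw [this, h2, mul_inv_cancel_right]
    exact h1
  have htop : (centralizer (C : Set G)).comap ι = ⊤ := by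
    apply hK.sup_W
    · constructor
      intro k hk x c hc
      have h1 := hk _ (hCn _ (inv_mem (le_sSup hX ⟨x, rfl⟩)) c hc)
      rw [map_mul, map_mul, map_inv]
      calc c * (ι x * ι k * (ι x)⁻¹)
          = ι x * (((ι x)⁻¹ * c * (ι x)⁻¹⁻¹) * ι k) * (ι x)⁻¹ := by group
        _ = ι x * ι k * (ι x)⁻¹ * c := by rw [h1]; group
    · rw [eq_top_iff]
      intro k _
      obtain ⟨a, ha, c, hc, e⟩ := hgen _ (le_sSup hX ⟨k, rfl⟩)
      obtain ⟨_, ⟨a₁, rfl⟩, b₁, hb₁, rfl⟩ := hF.decomp' hX (hA ha)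
      obtain ⟨_, ⟨c₁, rfl⟩, b₂, hb₂, rfl⟩ := hF.decomp' hX (hC hc)
      have e1 : k = a₁ * c₁ := by
        have h1 : ι ((a₁ * c₁)⁻¹ * k) = b₁ * b₂ := by
          rw [map_mul, map_inv, map_mul, e, mul_assoc (ι a₁), ← mul_assoc b₁,
            ← hb₁ _ ⟨c₁, rfl⟩]
          group
        have h2 := hK.center_range ι hι _ ⟨_, rfl⟩ (by rw [h1]; exact hb₁.mul hb₂)
        have h3 : (a₁ * c₁)⁻¹ * k = 1 := hι (by rw [h2, map_one])
        exact (inv_mul_eq_one.1 h3).symm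
      rw [e1]
      refine mul_mem_sup ?_ (hs c₁ b₂ hb₂ hc)
      intro c' hc'
      obtain ⟨_, ⟨c₂, rfl⟩, b₃, hb₃, rfl⟩ := hF.decomp' hX (hC hc')
      have h4 := hAC _ hc' _ ha
      have h5 : ι ((c₂ * a₁)⁻¹ * (a₁ * c₂)) = b₃ * b₁ * (b₁ * b₃)⁻¹ := by
        have h6 : ι a₁ * ι c₂ * (b₁ * b₃) = ι c₂ * ι a₁ * (b₃ * b₁) := by
          calc ι a₁ * ι c₂ * (b₁ * b₃) = ι a₁ * (ι c₂ * b₁) * b₃ := by group
            _ = ι a₁ * b₁ * (ι c₂ * b₃) := by rw [hb₁ _ ⟨c₂, rfl⟩]; group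
            _ = ι c₂ * (b₃ * ι a₁) * b₁ := by rw [h4]; group
            _ = _ := by rw [← hb₃ _ ⟨a₁, rfl⟩]; group
        simp only [map_mul, map_inv]
        rw [inv_mul_eq_iff_eq_mul, ← mul_assoc, eq_mul_inv_iff_mul_eq, h6]
      have h7 := hK.center_range ι hι _ ⟨_, rfl⟩
        (by rw [h5]; exact (hb₃.mul hb₁).mul (hb₁.mul hb₃).inv)
      rw [map_mul, map_inv, inv_mul_eq_one, map_mul, map_mul] at h7
      rw [mul_assoc, ← hb₃ _ ⟨a₁, rfl⟩, ← mul_assoc, h7, mul_assoc]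
  rintro _ ⟨k, rfl⟩
  obtain ⟨a, ha, c, hc, e⟩ := hgen _ (le_sSup hX ⟨k, rfl⟩)
  have h1 : ι k ∈ centralizer (C : Set G) := by
    have : k ∈ (centralizer (C : Set G)).comap ι := by rw [htop]; trivial
    exact this
  have h2 : c = 1 := by
    refine hF.eq_one_of_cent (hC hc) (fun Y hY y hy => ?_)
    obtain ⟨a', ha', c', hc', rfl⟩ := hgen _ (le_sSup hY hy)
    have h3 := h1 c' hc'
    rw [e, ← mul_assoc, ← hAC c' hc' a ha, mul_assoc, mul_assoc] at h3
    rw [mul_assoc, mul_left_cancel h3, ← mul_assoc, hAC c hc a' ha', mul_assoc]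
  rw [e, h2, mul_one]
  exact ha

lemma KFam.le_or_le {G : Type} [Group G] [Finite G] {𝒦 : Set (Subgroup G)} (h : KFam K 𝒦)
    {A C : Subgroup G} (hA : A ≤ sSup 𝒦) (hC : C ≤ sSup 𝒦) (hAC : ∀ c ∈ C, Cent A c)
    (hgen : ∀ m ∈ sSup 𝒦, ∃ a ∈ A, ∃ c ∈ C, m = a * c) (hd : ∀ a ∈ A, a ∈ C → a = 1)
    {X : Subgroup G} (hX : X ∈ 𝒦) : X ≤ A ∨ X ≤ C := by
  have := hK.fin
  obtain ⟨ι, hι, rfl⟩ := h.emb X hX
  have hCA : ∀ a ∈ A, Cent C a := fun a ha c hc => (hAC c hc a ha).symm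
  have hgen' : ∀ m ∈ sSup 𝒦, ∃ c ∈ C, ∃ a ∈ A, m = c * a := fun m hm => by
    obtain ⟨a, ha, c, hc, e⟩ := hgen m hm
    exact ⟨c, hc, a, ha, by rw [e, hAC c hc a ha]⟩
  by_cases h1 : ∀ k b, Cent ι.range b → ι k * b ∈ C → k ∈ W
  · exact Or.inl (h.le_of_small hK hA hC hAC hgen hι hX h1)
  by_cases h2 : ∀ k b, Cent ι.range b → ι k * b ∈ A → k ∈ W
  · exact Or.inr (h.le_of_small hK hC hA hCA hgen' hι hX h2)
  exfalso
  have key : ∀ {A C : Subgroup G}, (∀ c ∈ C, Cent A c) →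
      (∀ m ∈ sSup 𝒦, ∃ a ∈ A, ∃ c ∈ C, m = a * c) →
      (¬ ∀ k b, Cent ι.range b → ι k * b ∈ A → k ∈ W) →
      ∃ V : Subgroup K, V ≤ W ∧ Nat.card W < Nat.card V ^ 2 ∧ ∀ v ∈ V, ι v ∈ A := by
    intro A C hAC hgen hn
    push Not at hn
    obtain ⟨k, b, hb, hkb, hk⟩ := hn
    obtain ⟨V, hV, hc, hv⟩ := hK.big k hk
    refine ⟨V, hV, hc, fun v hvV => ?_⟩
    obtain ⟨w, rfl⟩ := hv v hvV
    obtain ⟨a, ha, c, hc, e⟩ := hgen _ (le_sSup hX ⟨w⁻¹, rfl⟩)
    have h3 : ι w * b = b * ι w := hb _ ⟨w, rfl⟩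
    have h4 : ι w⁻¹ * (ι k * b) * (ι w⁻¹)⁻¹ * (ι k * b)⁻¹ = ι (w⁻¹ * (k * w * k⁻¹)) := by
      simp only [map_mul, map_inv, inv_inv, mul_inv_rev]
      rw [mul_assoc (ι w)⁻¹, mul_assoc (ι k), ← h3]; group
    rw [← h4, e]
    refine mul_mem ?_ (inv_mem hkb)
    rw [mul_assoc a c, ← hAC c hc _ hkb]
    have : a * (ι k * b * c) * (a * c)⁻¹ = a * (ι k * b) * a⁻¹ := by group
    rw [this]
    exact mul_mem (mul_mem ha hkb) (inv_mem ha)
  obtain ⟨V₁, hV₁, c₁, k₁⟩ := key hAC hgen h2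
  obtain ⟨V₂, hV₂, c₂, k₂⟩ := key hCA hgen' h1
  have h3 := card_mul_le_of_disjoint hV₁ hV₂
    (fun a ha ha' => hι (by rw [hd _ (k₁ a ha) (k₂ a ha'), map_one]))
  have h4 : Nat.card W * Nat.card W < Nat.card V₁ ^ 2 * Nat.card V₂ ^ 2 := Nat.mul_lt_mul'' c₁ c₂
  have h5 := Nat.mul_le_mul h3 h3
  nlinarith

omit hK in
lemma mem_of_comm_mem {G : Type} [Group G] (N : Subgroup G) [N.Normal]
    (h : ∀ g x : G, El 3 g → x * g * x⁻¹ * g⁻¹ ∈ N) {m : G} (hm : m ∈ Lrel (⊤ : Subgroup G))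
    (h14 : El 14 m) : m ∈ N := by
  have h1 : Lrel (⊤ : Subgroup G) ≤ (elSub 3 (center (G ⧸ N)) (fun a ha b _ ea eb =>
      ea.mul_of_commute eb (mem_center_iff.1 ha b).symm)).comap (QuotientGroup.mk' N) := by
    rw [Lrel_le_iff]
    intro g _ h3
    refine ⟨mem_center_iff.2 (fun y => ?_), h3.map _⟩
    obtain ⟨x, rfl⟩ := QuotientGroup.mk'_surjective N y
    rw [← map_mul, ← map_mul, QuotientGroup.mk'_apply, QuotientGroup.mk'_apply,
      QuotientGroup.eq_iff_div_mem, div_eq_mul_inv]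
    simpa [mul_assoc] using h g x h3
  have h2 := El.eq_one (by norm_num) (h1 hm).2 (h14.map (QuotientGroup.mk' N))
  exact (QuotientGroup.eq_one_iff m).1 h2

omit hK in
lemma el_prod {G H : Type} [Group G] [Group H] {n : ℕ} {g : G} {h : H} (hg : El n g)
    (hh : El n h) : El n ((g, h) : G × H) := by
  have := (hg.map (MonoidHom.inl G H)).mul_of_commute (hh.map (MonoidHom.inr G H))
    (by simp [Commute, SemiconjBy])
  simpa using this

omit hK in
lemma Tower.prod {G H : Type} [Group G] [Group H] (hG : Tower G) (hH : Tower H) :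
    Tower (G × H) := by
  have := hG.fin
  have := hH.fin
  exact ⟨inferInstance,
    fun a b ha hb => el_prod (hG.mul2 _ _ (ha.map (MonoidHom.fst G H)) (hb.map (MonoidHom.fst G H)))
      (hH.mul2 _ _ (ha.map (MonoidHom.snd G H)) (hb.map (MonoidHom.snd G H))),
    fun a b ha hb => el_prod
      (hG.mul14 _ _ (ha.map (MonoidHom.fst G H)) (hb.map (MonoidHom.fst G H)))
      (hH.mul14 _ _ (ha.map (MonoidHom.snd G H)) (hb.map (MonoidHom.snd G H))),
    fun a => el_prod (hG.all _) (hH.all _)⟩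

omit hK in
lemma map_mem_Lrel_top {G H : Type} [Group G] [Group H] (f : G →* H) {N : Subgroup G} {g : G}
    (hg : g ∈ Lrel N) : f g ∈ Lrel (⊤ : Subgroup H) :=
  (Lrel_le_iff.2 (fun _ _ h3 => mem_Lrel (mem_top _) (h3.map f)) :
    Lrel N ≤ (Lrel (⊤ : Subgroup H)).comap f) hg

theorem xclass_star (hB : Adm B₀ B) : starClass (XClass B) = XClass B := by
  have hX := xclass_fitting hK hB
  apply class_ext
  intro G _
  refine ⟨fun hG => ?_, subset_starClass hX G⟩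
  have := hG.1.1
  let R := radical (XClass B) (G × G)
  have hR : XClass B R := radical_mem hX _
  have hT : Tower G := by
    have aux : ∀ {n : ℕ} {g : G}, El n g → El n (⟨(g, g⁻¹), hG.2 g⟩ : R) :=
      fun hg => El.of_map R.subtype R.subtype_injective (el_prod hg hg.inv)
    exact ⟨this,
      fun a b ha hb => (hR.1.mul2 _ _ (aux ha) (aux hb)).map ((MonoidHom.fst G G).comp R.subtype),
      fun a b ha hb => (hR.1.mul14 _ _ (aux ha) (aux hb)).map ((MonoidHom.fst G G).comp R.subtype),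
      fun g => (hR.1.all ⟨(g, g⁻¹), hG.2 g⟩).map ((MonoidHom.fst G G).comp R.subtype)⟩
  have hTT := hT.prod hT
  obtain ⟨𝒦, h⟩ := hR.comps_range R.subtype R.subtype_injective
  rw [range_subtype] at h
  have hL : (Lrel R).Normal := inferInstance
  have hdiag : ∀ g : G, El 3 g → ((g, g⁻¹) : G × G) ∈ Lrel R :=
    fun g h3 => mem_Lrel (hG.2 g) (el_prod h3 h3.inv)
  let M : Subgroup G := Lrel ⊤ ⊓ hT.H
  have hA : M.map (MonoidHom.inl G G) ≤ sSup 𝒦 := by
    rintro _ ⟨m, hm, rfl⟩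
    refine h.gen _ ?_ ((hT.mem_H.1 hm.2).map _)
    refine mem_of_comm_mem ((Lrel R).comap (MonoidHom.inl G G)) (fun g x h3 => ?_) hm.1
      (hT.mem_H.1 hm.2)
    have := mul_mem (hL.conj_mem _ (hdiag g h3) (x, 1)) (inv_mem (hdiag g h3))
    simpa using this
  have hC : M.map (MonoidHom.inr G G) ≤ sSup 𝒦 := by
    rintro _ ⟨m, hm, rfl⟩
    refine h.gen _ ?_ ((hT.mem_H.1 hm.2).map _)
    refine mem_of_comm_mem ((Lrel R).comap (MonoidHom.inr G G)) (fun g x h3 => ?_) hm.1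
      (hT.mem_H.1 hm.2)
    have := mul_mem (hL.conj_mem _ (hdiag g⁻¹ h3.inv) (1, x)) (inv_mem (hdiag g⁻¹ h3.inv))
    simpa using this
  have hAC : ∀ c ∈ M.map (MonoidHom.inr G G), Cent (M.map (MonoidHom.inl G G)) c := by
    rintro _ ⟨c, -, rfl⟩ _ ⟨a, -, rfl⟩
    simp
  have hgen : ∀ m ∈ sSup 𝒦, ∃ a ∈ M.map (MonoidHom.inl G G), ∃ c ∈ M.map (MonoidHom.inr G G),
      m = a * c := by
    intro m hm
    rw [h.mem_sSup_iff hK hTT] at hm
    exact ⟨_, ⟨m.1, ⟨map_mem_Lrel_top (MonoidHom.fst G G) hm.1,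
      hT.mem_H.2 (hm.2.map (MonoidHom.fst G G))⟩, rfl⟩, _,
      ⟨m.2, ⟨map_mem_Lrel_top (MonoidHom.snd G G) hm.1,
      hT.mem_H.2 (hm.2.map (MonoidHom.snd G G))⟩, rfl⟩, by simp⟩
  have hd : ∀ a ∈ M.map (MonoidHom.inl G G), a ∈ M.map (MonoidHom.inr G G) → a = 1 := by
    rintro _ ⟨a, -, rfl⟩ ⟨c, -, e⟩
    have : (1 : G) = a := congrArg Prod.fst e
    rw [← this, map_one]
  refine ⟨hT, Subgroup.map (MonoidHom.fst G G) '' {X | X ∈ 𝒦 ∧ X ≤ M.map (MonoidHom.inl G G)},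
    ?_, ?_, ?_, ?_⟩
  · rintro _ ⟨X, ⟨hX, hXA⟩, rfl⟩
    obtain ⟨ι, hι, rfl, ha⟩ := h.emb X hX
    refine ⟨(MonoidHom.fst G G).comp ι, ?_, MonoidHom.range_comp _ _, ?_⟩
    · rw [injective_iff_map_eq_one]
      intro k hk
      obtain ⟨m, -, e⟩ := hXA ⟨k, rfl⟩
      have h1 : (ι k).1 = 1 := hk
      have h2 : (ι k).2 = 1 := by rw [← e]; rfl
      exact hι (by rw [map_one]; exact Prod.ext h1 h2)
    · refine (Lrel_le_iff.2 (fun g _ h3 => ?_) :
        Lrel ⊤ ≤ actSub B ((MonoidHom.fst G G).comp ι))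
      obtain ⟨α, hα, e⟩ := ha _ (hdiag g h3)
      exact ⟨α, hα, fun k => congrArg Prod.fst (e k)⟩
  · rintro _ ⟨X, ⟨hX, -⟩, rfl⟩ _ ⟨x, hx, rfl⟩
    exact map_mem_Lrel_top _ (h.le X hX hx)
  · rintro _ ⟨X, ⟨hX, -⟩, rfl⟩ _ ⟨Y, ⟨hY, -⟩, rfl⟩ hne _ ⟨y, hy, rfl⟩ _ ⟨x, hx, rfl⟩
    rw [← map_mul, ← map_mul, h.comm X hX Y hY (fun e => hne (by rw [e])) y hy x hx]
  · intro g hg h14
    have hgA : MonoidHom.inl G G g ∈ M.map (MonoidHom.inl G G) :=
      mem_map_of_mem _ ⟨hg, hT.mem_H.2 h14⟩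
    have h1 := (h.kfam.fam hK).mem_sSup_of_cent
      (S := {X | X ∈ 𝒦 ∧ X ≤ M.map (MonoidHom.inl G G)}) (hA hgA) (fun X hX hXS x hx => by
        rcases h.kfam.le_or_le hK hA hC hAC hgen hd hX with e | e
        · exact absurd ⟨hX, e⟩ hXS
        · exact (hAC x (e hx) _ hgA).symm)
    exact map_mem_sSup_image (MonoidHom.fst G G) h1

end Lockett

end Pool.Agent.MP_060950_al

end

-- part MP_060950_al.Agp
section

/-!
Extensions of K by a cyclic 3-group of automorphisms, and the Lockett condition.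
-/

namespace Pool.Agent.MP_060950_al

open Subgroup

universe u

lemma IsFitting.pi_mem {F : GroupClass} (hF : IsFitting F) {I : Type} [Finite I] {G : Type}
    [Group G] (hG : F G) : F (I → G) := by
  classical
  have := hF.finite hG
  rw [← radical_eq_top_iff hF, eq_top_iff, ← Subgroup.pi_top Set.univ, Subgroup.pi_le_iff]
  intro i
  rw [← MonoidHom.range_eq_map]
  refine le_radical ⟨?_⟩ (hF.iso _ _ (MonoidHom.ofInjective
    (fun a b h => by simpa using congrFun h i)) hG)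
  rintro _ ⟨g, rfl⟩ y
  refine ⟨y i * g * (y i)⁻¹, ?_⟩
  ext j
  by_cases e : j = i
  · subst e; simp
  · simp [e]

lemma Tower.of_normal {G : Type} [Group G] [Finite G] (N : Subgroup G) (hN : PQ 2 7 N)
    (h : ∀ g : G, ∃ k, g ^ 3 ^ k ∈ N) : Tower G := by
  refine ⟨inferInstance, fun a b ha hb => ?_, fun a b ha hb => ?_, fun g => ?_⟩
  · exact (hN.tower.mul2 ⟨a, ha.mem_of_pow_mem (by norm_num) (h a)⟩
      ⟨b, hb.mem_of_pow_mem (by norm_num) (h b)⟩ (ha.of_map N.subtype N.subtype_injective)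
      (hb.of_map N.subtype N.subtype_injective)).map N.subtype
  · exact (hN.el14 ⟨a * b, mul_mem (ha.mem_of_pow_mem (by norm_num) (h a))
      (hb.mem_of_pow_mem (by norm_num) (h b))⟩).map N.subtype
  · obtain ⟨k, hk⟩ := h g
    obtain ⟨l, hl⟩ := (hN.el14 ⟨_, hk⟩).map N.subtype
    have h1 : (g ^ 3 ^ k) ^ 14 ^ l = 1 := hl
    refine ⟨k + l, ?_⟩
    have : 42 ^ (k + l) = 3 ^ k * 14 ^ l * (3 ^ l * 14 ^ k) := by
      rw [show (42 : ℕ) = 3 * 14 from rfl, mul_pow, pow_add, pow_add]; ring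
    rw [this, pow_mul, pow_mul g, h1, one_pow]

lemma PQ.of_equiv {p r : ℕ} {G H : Type} [Group G] [Group H] (e : G ≃* H) (h : PQ p r G) :
    PQ p r H := by
  obtain ⟨_, P, hP, h1, h2⟩ := h
  refine ⟨Finite.of_equiv G e, P.map e.toMonoidHom, hP.map _ e.surjective, h1.map _, fun g => ?_⟩
  obtain ⟨n, hn⟩ := h2 (e.symm g)
  exact ⟨n, _, hn, by simp⟩

section

variable {K : Type} [Group K]

/-- The inner automorphisms. -/
def Inn (K : Type) [Group K] : Subgroup (MulAut K) := (MulAut.conj : K →* MulAut K).range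

lemma conj_conj (β : MulAut K) (k : K) : β * MulAut.conj k * β⁻¹ = MulAut.conj (β k) := by
  ext x; simp

instance : (Inn K).Normal := ⟨by
  rintro _ ⟨k, rfl⟩ β
  exact ⟨β k, (conj_conj β k).symm⟩⟩

/-- The group generated by the inner automorphisms and x. -/
def Agp (x : MulAut K) : Subgroup (MulAut K) := zpowers x ⊔ Inn K

/-- The embedding of K. -/
def iota (x : MulAut K) : K →* Agp x :=
  (MulAut.conj : K →* MulAut K).codRestrict _ (fun k => mem_sup_right ⟨k, rfl⟩)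

/-- The generator. -/
def gen (x : MulAut K) : Agp x := ⟨x, mem_sup_left (mem_zpowers x)⟩

lemma acts_iota (x : MulAut K) (a : Agp x) : Acts (iota x) a a :=
  fun k => Subtype.ext (conj_conj (a : MulAut K) k).symm

lemma mem_range_iota {x : MulAut K} {a : Agp x} : a ∈ (iota x).range ↔ (a : MulAut K) ∈ Inn K :=
  ⟨fun ⟨k, e⟩ => ⟨k, congrArg Subtype.val e⟩, fun ⟨k, e⟩ => ⟨k, Subtype.ext e⟩⟩

instance (x : MulAut K) : (iota x).range.Normal :=
  ⟨fun _ ha g => (acts_iota x g).conj_mem ha⟩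

lemma pow_mem_range_iota {x : MulAut K} (hx : El 3 x) (a : Agp x) :
    ∃ k, a ^ 3 ^ k ∈ (iota x).range := by
  obtain ⟨k, hk⟩ := pow_mem_of_mem_sup (N₁ := zpowers x) (N₂ := Inn K) (R := Inn K) (b := 3)
    (fun g hg => by
      obtain ⟨n, hn⟩ := hx
      obtain ⟨m, hm⟩ := isPGroup_zpowers hn ⟨g, hg⟩
      have : g ^ 3 ^ m = 1 := congrArg Subtype.val hm
      exact ⟨m, by rw [this]; exact one_mem _⟩)
    (fun g hg => ⟨0, by simpa using hg⟩) a.2
  exact ⟨k, mem_range_iota.2 hk⟩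

lemma eq_top_of_gen_mem {x : MulAut K} {S : Subgroup (Agp x)} (h1 : gen x ∈ S)
    (h2 : (iota x).range ≤ S) : S = ⊤ := by
  rw [eq_top_iff]
  intro a _
  have : Agp x ≤ S.map (Agp x).subtype := sup_le (zpowers_le.2 ⟨_, h1, rfl⟩) (by
    rintro _ ⟨k, rfl⟩
    exact ⟨iota x k, h2 ⟨k, rfl⟩, rfl⟩)
  obtain ⟨b, hb, e⟩ := this a.2
  rwa [← Subtype.ext e]

lemma range_iota_le {x : MulAut K} (hx : Fpf x) {S : Subgroup (Agp x)} [hS : S.Normal]
    (h : ∀ a : Agp x, a⁻¹ * (gen x * a * (gen x)⁻¹) ∈ S) : (iota x).range ≤ S := by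
  have := hx (S.comap (iota x)) inferInstance (fun k => by
    rw [mem_comap, map_mul, map_inv]
    have e := acts_iota x (gen x) k
    exact (show iota x (x k) = _ from e) ▸ h _)
  rintro _ ⟨k, rfl⟩
  have h3 : k ∈ S.comap (iota x) := by rw [this]; trivial
  exact h3

/-- The action homomorphism. -/
noncomputable def actHom {G : Type} [Group G] {ι : K →* G} (hι : Function.Injective ι)
    {A : Subgroup (MulAut K)} {S : Subgroup G} (h : S ≤ actSub A ι) : S →* A :=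
  MonoidHom.mk' (fun s => ⟨(h s.2).choose, (h s.2).choose_spec.1⟩) (fun s t => Subtype.ext
    ((h (s * t).2).choose_spec.2.unique hι ((h s.2).choose_spec.2.mul (h t.2).choose_spec.2)))

lemma acts_actHom {G : Type} [Group G] {ι : K →* G} (hι : Function.Injective ι)
    {A : Subgroup (MulAut K)} {S : Subgroup G} (h : S ≤ actSub A ι) (s : S) :
    Acts ι s (actHom hι h s) := (h s.2).choose_spec.2

variable {W : Subgroup K} {B₀ B : Subgroup (MulAut K)} (hK : Hyp K W B₀) (hB : Adm B₀ B)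

include hK

lemma Hyp.pq : PQ 2 7 K :=
  ⟨hK.fin, W, hK.W_normal, fun w => ⟨1, Subtype.ext (by simpa using hK.W_two w w.2)⟩,
    fun k => ⟨1, by simpa using hK.pow7 k⟩⟩

lemma iota_injective (x : MulAut K) : Function.Injective (iota x) := by
  rw [injective_iff_map_eq_one]
  intro k hk
  refine hK.center k (fun y => ?_)
  have h1 : MulAut.conj k = 1 := congrArg Subtype.val hk
  have h2 := congrArg (fun α : MulAut K => α y) h1
  simp only [MulAut.conj_apply, MulAut.one_apply] at h2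
  conv_lhs => rw [← h2]
  group

lemma agp_tower {x : MulAut K} (hx : El 3 x) : Tower (Agp x) := by
  have := hK.fin
  exact Tower.of_normal _ (hK.pq.of_equiv (MonoidHom.ofInjective (iota_injective hK x)))
    (pow_mem_range_iota hx)

include hB

lemma agp_le {x : MulAut K} (hxB : x ∈ B) : Agp x ≤ B :=
  sup_le (zpowers_le.2 hxB) (by
    rintro _ ⟨k, rfl⟩
    exact hB.le (hK.triv_mem _ (hK.conj_triv k)))

lemma agp_comps {x : MulAut K} (hxB : x ∈ B) (hx : El 3 x) (hf : Fpf x) :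
    Comps B (Lrel (⊤ : Subgroup (Agp x))) {(iota x).range} where
  emb := by
    rintro _ rfl
    exact ⟨iota x, iota_injective hK x, rfl,
      fun g _ => ⟨g, agp_le hK hB hxB g.2, acts_iota x g⟩⟩
  le := by
    rintro _ rfl
    refine range_iota_le hf (fun a => ?_)
    have hg : gen x ∈ Lrel (⊤ : Subgroup (Agp x)) :=
      mem_Lrel (mem_top _) (El.of_map _ (Agp x).subtype_injective hx)
    have h2 := mul_mem ((inferInstance : (Lrel (⊤ : Subgroup (Agp x))).Normal).conj_mem _ hg a⁻¹)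
      (inv_mem hg)
    simpa [mul_assoc] using h2
  comm := by
    rintro _ rfl _ rfl h
    exact absurd rfl h
  gen g _ h14 := by
    rw [sSup_singleton]
    exact h14.mem_of_pow_mem (by norm_num) (pow_mem_range_iota hx g)

lemma agp_mem {x : MulAut K} (hxB : x ∈ B) (hx : El 3 x) (hf : Fpf x) : XClass B (Agp x) :=
  ⟨agp_tower hK hx, _, agp_comps hK hB hxB hx hf⟩

omit hB in
lemma val_three {A : Type u} [CommGroup A] (hX : IsFitting (XClass B)) (f : Pair (XClass B) A)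
    {x : MulAut K} (hx : El 3 x) (hf : f.kerClass (Agp x))
    (hsyl : ∀ α ∈ B, El 3 α → ∃ β : MulAut K, β⁻¹ * α * β ∈ zpowers x)
    {G : Type} [Group G] (hG : XClass B G) {g : G} (hg : El 3 g) : f.val G g = 1 := by
  classical
  have hZ := f.kerClass_fitting hX
  obtain ⟨hT, 𝒦, h⟩ := id hG
  have := hT.fin
  have := hK.fin
  have hM := h.normal hK hT
  have hF := h.kfam.fam hK
  have hgL : g ∈ Lrel (⊤ : Subgroup G) := mem_Lrel (mem_top g) hg
  let J : Subgroup G := zpowers g ⊔ sSup 𝒦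
  have hJL : J ≤ Lrel ⊤ := sup_le (zpowers_le.2 hgL) (sSup_le h.le)
  have hJs : J.IsSubnormal := by
    refine IsSubnormal.trans hJL ?_ (Normal.isSubnormal inferInstance)
    refine isSubnormal_of_pow_mem (p := 3) ((sSup 𝒦).subgroupOf (Lrel ⊤)) (fun a => ?_)
      (comap_mono le_sup_right)
    obtain ⟨k, hk⟩ := hT.pow_mem_H a
    exact ⟨k, h.gen _ (pow_mem a.2 _) (hT.mem_H.1 hk)⟩
  have hemb : ∀ X : 𝒦, ∃ ι : K →* G, Function.Injective ι ∧ ι.range = X ∧
      J ≤ actSub (Agp x) ι := by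
    rintro ⟨X, hXm⟩
    obtain ⟨ι, hι, rfl, ha⟩ := h.emb X hXm
    obtain ⟨α, hα, e⟩ := ha g hgL
    obtain ⟨β, hβ⟩ := hsyl α hα (e.el hι hg)
    have hr : (ι.comp β.toMonoidHom).range = ι.range := by
      rw [MonoidHom.range_comp, MonoidHom.range_eq_top.2 β.surjective, ← MonoidHom.range_eq_map]
    refine ⟨ι.comp β.toMonoidHom, hι.comp β.injective, hr, sup_le (zpowers_le.2 ?_) ?_⟩
    · exact ⟨_, mem_sup_left hβ, e.reparam (fun _ => rfl)⟩
    · intro m hm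
      obtain ⟨a, ha', b, hb, rfl⟩ := hF.decomp' hXm hm
      rw [← hr] at ha' hb
      obtain ⟨k, rfl⟩ := ha'
      exact mul_mem ⟨_, mem_sup_right ⟨k, rfl⟩, acts_conj _ k⟩ ⟨1, one_mem _, acts_one_iff.2 hb⟩
  choose ι hι hr hact using hemb
  let Q := J ⧸ (sSup 𝒦).subgroupOf J
  have hQ : IsPGroup 3 Q := by
    intro q
    obtain ⟨j, rfl⟩ := QuotientGroup.mk_surjective q
    obtain ⟨k, hk⟩ := hT.pow_mem_H j
    refine ⟨k, ?_⟩
    rw [← QuotientGroup.mk_pow, QuotientGroup.eq_one_iff]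
    exact h.gen _ (pow_mem (hJL j.2) _) (hT.mem_H.1 hk)
  let Φ : J →* (𝒦 → Agp x) × Q :=
    (MonoidHom.pi (fun X => actHom (hι X) (hact X))).prod (QuotientGroup.mk' _)
  have hΦ : Function.Injective Φ := by
    rw [injective_iff_map_eq_one]
    intro j hj
    have h1 : (j : G) ∈ sSup 𝒦 := (QuotientGroup.eq_one_iff j).1 (congrArg Prod.snd hj)
    refine Subtype.ext (hF.eq_one_of_cent h1 (fun X hXm => ?_))
    have h2 : actHom (hι ⟨X, hXm⟩) (hact ⟨X, hXm⟩) j = 1 :=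
      congrFun (congrArg Prod.fst hj) ⟨X, hXm⟩
    have h3 := acts_actHom (hι ⟨X, hXm⟩) (hact ⟨X, hXm⟩) j
    rw [h2] at h3
    have h4 := acts_one_iff.1 h3
    rwa [hr] at h4
  have hΦs : Φ.range.IsSubnormal := by
    have hn : (Subgroup.pi Set.univ (fun _ : 𝒦 => (iota x).range)).Normal :=
      ⟨fun a ha y i hi => (inferInstance : (iota x).range.Normal).conj_mem _ (ha i hi) _⟩
    refine isSubnormal_of_pow_mem (p := 3)
      ((Subgroup.pi Set.univ (fun _ : 𝒦 => (iota x).range)).prod ⊥) ?_ ?_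
    · rintro ⟨a, q⟩
      have := Fintype.ofFinite 𝒦
      choose k hk using fun X => pow_mem_range_iota hx (a X)
      obtain ⟨m, hm⟩ := hQ q
      refine ⟨Finset.univ.sup k + m, fun X _ => ?_, ?_⟩
      · obtain ⟨c, hc⟩ := Nat.exists_eq_add_of_le (Finset.le_sup (f := k) (Finset.mem_univ X))
        show a X ^ 3 ^ (Finset.univ.sup k + m) ∈ (iota x).range
        rw [hc, add_assoc, pow_add, pow_mul]
        exact pow_mem (hk X) _
      · show q ^ 3 ^ (Finset.univ.sup k + m) ∈ (⊥ : Subgroup Q)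
        rw [add_comm, pow_add, pow_mul, hm, one_pow]
        exact one_mem _
    · have h1 : Subgroup.pi Set.univ (fun _ : 𝒦 => (iota x).range) ≤
          Φ.range.comap (MonoidHom.inl _ _) := by
        rw [Subgroup.pi_le_iff]
        rintro X _ ⟨_, ⟨k, rfl⟩, rfl⟩
        have hk : ι X k ∈ X.1 := by rw [← hr]; exact ⟨k, rfl⟩
        have hkM : ι X k ∈ sSup 𝒦 := le_sSup X.2 hk
        refine ⟨⟨ι X k, mem_sup_right hkM⟩, Prod.ext (funext fun Y => Subtype.ext ?_) ?_⟩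
        · have h3 := acts_actHom (hι Y) (hact Y) ⟨ι X k, mem_sup_right hkM⟩
          by_cases e : Y = X
          · subst e
            refine h3.unique (hι Y) ?_
            have h4 := acts_conj (ι Y) k
            simp only [MonoidHom.inl_apply, MonoidHom.mulSingle_apply, Pi.mulSingle_eq_same]
            exact h4
          · refine h3.unique (hι Y) ?_
            have h4 : Cent (ι Y).range (ι X k) := by
              rw [hr]
              exact h.comm _ Y.2 _ X.2 (fun e' => e (Subtype.ext e')) _ hk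
            simpa [e] using acts_one_iff.2 h4
        · exact (QuotientGroup.eq_one_iff _).2 hkM
      rintro ⟨a, q⟩ ⟨ha, hq⟩
      have hq' : q = 1 := hq
      rw [hq']
      exact h1 ha
  have hE : f.kerClass ((𝒦 → Agp x) × Q) :=
    hZ.prod_mem (hZ.pi_mem hf)
      ⟨XClass.of_three hQ, f.val_pGroup hX (XClass.of_three hQ) hQ⟩
  have hJ : f.kerClass J := hZ.iso _ _ (MonoidHom.ofInjective hΦ).symm (hZ.of_subnormal hΦs hE)
  have h5 := f.compat_subgroup hX hG hJs ⟨g, mem_sup_left (mem_zpowers g)⟩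
  rw [hJ.2] at h5
  exact h5

lemma val_iota {A : Type u} [CommGroup A] (d : Pair (XClass B) A) {x : MulAut K} (hxB : x ∈ B)
    (hx : El 3 x) (hf : Fpf x) : (iota x).range ≤ (d.hom (agp_mem hK hB hxB hx hf)).ker :=
  range_iota_le hf (fun a => by
    rw [MonoidHom.mem_ker, map_mul, map_mul, map_mul, map_inv, map_inv, mul_inv_cancel_comm,
      inv_mul_cancel])

lemma val_gen_pow_three {A : Type u} [CommGroup A] (d : Pair (XClass B) A) {x y : MulAut K}
    (hxB : x ∈ B) (hx : x ^ 9 = 1) (hf : Fpf x) (hy : y * x * y⁻¹ = x ^ 4) :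
    d.val (Agp x) (gen x) ^ 3 = 1 := by
  have hx3 : El 3 x := ⟨2, hx⟩
  have hA := agp_mem hK hB hxB hx3 hf
  have h1 : (Agp x).map (MulAut.conj y).toMonoidHom = Agp x := by
    rw [Agp, Subgroup.map_sup, MonoidHom.map_zpowers]
    congr 1
    · simp only [MulEquiv.coe_toMonoidHom, MulAut.conj_apply, hy]
      apply le_antisymm (zpowers_le.2 (pow_mem (mem_zpowers x) 4))
      refine zpowers_le.2 ?_
      have : x = (x ^ 4) ^ 7 := by
        rw [← pow_mul, show 4 * 7 = 9 * 3 + 1 from rfl, pow_succ, pow_mul, hx]; simp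
      conv => rhs; rw [this]
      exact pow_mem (mem_zpowers _) 7
    · exact Normal.map_conj_eq (Inn K) y
  let e : Agp x ≃* Agp x :=
    ((MulAut.conj y).subgroupMap (Agp x)).trans (MulEquiv.subgroupCongr h1)
  have h2 : e (gen x) = gen x ^ 4 := Subtype.ext hy
  have h3 := d.compat_equiv e hA (gen x)
  rw [h2, d.map_pow hA, pow_succ] at h3
  simpa using h3

/-- The additional data needed for the Lockett condition. -/
structure Syl (B : Subgroup (MulAut K)) (x : MulAut K) : Prop where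
  mem : x ∈ B
  pow : x ^ 9 = 1
  fpf : Fpf x
  conj : ∃ y : MulAut K, y * x * y⁻¹ = x ^ 4
  syl : ∀ α ∈ B, El 3 α → ∃ β : MulAut K, β⁻¹ * α * β ∈ zpowers x
  lam : ∃ lam : MulAut K →* Multiplicative (ZMod 3), lam x = Multiplicative.ofAdd 1 ∧
    ∀ α, ¬ Fpf α → lam α = 1

lemma val_three_of_lowerStar {A : Type u} [CommGroup A] (d : Pair (XClass B) A) {x : MulAut K}
    (hx : Syl B x) {G : Type} [Group G] (hG : XClass B G) (hS : lowerStar solubleClass G) {g : G}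
    (hg : El 3 g) : d.val G g = 1 := by
  have hX := xclass_fitting hK hB
  have := hK.fin
  have hx3 : El 3 x := ⟨2, hx.pow⟩
  have hA := agp_mem hK hB hx.mem hx3 hx.fpf
  obtain ⟨y, hy⟩ := hx.conj
  obtain ⟨l, hl1, hl2⟩ := hx.lam
  have ha := val_gen_pow_three hK hB d hx.mem hx.pow hx.fpf hy
  set a := d.val (Agp x) (gen x) with hadef
  let lam : MulAut K →* A := MonoidHom.mk' (fun α => a ^ (Multiplicative.toAdd (l α)).val)
    (fun α β => by
      rw [map_mul, toAdd_mul, ZMod.val_add, ← pow_eq_pow_mod _ ha, pow_add])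
  have hlam : ∀ α, ¬ Fpf α → lam α = 1 := fun α h => by
    simp [lam, hl2 α h]
  let f := d.div ((bergerPair lam hlam).restrict hX.soluble)
  have hf : f.kerClass (Agp x) := by
    refine ⟨hA, fun b => ?_⟩
    have h1 : (f.hom hA).ker = ⊤ := by
      refine eq_top_of_gen_mem ?_ (val_iota hK hB f hx.mem hx3 hx.fpf)
      show a / bergerVal lam _ (gen x) = 1
      rw [bergerVal_of_unique lam (iota x) (iota_injective hK x) ?_ (gen x) x
        (acts_iota x (gen x))]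
      · simp [lam, hl1, ZMod.val_one]
      · rintro Y ⟨eY⟩
        refine eq_of_le_of_card_ge (fun b hb => ?_) ?_
        · refine El.mem_of_pow_mem (a := 14) (by norm_num) ?_ (pow_mem_range_iota hx3 b)
          have := ((hK.el14 (eY.symm ⟨b, hb⟩)).map eY.toMonoidHom).map Y.subtype
          simpa using this
        · rw [← Nat.card_congr eY.toEquiv,
            ← Nat.card_congr (MonoidHom.ofInjective (iota_injective hK x)).toEquiv]
    have h2 : b ∈ (f.hom hA).ker := by rw [h1]; trivial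
    exact h2
  have h3 : d.val G g / (bergerPair lam hlam).val G g = 1 :=
    val_three hK hX f hx3 hf hx.syl hG hg
  rwa [(bergerPair lam hlam).val_eq_one_of_lowerStar soluble_fitting hS, div_one] at h3

theorem lockettCondition_xclass {x : MulAut K} (hx : Syl B x) : LockettCondition (XClass B) := by
  have hX := xclass_fitting hK hB
  apply class_ext
  intro G _
  constructor
  · rintro ⟨hG, hS⟩
    refine lowerStar_of_pairs hX (xclass_star hK hB) hG (fun A _ d g => ?_)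
    have hT := hG.1
    have h2 : ∀ u : G, El 2 u → d.val G u = 1 := fun u hu => by
      have h1 := d.compat_subgroup hX hG (Normal.isSubnormal inferInstance) ⟨u, hT.mem_P.2 hu⟩
      rw [d.val_pGroup hX (hX.normal G _ inferInstance hG) hT.P_isPGroup] at h1
      exact h1
    have h7 : ∀ u : G, El 7 u → d.val G u = 1 := fun u hu => by
      have hu' : u ∈ hT.H := hT.mem_H.2 (hu.mono (by norm_num))
      have h1 := d.compat_subgroup hX hG (Normal.isSubnormal inferInstance) ⟨u, hu'⟩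
      obtain ⟨n, hn⟩ := hu
      rw [val_eq_one_of_PQ hX (p := 2) (r := 7) (by norm_num) (fun _ _ h => XClass.of_PQ h) d
        hT.H_PQ (fun Y hY e => hY.normal G _ inferInstance (hS Y hY e)) ⟨u, hu'⟩ (n := n)
        (Subtype.ext hn)] at h1
      exact h1
    have h3 : ∀ u : G, El 3 u → d.val G u = 1 :=
      fun u hu => val_three_of_lowerStar hK hB d hx hG hS hu
    obtain ⟨k₁, e₁⟩ := El.pow_split (a := 2) (b := 21) (hT.all g)
    obtain ⟨k₂, e₂⟩ := El.pow_split (a := 7) (b := 6) (hT.all g)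
    obtain ⟨k₃, e₃⟩ := El.pow_split (a := 3) (b := 14) (hT.all g)
    have c₁ : El (7 * 3) (d.val G g) := ⟨k₁, by rw [← d.map_pow hG]; exact h2 _ e₁⟩
    have c₂ : El 6 (d.val G g) := ⟨k₂, by rw [← d.map_pow hG]; exact h7 _ e₂⟩
    have c₃ : El 14 (d.val G g) := ⟨k₃, by rw [← d.map_pow hG]; exact h3 _ e₃⟩
    obtain ⟨k, hk⟩ := c₁.pow_split
    exact El.eq_one (a := 3) (by norm_num) ⟨k, El.eq_one (by norm_num) hk (c₂.pow _)⟩ c₃
  · intro hG
    exact ⟨lowerStar_subset hX G hG, lowerStar_mono hX soluble_fitting hX.soluble G hG⟩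

end

end Pool.Agent.MP_060950_al

end

-- part MP_060950_al.Fail
section

/-!
Failure of the Lockett condition for the intersection.
-/

namespace Pool.Agent.MP_060950_al

open Subgroup

section

variable {K : Type} [Group K] {W : Subgroup K} {B₀ : Subgroup (MulAut K)}

lemma Comps.mono {B B' : Subgroup (MulAut K)} (hle : B ≤ B') {G : Type} [Group G]
    {L : Subgroup G} {𝒦 : Set (Subgroup G)} (h : Comps B L 𝒦) : Comps B' L 𝒦 where
  emb X hX := by
    obtain ⟨ι, hι, e, ha⟩ := h.emb X hX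
    refine ⟨ι, hι, e, fun g hg => ?_⟩
    obtain ⟨α, hα, e'⟩ := ha g hg
    exact ⟨α, hle hα, e'⟩
  le := h.le
  comm := h.comm
  gen := h.gen

lemma XClass.mono {B B' : Subgroup (MulAut K)} (hle : B ≤ B') {G : Type} [Group G]
    (h : XClass B G) : XClass B' G := by
  obtain ⟨hT, 𝒦, h⟩ := h
  exact ⟨hT, 𝒦, h.mono hle⟩

lemma Comps.subset (hK : Hyp K W B₀) {B B' : Subgroup (MulAut K)} {G : Type} [Group G]
    (hT : Tower G) {L : Subgroup G} {𝒦 𝒦' : Set (Subgroup G)} (h : Comps B L 𝒦)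
    (h' : Comps B' L 𝒦') : 𝒦 ⊆ 𝒦' := by
  have := hT.fin
  have e : sSup 𝒦' = sSup 𝒦 := by
    ext m
    rw [h.mem_sSup_iff hK hT, h'.mem_sSup_iff hK hT]
  intro X hX
  obtain ⟨ι, hι, rfl⟩ := h.kfam.emb X hX
  refine h'.kfam.mem_of_normal hK ι hι (by rw [e]; exact le_sSup hX) ?_
  intro m hm x hx
  rw [e] at hm
  exact (h.kfam.fam hK).conj_mem hX hm hx

lemma Comps.unique (hK : Hyp K W B₀) {B B' : Subgroup (MulAut K)} {G : Type} [Group G]
    (hT : Tower G) {L : Subgroup G} {𝒦 𝒦' : Set (Subgroup G)} (h : Comps B L 𝒦)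
    (h' : Comps B' L 𝒦') : 𝒦 = 𝒦' :=
  Set.Subset.antisymm (h.subset hK hT h') (h'.subset hK hT h)

lemma xclass_inter (hK : Hyp K W B₀) {B₁ B₂ : Subgroup (MulAut K)} (h₂ : Adm B₀ B₂)
    (hinf : B₁ ⊓ B₂ ≤ B₀) (G : Type) [Group G]
    (hG : interClass (XClass B₁) (XClass B₂) G) : XClass B₀ G := by
  obtain ⟨⟨hT, 𝒦, k₁⟩, -, 𝒦', k₂⟩ := hG
  have e := k₁.unique hK hT k₂
  subst e
  refine ⟨hT, 𝒦, fun X hX => ?_, k₁.le, k₁.comm, k₁.gen⟩
  obtain ⟨ι, hι, rfl, ha⟩ := k₁.emb X hX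
  refine ⟨ι, hι, rfl, fun g hg => ?_⟩
  obtain ⟨α, hα, a₁⟩ := ha g hg
  obtain ⟨β, hβ, a₂⟩ := k₂.acts h₂ hι hX hg
  exact ⟨α, hinf ⟨hα, by rw [a₁.unique hι a₂]; exact hβ⟩, a₁⟩

lemma Hyp.adm (hK : Hyp K W B₀) (hn : B₀.Normal) : Adm B₀ B₀ where
  normal := hn
  le := le_rfl
  fpf α hα h3 := by
    by_cases e : α = 1
    · exact Or.inl e
    · exact Or.inr (hK.fpf_of_B₀ hα h3 e)
  pow α hα _ hne := ⟨1, by simpa using hα, by simpa using hne⟩

/-- The target group. -/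
abbrev A3 : Type := Multiplicative (ZMod 3)

lemma A3.el (a : A3) : El 3 a := ⟨1, by revert a; decide⟩

/-- A class function on B₀ that is a homomorphism. -/
structure Chr (B₀ : Subgroup (MulAut K)) (ν : MulAut K → A3) : Prop where
  mul : ∀ α ∈ B₀, ∀ β ∈ B₀, ν (α * β) = ν α * ν β
  conj : ∀ α ∈ B₀, ∀ β, ν (β⁻¹ * α * β) = ν α

variable {ν : MulAut K → A3}

lemma Chr.one (h : Chr B₀ ν) : ν 1 = 1 := by
  have := h.mul 1 (one_mem _) 1 (one_mem _)
  simpa using this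

lemma Chr.pow (h : Chr B₀ ν) {α : MulAut K} (hα : α ∈ B₀) (n : ℕ) : ν (α ^ n) = ν α ^ n := by
  induction n with
  | zero => simpa using h.one
  | succ n ih => rw [pow_succ, pow_succ, h.mul _ (pow_mem hα n) _ hα, ih]

open Classical in
/-- The local value at a copy of K. -/
noncomputable def loc (B₀ : Subgroup (MulAut K)) (ν : MulAut K → A3) {G : Type} [Group G]
    (X : Subgroup G) (g : G) : A3 :=
  if h : ∃ α ∈ B₀, ∃ ι : K →* G, Function.Injective ι ∧ ι.range = X ∧ Acts ι g α then ν h.choose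
  else 1

lemma loc_eq (hν : Chr B₀ ν) {G : Type} [Group G] {ι : K →* G} (hι : Function.Injective ι)
    {g : G} {α : MulAut K} (hα : α ∈ B₀) (ha : Acts ι g α) : loc B₀ ν ι.range g = ν α := by
  have h : ∃ α ∈ B₀, ∃ ι' : K →* G, Function.Injective ι' ∧ ι'.range = ι.range ∧ Acts ι' g α :=
    ⟨α, hα, ι, hι, rfl, ha⟩
  rw [loc, dif_pos h]
  obtain ⟨-, ι', h1, h2, h3⟩ := h.choose_spec
  obtain ⟨β, hβ⟩ := exists_reparam hι h1 h2
  rw [h3.unique h1 (ha.reparam hβ), hν.conj α hα]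

/-- The components of G. -/
def compsOf (B₀ : Subgroup (MulAut K)) (G : Type) [Group G] : Set (Subgroup G) :=
  {X | ∃ 𝒦, Comps B₀ (Lrel (⊤ : Subgroup G)) 𝒦 ∧ X ∈ 𝒦}

lemma compsOf_eq (hK : Hyp K W B₀) {G : Type} [Group G] (hT : Tower G) {𝒦 : Set (Subgroup G)}
    (h : Comps B₀ (Lrel (⊤ : Subgroup G)) 𝒦) : compsOf B₀ G = 𝒦 := by
  ext X
  exact ⟨fun ⟨_, h', hX⟩ => h'.subset hK hT h hX, fun hX => ⟨𝒦, h, hX⟩⟩

lemma XClass.comps (hK : Hyp K W B₀) {G : Type} [Group G] (hG : XClass B₀ G) :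
    Comps B₀ (Lrel (⊤ : Subgroup G)) (compsOf B₀ G) := by
  obtain ⟨hT, 𝒦, h⟩ := hG
  rwa [compsOf_eq hK hT h]

/-- The product of the local values. -/
noncomputable def glob (B₀ : Subgroup (MulAut K)) (ν : MulAut K → A3) (G : Type) [Group G]
    (g : G) : A3 := ∏ᶠ X ∈ compsOf B₀ G, loc B₀ ν X g

lemma glob_mul (hK : Hyp K W B₀) (hν : Chr B₀ ν) {G : Type} [Group G] (hG : XClass B₀ G)
    {g h : G} (hg : g ∈ Lrel (⊤ : Subgroup G)) (hh : h ∈ Lrel (⊤ : Subgroup G)) :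
    glob B₀ ν G (g * h) = glob B₀ ν G g * glob B₀ ν G h := by
  have := hG.1.fin
  rw [glob, glob, glob, ← finprod_mem_mul_distrib (Set.toFinite _)]
  refine finprod_mem_congr rfl (fun X hX => ?_)
  obtain ⟨ι, hι, rfl, ha⟩ := (hG.comps hK).emb X hX
  obtain ⟨α, hα, a₁⟩ := ha g hg
  obtain ⟨β, hβ, a₂⟩ := ha h hh
  rw [loc_eq hν hι hα a₁, loc_eq hν hι hβ a₂, loc_eq hν hι (mul_mem hα hβ) (a₁.mul a₂),
    hν.mul α hα β hβ]

lemma glob_el14 (hK : Hyp K W B₀) (hν : Chr B₀ ν) {G : Type} [Group G] (hG : XClass B₀ G)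
    {g : G} (hg : g ∈ Lrel (⊤ : Subgroup G)) (h14 : El 14 g) : glob B₀ ν G g = 1 := by
  refine finprod_mem_eq_one_of_forall_eq_one (fun X hX => ?_)
  obtain ⟨ι, hι, rfl, ha⟩ := (hG.comps hK).emb X hX
  obtain ⟨α, hα, a₁⟩ := ha g hg
  rw [loc_eq hν hι hα a₁]
  obtain ⟨k, hk⟩ := a₁.el hι h14
  exact El.eq_one (a := 3) (b := 14) (by norm_num) (A3.el _)
    ⟨k, by rw [← hν.pow hα, hk, hν.one]⟩

lemma glob_congr (hK : Hyp K W B₀) (hν : Chr B₀ ν) {G : Type} [Group G] (hG : XClass B₀ G)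
    {g h : G} (hg : g ∈ Lrel (⊤ : Subgroup G)) (hh : h ∈ Lrel (⊤ : Subgroup G))
    (e : El 14 (g⁻¹ * h)) : glob B₀ ν G h = glob B₀ ν G g := by
  have h1 := mul_mem (inv_mem hg) hh
  have := glob_mul hK hν hG hg h1
  rwa [mul_inv_cancel_left, glob_el14 hK hν hG h1 e, mul_one] at this

lemma glob_emb (hK : Hyp K W B₀) (hn : B₀.Normal) (hν : Chr B₀ ν) {N G : Type} [Group N]
    [Group G] (φ : N →* G) (hG : XClass B₀ G) (hφ : Function.Injective φ) (hr : φ.range.Normal)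
    {g : N} (hg : g ∈ Lrel (⊤ : Subgroup N)) : glob B₀ ν G (φ g) = glob B₀ ν N g := by
  have := hG.1.fin
  have hN : XClass B₀ N := (xclass_fitting hK (hK.adm hn)).of_normal_emb φ hφ hr hG
  have h1 := (hN.comps hK).map φ hφ
  rw [map_Lrel φ hφ, ← MonoidHom.range_eq_map] at h1
  have h2 := (hG.comps hK).restrict hK (hK.adm hn) (N := φ.range) (Lrel_mono le_top)
  have h3 := h1.unique hK hG.1 h2
  have hg' : φ g ∈ Lrel φ.range := by
    rw [MonoidHom.range_eq_map, ← map_Lrel φ hφ]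
    exact mem_map_of_mem φ hg
  have h4 : glob B₀ ν G (φ g) = ∏ᶠ X ∈ Subgroup.map φ '' compsOf B₀ N, loc B₀ ν X (φ g) := by
    rw [h3, glob]
    refine finprod_mem_inter_mulSupport_eq' _ _ _ (fun X hX => ⟨fun hm => ⟨hm, fun hc => hX ?_⟩,
      fun hm => hm.1⟩)
    obtain ⟨ι, hι, rfl, -⟩ := (hG.comps hK).emb X hm
    exact (loc_eq hν hι (one_mem _) (acts_one_iff.2 (hc _ hg'))).trans hν.one
  rw [h4, finprod_mem_image (Subgroup.map_injective hφ).injOn, glob]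
  refine finprod_mem_congr rfl (fun X hX => ?_)
  obtain ⟨ι, hι, rfl, ha⟩ := (hN.comps hK).emb X hX
  obtain ⟨α, hα, a₁⟩ := ha g hg
  rw [loc_eq hν hι hα a₁, ← MonoidHom.range_comp]
  exact loc_eq hν (hφ.comp hι) hα (fun k => by simp [a₁ k])

lemma Tower.exists_decomp {G : Type} [Group G] (hT : Tower G) (g : G) :
    ∃ l ∈ Lrel (⊤ : Subgroup G), El 14 (l⁻¹ * g) := by
  have h1 : g ∈ Lrel (⊤ : Subgroup G) ⊔ hT.H := by
    obtain ⟨k, hk⟩ := El.pow_split (a := 3) (b := 14) (hT.all g)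
    obtain ⟨l, hl⟩ := hT.pow_mem_H g
    exact mem_of_pow_mem_of_coprime (Nat.Coprime.pow k l (by norm_num : Nat.Coprime 14 3))
      (mem_sup_left (mem_Lrel (mem_top _) hk)) (mem_sup_right hl)
  have h2 : g ∈ ((Lrel (⊤ : Subgroup G) ⊔ hT.H : Subgroup G) : Set G) := h1
  rw [Subgroup.normal_mul] at h2
  obtain ⟨a, ha, b, hb, rfl⟩ := h2
  exact ⟨a, ha, by simpa using hT.mem_H.1 hb⟩

open Classical in
/-- The value of the pair. -/
noncomputable def gval (B₀ : Subgroup (MulAut K)) (ν : MulAut K → A3) (G : Type) [Group G]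
    (g : G) : A3 :=
  if h : ∃ l ∈ Lrel (⊤ : Subgroup G), El 14 (l⁻¹ * g) then glob B₀ ν G h.choose else 1

lemma gval_eq (hK : Hyp K W B₀) (hν : Chr B₀ ν) {G : Type} [Group G] (hG : XClass B₀ G)
    {g l : G} (hl : l ∈ Lrel (⊤ : Subgroup G)) (e : El 14 (l⁻¹ * g)) :
    gval B₀ ν G g = glob B₀ ν G l := by
  have h : ∃ l ∈ Lrel (⊤ : Subgroup G), El 14 (l⁻¹ * g) := ⟨l, hl, e⟩
  rw [gval, dif_pos h]
  refine glob_congr hK hν hG hl h.choose_spec.1 ?_
  have := hG.1.mul14 _ _ e h.choose_spec.2.inv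
  simpa [mul_assoc] using this

/-- The pair on the smallest class. -/
noncomputable def failPair (hK : Hyp K W B₀) (hn : B₀.Normal) (hν : Chr B₀ ν) :
    Pair (XClass B₀) A3 where
  val := gval B₀ ν
  map_mul G _ hG a b := by
    obtain ⟨l, hl, e⟩ := hG.1.exists_decomp a
    obtain ⟨m, hm, e'⟩ := hG.1.exists_decomp b
    rw [gval_eq hK hν hG hl e, gval_eq hK hν hG hm e', ← glob_mul hK hν hG hl hm]
    refine gval_eq hK hν hG (mul_mem hl hm) ?_
    have := hG.1.mul14 _ _ (e.conj m⁻¹) e'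
    simpa [mul_assoc] using this
  compat N G _ _ φ hG hφ hr n := by
    have hN : XClass B₀ N := (xclass_fitting hK (hK.adm hn)).of_normal_emb φ hφ hr hG
    obtain ⟨l, hl, e⟩ := hN.1.exists_decomp n
    rw [gval_eq hK hν hN hl e, ← glob_emb hK hn hν φ hG hφ hr hl]
    refine gval_eq hK hν hG (map_mem_Lrel_top φ hl) ?_
    simpa using e.map φ

theorem abstract_counterexample (hK : Hyp K W B₀) (hn : B₀.Normal) (hν : Chr B₀ ν)
    {B₁ B₂ : Subgroup (MulAut K)} (h₁ : Adm B₀ B₁) (h₂ : Adm B₀ B₂) {x₁ x₂ : MulAut K}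
    (s₁ : Syl B₁ x₁) (s₂ : Syl B₂ x₂) (hinf : B₁ ⊓ B₂ ≤ B₀) (hz : x₁ ^ 3 ∈ B₀)
    (hνz : ν (x₁ ^ 3) ≠ 1) :
    ∃ X Y : GroupClass, IsFitting X ∧ IsFitting Y ∧ upperStar X = X ∧ upperStar Y = Y ∧
      LockettCondition X ∧ LockettCondition Y ∧ ¬ LockettCondition (interClass X Y) := by
  have hX₀ := xclass_fitting hK (hK.adm hn)
  have hX₁ := xclass_fitting hK h₁
  have hX₂ := xclass_fitting hK h₂
  have := hK.fin
  refine ⟨XClass B₁, XClass B₂, hX₁, hX₂, by rw [upperStar_eq hX₁, xclass_star hK h₁],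
    by rw [upperStar_eq hX₂, xclass_star hK h₂], lockettCondition_xclass hK h₁ s₁,
    lockettCondition_xclass hK h₂ s₂, fun hL => ?_⟩
  set z := x₁ ^ 3 with hzdef
  have hx3 : El 3 x₁ := ⟨2, s₁.pow⟩
  have hz3 : El 3 z := hx3.pow 3
  have hzf : Fpf z := hK.fpf_of_B₀ hz hz3 (fun e => hνz (by rw [e, hν.one]))
  have hG₀ : XClass B₀ (Agp z) := agp_mem hK (hK.adm hn) hz hz3 hzf
  have hG₁ : XClass B₁ (Agp z) := hG₀.mono h₁.le
  have hle : Agp z ≤ Agp x₁ := sup_le_sup_right (zpowers_le.2 (pow_mem (mem_zpowers _) 3)) _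
  have hlow : lowerStar (XClass B₁) (Agp z) := by
    refine lowerStar_of_pairs hX₁ (xclass_star hK h₁) hG₁ (fun A _ d g => ?_)
    have hA := agp_mem hK h₁ s₁.mem hx3 s₁.fpf
    have h1 : (d.hom hG₁).ker = ⊤ := by
      refine eq_top_of_gen_mem ?_ (val_iota hK h₁ d (h₁.le hz) hz3 hzf)
      obtain ⟨y, hy⟩ := s₁.conj
      have h2 := val_gen_pow_three hK h₁ d s₁.mem s₁.pow s₁.fpf hy
      have h3 := d.compat_subnormal hX₁ (inclusion hle) hA (inclusion_injective hle)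
        (isSubnormal_of_pow_mem (p := 3) (iota x₁).range (pow_mem_range_iota hx3) (by
          rintro _ ⟨k, rfl⟩
          exact ⟨iota z k, rfl⟩)) (gen z)
      rw [← d.map_pow hA] at h2
      show d.val (Agp z) (gen z) = 1
      rw [← h3, ← h2]
      rfl
    have h2 : g ∈ (d.hom hG₁).ker := by rw [h1]; trivial
    exact h2
  have hS := lowerStar_mono hX₁ soluble_fitting hX₁.soluble _ hlow
  have h1 : interClass (interClass (XClass B₁) (XClass B₂)) (lowerStar solubleClass) (Agp z) :=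
    ⟨⟨hG₁, hG₀.mono h₂.le⟩, hS⟩
  rw [hL] at h1
  have h2 := lowerStar_mono (inter_fitting hX₁ hX₂) hX₀ (xclass_inter hK h₂ hinf) _ h1
  have h3 : gval B₀ ν (Agp z) (gen z) = 1 :=
    (failPair hK hn hν).val_eq_one_of_lowerStar hX₀ h2 (gen z)
  have hg : gen z ∈ Lrel (⊤ : Subgroup (Agp z)) :=
    mem_Lrel (mem_top _) (El.of_map _ (Agp z).subtype_injective hz3)
  rw [gval_eq hK hν hG₀ hg (by rw [inv_mul_cancel]; exact El.one), glob,
    compsOf_eq hK hG₀.1 (agp_comps hK (hK.adm hn) hz hz3 hzf), finprod_mem_singleton,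
    loc_eq hν (iota_injective hK z) hz (acts_iota z (gen z))] at h3
  exact hνz h3

end

end Pool.Agent.MP_060950_al

end
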